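import Pool.Agent.Helper927.MTree.Defs
set_option autoImplicit false
set_option maxHeartbeats 4000000

namespace Pool.Agent.MultiTree

open Finset

/-! ### AVAILABLE: statements you may use; leave these `sorry`s in place (they are proved in other jobs) -/



/-! ### TARGET: replace the `sorry`s below by proofs (auxiliary lemmas are fine, put them in this file) -/

theorem asg {ι : Type} [DecidableEq ι] (J : Finset ι) (s : ι → ℕ) (p : ℕ) (b : Fin p → ℕ) (n S : ℕ)
    (h1 : ∀ r ∈ J, 1 ≤ s r) (h2 : ∀ r ∈ J, 2 * s r ≤ n) (h3 : ∑ r ∈ J, s r < n)
    (hb : n ≤ ∑ i, b i) (hb' : ∀ i, n ≤ S + ∑ j ∈ univ.erase i, b j) (hS : 3 * n ≤ 4 * S) :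
    ∃ g : ι → Fin p, ∀ i, (J.filter (fun r => g r = i)).card ≤ b i ∧
      ∑ r ∈ J.filter (fun r => g r = i), s r ≤ S := by
  classical
  have hn : 0 < n := by omega
  have hp : 0 < p := by
    rcases Nat.eq_zero_or_pos p with h | h
    · subst h
      simp at hb
      omega
    · exact h
  have key : ∀ J' : Finset ι, J' ⊆ J → ∃ g : ι → Fin p,
      ∀ i, (J'.filter (fun r => g r = i)).card ≤ b i ∧
        ∑ r ∈ J'.filter (fun r => g r = i), s r ≤ S := by
    intro J'
    induction J' using Finset.induction_on with
    | empty => intro _; exact ⟨fun _ => ⟨0, hp⟩, fun i => by simp⟩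
    | insert r J' hr ih =>
      intro hsub
      obtain ⟨g, hg⟩ := ih (fun x hx => hsub (mem_insert_of_mem hx))
      let c : Fin p → ℕ := fun i => (J'.filter (fun r => g r = i)).card
      let T : Fin p → ℕ := fun i => ∑ r ∈ J'.filter (fun r => g r = i), s r
      have hsum : ∑ i, T i = ∑ r ∈ J', s r := Finset.sum_fiberwise J' g s
      have hcs : ∀ i, c i ≤ T i := by
        intro i
        have e : c i = ∑ _r ∈ J'.filter (fun r => g r = i), 1 := card_eq_sum_ones _
        rw [e]
        exact Finset.sum_le_sum (fun x hx =>
          h1 x (hsub (mem_insert_of_mem (mem_filter.1 hx).1)))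
      have htot : ∑ i, T i + s r < n := by
        have h : ∑ r ∈ insert r J', s r ≤ ∑ r ∈ J, s r := Finset.sum_le_sum_of_subset hsub
        rw [Finset.sum_insert hr] at h
        omega
      have h2r : 2 * s r ≤ n := h2 r (hsub (mem_insert_self _ _))
      have claim : ∃ i, c i < b i ∧ T i + s r ≤ S := by
        by_contra hcon
        push Not at hcon
        by_cases h : ∃ i, S < T i + s r
        · obtain ⟨i, hi⟩ := h
          have a3 : ∑ j ∈ univ.erase i, T j + T i = ∑ j, T j :=
            Finset.sum_erase_add _ _ (mem_univ i)
          by_cases h' : ∀ j ∈ univ.erase i, b j ≤ c j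
          · have a1 := hb' i
            have a2 : ∑ j ∈ univ.erase i, b j ≤ ∑ j ∈ univ.erase i, T j :=
              Finset.sum_le_sum (fun j hj => (h' j hj).trans (hcs j))
            omega
          · push Not at h'
            obtain ⟨j, hj, hbj⟩ := h'
            have hj' := hcon j hbj
            have a4 : T j ≤ ∑ j ∈ univ.erase i, T j :=
              Finset.single_le_sum (fun _ _ => Nat.zero_le _) hj
            omega
        · push Not at h
          have h4 : ∀ i, b i ≤ c i := by
            intro i
            by_contra hh
            exact absurd (hcon i (not_le.1 hh)) (not_lt.2 (h i))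
          have a2 : ∑ i, b i ≤ ∑ i, T i := Finset.sum_le_sum (fun i _ => (h4 i).trans (hcs i))
          omega
      obtain ⟨i, hi1, hi2⟩ := claim
      have hup : ∀ k, J'.filter (fun x => Function.update g r i x = k) =
          J'.filter (fun x => g x = k) := by
        intro k
        refine Finset.filter_congr fun x hx => ?_
        have hxr : x ≠ r := fun h => hr (h ▸ hx)
        rw [Function.update_of_ne hxr]
      refine ⟨Function.update g r i, fun k => ?_⟩
      rw [Finset.filter_insert, hup k]
      by_cases hk : i = k
      · subst hk
        rw [if_pos (Function.update_self r i g)]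
        have hr' : r ∉ J'.filter (fun x => g x = i) := fun h => hr (mem_filter.1 h).1
        rw [Finset.card_insert_of_notMem hr', Finset.sum_insert hr']
        constructor
        · exact hi1
        · have : T i + s r ≤ S := hi2
          have e : T i = ∑ r ∈ J'.filter (fun r => g r = i), s r := rfl
          omega
      · rw [if_neg (by rw [Function.update_self]; exact hk)]
        exact hg k
  exact key J (Finset.Subset.refl J)

end Pool.Agent.MultiTree
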