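import Pool.Agent.Helper927.MTree.Defs
set_option autoImplicit false
set_option maxHeartbeats 4000000

namespace Pool.Agent.MultiTree

open Finset

/-! ### AVAILABLE: statements you may use; leave these `sorry`s in place (they are proved in other jobs) -/



/-! ### TARGET: replace the `sorry`s below by proofs (auxiliary lemmas are fine, put them in this file) -/

theorem pig {Ω V : Type} (Om : Finset Ω) (Y : Finset V) (good : V → Ω → Prop) (a : ℝ) (m : ℕ)
    (ha0 : 0 ≤ a) (ha1 : a ≤ 1) (hg : ∀ y ∈ Y, a * Om.card ≤ ((flt Om (fun ω => good y ω)).card : ℝ))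
    (hm : 2 * (m : ℝ) ≤ a * Y.card) :
    ∃ Z ⊆ Y, Z.card = m ∧
      a / 2 / 2 ^ Y.card * Om.card ≤ ((flt Om (fun ω => ∀ z ∈ Z, good z ω)).card : ℝ) := by
  classical
  by_contra hcon
  push Not at hcon
  have hN0 : (0:ℝ) ≤ (Y.card : ℝ) := Nat.cast_nonneg _
  have hC0 : (0:ℝ) ≤ (Om.card : ℝ) := Nat.cast_nonneg _
  have hmN : m ≤ Y.card := by
    have h1 : 2 * (m : ℝ) ≤ (Y.card : ℝ) := by nlinarith
    have h2 : (m : ℝ) ≤ (Y.card : ℝ) := by
      have : (0:ℝ) ≤ (m : ℝ) := Nat.cast_nonneg _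
      linarith
    exact_mod_cast h2
  obtain ⟨Z0, hZ0, hZ0c⟩ := Finset.exists_subset_card_eq hmN
  have hCpos : (0:ℝ) < (Om.card : ℝ) := by
    rcases hC0.lt_or_eq with h | h
    · exact h
    · exfalso
      have h1 := hcon Z0 hZ0 hZ0c
      rw [← h, mul_zero] at h1
      exact absurd h1 (not_lt.2 (Nat.cast_nonneg _))
  set g : Ω → ℕ := fun ω => (Y.filter (fun y => good y ω)).card with hgdef
  set Om' : Finset Ω := Om.filter (fun ω => m ≤ g ω) with hOm'
  -- double counting
  have hdc : (∑ ω ∈ Om, (g ω : ℝ)) = ∑ y ∈ Y, ((Om.filter (fun ω => good y ω)).card : ℝ) := by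
    have e1 : ∀ ω, (g ω : ℝ) = ∑ y ∈ Y, (if good y ω then (1:ℝ) else 0) := by
      intro ω
      rw [hgdef]
      simp only
      rw [Finset.card_filter]
      push_cast
      rfl
    have e2 : ∀ y, ((Om.filter (fun ω => good y ω)).card : ℝ) = ∑ ω ∈ Om, (if good y ω then (1:ℝ) else 0) := by
      intro y
      rw [Finset.card_filter]
      push_cast
      rfl
    simp only [e1, e2]
    exact Finset.sum_comm
  have hlow : (Y.card : ℝ) * (a * Om.card) ≤ ∑ ω ∈ Om, (g ω : ℝ) := by
    rw [hdc]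
    calc (Y.card : ℝ) * (a * Om.card) = ∑ y ∈ Y, (a * Om.card : ℝ) := by
          rw [Finset.sum_const, nsmul_eq_mul]
      _ ≤ _ := by
          apply Finset.sum_le_sum
          intro y hy
          have := hg y hy
          rw [flt_eq] at this
          exact this
  have hup : (∑ ω ∈ Om, (g ω : ℝ)) ≤ (Om'.card : ℝ) * Y.card + m * Om.card := by
    have e1 : ∀ ω ∈ Om, (g ω : ℝ) ≤ (if m ≤ g ω then (Y.card : ℝ) else 0) + m := by
      intro ω _
      split_ifs with h
      · have h1 : g ω ≤ Y.card := Finset.card_filter_le _ _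
        have h2 : (g ω : ℝ) ≤ (Y.card : ℝ) := by exact_mod_cast h1
        have h3 : (0:ℝ) ≤ (m : ℝ) := Nat.cast_nonneg _
        linarith
      · push Not at h
        have h2 : (g ω : ℝ) ≤ (m : ℝ) := by exact_mod_cast h.le
        linarith
    refine le_trans (Finset.sum_le_sum e1) ?_
    rw [Finset.sum_add_distrib, Finset.sum_const, nsmul_eq_mul, ← Finset.sum_filter,
      Finset.sum_const, nsmul_eq_mul, mul_comm (Om.card : ℝ) (m : ℝ)]
  have hOmlow : a / 2 * Om.card ≤ (Om'.card : ℝ) := by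
    rcases hN0.lt_or_eq with hNp | hN
    · have h1 : (a / 2 * Om.card) * Y.card ≤ (Om'.card : ℝ) * Y.card := by
        have h2 : 2 * (m : ℝ) * Om.card ≤ a * Y.card * Om.card :=
          mul_le_mul_of_nonneg_right hm hC0
        nlinarith
      exact le_of_mul_le_mul_right h1 hNp
    · have hm0 : m = 0 := by
        rw [← hN, mul_zero] at hm
        have : (m : ℝ) ≤ 0 := by linarith
        have h3 : (m : ℝ) = 0 := le_antisymm this (Nat.cast_nonneg _)
        exact_mod_cast h3
      have hOO : Om' = Om := by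
        rw [hOm']
        apply Finset.filter_true_of_mem
        intro ω _
        rw [hm0]
        exact Nat.zero_le _
      rw [hOO]
      nlinarith
  have hsub : Om' ⊆ (Y.powersetCard m).biUnion (fun Z => flt Om (fun ω => ∀ z ∈ Z, good z ω)) := by
    intro ω hω
    rw [hOm', Finset.mem_filter] at hω
    obtain ⟨Z, hZ, hZc⟩ := Finset.exists_subset_card_eq hω.2
    rw [Finset.mem_biUnion]
    refine ⟨Z, ?_, ?_⟩
    · rw [Finset.mem_powersetCard]
      exact ⟨hZ.trans (Finset.filter_subset _ _), hZc⟩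
    · rw [mem_flt]
      exact ⟨hω.1, fun z hz => (Finset.mem_filter.1 (hZ hz)).2⟩
  have hcard : (Om'.card : ℝ) ≤ ∑ Z ∈ Y.powersetCard m,
      ((flt Om (fun ω => ∀ z ∈ Z, good z ω)).card : ℝ) := by
    have h1 := (Finset.card_le_card hsub).trans Finset.card_biUnion_le
    exact_mod_cast h1
  have hne : (Y.powersetCard m).Nonempty := ⟨Z0, Finset.mem_powersetCard.2 ⟨hZ0, hZ0c⟩⟩
  have hlt : (∑ Z ∈ Y.powersetCard m, ((flt Om (fun ω => ∀ z ∈ Z, good z ω)).card : ℝ)) <
      ∑ _Z ∈ Y.powersetCard m, (a / 2 / 2 ^ Y.card * Om.card : ℝ) := by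
    apply Finset.sum_lt_sum_of_nonempty hne
    intro Z hZ
    rw [Finset.mem_powersetCard] at hZ
    exact hcon Z hZ.1 hZ.2
  rw [Finset.sum_const, nsmul_eq_mul] at hlt
  have hnum : ((Y.powersetCard m).card : ℝ) ≤ 2 ^ Y.card := by
    have h1 : (Y.powersetCard m).card ≤ Y.powerset.card := by
      apply Finset.card_le_card
      intro Z hZ
      rw [Finset.mem_powersetCard] at hZ
      exact Finset.mem_powerset.2 hZ.1
    rw [Finset.card_powerset] at h1
    exact_mod_cast h1
  have hq : 0 ≤ a / 2 / 2 ^ Y.card * (Om.card : ℝ) := by positivity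
  have hfin : ((Y.powersetCard m).card : ℝ) * (a / 2 / 2 ^ Y.card * Om.card) ≤ a / 2 * Om.card := by
    calc ((Y.powersetCard m).card : ℝ) * (a / 2 / 2 ^ Y.card * Om.card) ≤
        2 ^ Y.card * (a / 2 / 2 ^ Y.card * Om.card) := mul_le_mul_of_nonneg_right hnum hq
      _ = a / 2 * Om.card := by
        have : (2:ℝ) ^ Y.card ≠ 0 := by positivity
        field_simp
  linarith

end Pool.Agent.MultiTree
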