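import Pool.Agent.Helper927.MTree.Defs
import Pool.Agent.Helper927.MTree.PIG
set_option autoImplicit false
set_option maxHeartbeats 4000000

namespace Pool.Agent.MultiTree

open Finset

/-! ### TARGET: replace the `sorry`s below by proofs (auxiliary lemmas are fine, put them in this file) -/

theorem box (k : ℕ) : ∀ (M : ℕ) (ε : ℝ), 0 < ε → ∃ N0 : ℕ, ∀ (V : Type) [Fintype V],
    N0 ≤ Fintype.card V → ∀ E : Finset (Fin k → V), ε * (Fintype.card V : ℝ) ^ k ≤ E.card →
      ∃ S : Fin k → Finset V, (∀ i, (S i).card = M) ∧ ∀ x : Fin k → V, (∀ i, x i ∈ S i) → x ∈ E := by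
  induction k with
  | zero =>
    intro M ε hε
    refine ⟨0, fun V _ _ E hE => ?_⟩
    rw [pow_zero, mul_one] at hE
    have h1 : 0 < E.card := by
      have : (0 : ℝ) < E.card := lt_of_lt_of_le hε hE
      exact_mod_cast this
    obtain ⟨x0, hx0⟩ := Finset.card_pos.1 h1
    refine ⟨fun i => i.elim0, fun i => i.elim0, fun x _ => ?_⟩
    rwa [Subsingleton.elim x x0]
  | succ k ih =>
    intro M ε hε
    obtain ⟨ε', hε'0, hε'1, hε'ε⟩ : ∃ ε' : ℝ, 0 < ε' ∧ ε' ≤ 1 ∧ ε' ≤ ε :=
      ⟨min ε 1, lt_min hε one_pos, min_le_right _ _, min_le_left _ _⟩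
    obtain ⟨t, ht⟩ : ∃ t : ℕ, 4 * (M : ℝ) / ε' ≤ t := ⟨⌈4 * (M : ℝ) / ε'⌉₊, Nat.le_ceil _⟩
    have ht2 : 2 * (M : ℝ) ≤ ε' / 2 * t := by
      rw [div_le_iff₀ hε'0] at ht
      linarith
    obtain ⟨N1, hN1⟩ := ih M (ε' / 2 / 2 / 2 ^ t) (by positivity)
    refine ⟨max N1 (⌈2 * (t : ℝ) / ε'⌉₊ + 1), fun V _ hN E hE => ?_⟩
    have hNN1 : N1 ≤ Fintype.card V := (le_max_left _ _).trans hN
    have hN2 : ⌈2 * (t : ℝ) / ε'⌉₊ + 1 ≤ Fintype.card V := (le_max_right _ _).trans hN
    have hN3 : 2 * (t : ℝ) / ε' ≤ Fintype.card V := by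
      refine (Nat.le_ceil _).trans ?_
      exact_mod_cast (Nat.le_succ _).trans hN2
    have hNpos : (0 : ℝ) < Fintype.card V := by
      have : 0 < Fintype.card V := by omega
      exact_mod_cast this
    set N : ℝ := (Fintype.card V : ℝ) with hNdef
    have hNk : 0 < N ^ k := by positivity
    have hE' : ε' * N ^ (k + 1) ≤ E.card :=
      (mul_le_mul_of_nonneg_right hε'ε (by positivity)).trans hE
    set Ex : V → Finset (Fin k → V) :=
      fun x => flt univ (fun y : Fin k → V => (Fin.cons x y : Fin (k + 1) → V) ∈ E) with hEx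
    have hOm : (((univ : Finset (Fin k → V)).card : ℕ) : ℝ) = N ^ k := by
      rw [Finset.card_univ, Fintype.card_fun, Fintype.card_fin]
      push_cast
      rfl
    have hExle : ∀ x, ((Ex x).card : ℝ) ≤ N ^ k := by
      intro x
      rw [← hOm]
      exact_mod_cast Finset.card_le_card (Finset.subset_univ _)
    have hsum : (E.card : ℝ) ≤ ∑ x : V, ((Ex x).card : ℝ) := by
      classical
      have h1 : E.card = ∑ x : V, (E.filter (fun z => z 0 = x)).card :=
        Finset.card_eq_sum_card_fiberwise (f := fun z : Fin (k + 1) → V => z 0) (t := univ)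
          (fun z _ => Finset.mem_univ _)
      rw [h1]
      push_cast
      refine Finset.sum_le_sum fun x _ => ?_
      have h2 : (E.filter (fun z => z 0 = x)).card ≤ (Ex x).card := by
        apply Finset.card_le_card_of_injOn (fun z => Fin.tail z)
        · intro z hz
          have hz' := Finset.mem_filter.1 (Finset.mem_coe.1 hz)
          apply Finset.mem_coe.2
          rw [hEx]
          refine mem_flt.2 ⟨Finset.mem_univ _, ?_⟩
          rw [← hz'.2, Fin.cons_self_tail]
          exact hz'.1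
        · intro z hz z' hz' he
          have hz1 := Finset.mem_filter.1 (Finset.mem_coe.1 hz)
          have hz2 := Finset.mem_filter.1 (Finset.mem_coe.1 hz')
          have he' : Fin.tail z = Fin.tail z' := he
          rw [← Fin.cons_self_tail z, ← Fin.cons_self_tail z', he', hz1.2, hz2.2]
      exact_mod_cast h2
    set A : Finset V := flt univ (fun x => ε' / 2 * N ^ k ≤ (Ex x).card) with hA
    have hAcard : (t : ℝ) ≤ A.card := by
      have h1 : ∑ x : V, ((Ex x).card : ℝ) ≤ A.card * N ^ k + N * (ε' / 2 * N ^ k) := by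
        classical
        have h2 : ∀ x : V, ((Ex x).card : ℝ) ≤ (if x ∈ A then N ^ k else 0) + ε' / 2 * N ^ k := by
          intro x
          by_cases hx : x ∈ A
          · rw [if_pos hx]
            have := hExle x
            have h3 : 0 ≤ ε' / 2 * N ^ k := by positivity
            linarith
          · rw [if_neg hx]
            have h3 : ¬ (ε' / 2 * N ^ k ≤ (Ex x).card) := fun h => hx (mem_flt.2 ⟨Finset.mem_univ _, h⟩)
            linarith [not_le.1 h3]
        refine (Finset.sum_le_sum fun x _ => h2 x).trans ?_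
        rw [Finset.sum_add_distrib, Finset.sum_const, Finset.card_univ, nsmul_eq_mul,
          Finset.sum_ite_mem, Finset.univ_inter, Finset.sum_const, nsmul_eq_mul]
      have h4 : ε' * N ^ (k + 1) ≤ A.card * N ^ k + N * (ε' / 2 * N ^ k) :=
        hE'.trans (hsum.trans h1)
      have h5 : (ε' / 2 * N) * N ^ k ≤ A.card * N ^ k := by
        rw [pow_succ] at h4
        nlinarith
      have h6 : ε' / 2 * N ≤ A.card := le_of_mul_le_mul_right h5 hNk
      rw [div_le_iff₀ hε'0] at hN3
      linarith
    have hAcard' : t ≤ A.card := by exact_mod_cast hAcard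
    obtain ⟨Y, hYA, hYt⟩ := Finset.exists_subset_card_eq hAcard'
    obtain ⟨Z, hZY, hZM, hZ⟩ := pig (univ : Finset (Fin k → V)) Y
      (fun x y => (Fin.cons x y : Fin (k + 1) → V) ∈ E) (ε' / 2) M (by positivity) (by linarith)
      (by
        intro y hy
        rw [hOm]
        exact (mem_flt.1 (hYA hy)).2)
      (by
        rw [hYt]
        exact ht2)
    rw [hYt, hOm] at hZ
    obtain ⟨S', hS'1, hS'2⟩ := hN1 V hNN1 _ hZ
    refine ⟨Fin.cons Z S', ?_, ?_⟩
    · intro i
      refine Fin.cases ?_ (fun j => ?_) i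
      · rw [Fin.cons_zero]
        exact hZM
      · rw [Fin.cons_succ]
        exact hS'1 j
    · intro x hx
      have h0 := hx 0
      rw [Fin.cons_zero] at h0
      have h1 : Fin.tail x ∈ flt univ (fun ω : Fin k → V =>
          ∀ z ∈ Z, (Fin.cons z ω : Fin (k + 1) → V) ∈ E) := by
        apply hS'2
        intro j
        have h2 := hx j.succ
        rw [Fin.cons_succ] at h2
        exact h2
      have h3 := (mem_flt.1 h1).2 (x 0) h0
      rwa [Fin.cons_self_tail] at h3

end Pool.Agent.MultiTree
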