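import Pool.Agent.Helper927.MTree.Defs
import Pool.Agent.Helper927.MTree.BOX
set_option autoImplicit false
set_option maxHeartbeats 4000000

namespace Pool.Agent.MultiTree

open Finset

/-! ### TARGET: replace the `sorry`s below by proofs (auxiliary lemmas are fine, put them in this file) -/

theorem box_clq (k M : ℕ) (ε : ℝ) (hε : 0 < ε) : ∃ N0 : ℕ, ∀ (V : Type) [Fintype V],
    N0 ≤ Fintype.card V → ∀ H : SimpleGraph V, ¬ HasM H (fun _ : Fin k => M) →
      (clq H univ k : ℝ) < ε * (Fintype.card V : ℝ) ^ k := by
  obtain ⟨N0, hN0⟩ := box k M ε hε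
  refine ⟨N0, ?_⟩
  intro V _ hV H hH
  by_contra hcon
  push Not at hcon
  classical
  obtain ⟨S, hS, hSE⟩ := hN0 V hV (flt (univ : Finset (Fin k → V))
    (fun x => (∀ i, x i ∈ (univ : Finset V)) ∧ ∀ i i', i ≠ i' → H.Adj (x i) (x i'))) hcon
  apply hH
  refine ⟨S, hS, ?_⟩
  intro i j hij x hx y hy
  have hM : 0 < M := by
    rw [← hS i]; exact Finset.card_pos.mpr ⟨x, hx⟩
  have hne : ∀ l, (S l).Nonempty := by
    intro l
    rw [← Finset.card_pos, hS l]; exact hM
  choose z hz using hne
  have hw := hSE (Function.update (Function.update z i x) j y) (by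
    intro l
    by_cases hlj : l = j
    · subst hlj; rw [Function.update_self]; exact hy
    · rw [Function.update_of_ne hlj]
      by_cases hli : l = i
      · subst hli; rw [Function.update_self]; exact hx
      · rw [Function.update_of_ne hli]; exact hz l)
  have h2 := (mem_flt.1 hw).2.2 i j hij
  rw [Function.update_of_ne hij, Function.update_self, Function.update_self] at h2
  exact h2

end Pool.Agent.MultiTree
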