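import Pool.Agent.Helper927.MTree.Defs
set_option autoImplicit false
set_option maxHeartbeats 4000000

namespace Pool.Agent.MultiTree

open Finset

/-! ### AVAILABLE: statements you may use; leave these `sorry`s in place (they are proved in other jobs) -/



/-! ### TARGET: replace the `sorry`s below by proofs (auxiliary lemmas are fine, put them in this file) -/

theorem exists_rooted {n : ℕ} (T : SimpleGraph (Fin n)) (hT : T.IsTree) (c : Fin n) :
    ∃ (par : Fin n → Fin n) (dep : Fin n → ℕ), Rooted T c par dep ∧ (∀ a, dep a = T.dist c a) ∧
      ∀ a, a ≠ c → T.Adj (par a) a := by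
  classical
  choose q hq hql using fun a => hT.connected.exists_path_of_dist c a
  have hnil : ∀ a, a ≠ c → ¬ (q a).Nil := by
    intro a ha hn
    exact ha hn.eq.symm
  have hadj : ∀ a, a ≠ c → T.Adj (q a).penultimate a := fun a ha =>
    (q a).adj_penultimate (hnil a ha)
  have hlen : ∀ a, a ≠ c → 1 ≤ (q a).length := by
    intro a ha
    by_contra hcon
    have h0 : (q a).length = 0 := by omega
    exact ha (SimpleGraph.Walk.eq_of_length_eq_zero h0).symm
  have hdist : ∀ a, a ≠ c → T.dist c a = T.dist c (q a).penultimate + 1 := by
    intro a ha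
    rcases hT.dist_eq_dist_add_one_of_adj c (hadj a ha) with h | h
    · exfalso
      have h1 := SimpleGraph.dist_le (q a).dropLast
      have h2 : (q a).dropLast.length = (q a).length - 1 := by
        simp
      rw [h2, hql] at h1
      omega
    · exact h
  have huniq : ∀ a b, a ≠ c → T.Adj a b → T.dist c a = T.dist c b + 1 →
      (q a).penultimate = b := by
    intro a b ha hab hd
    symm
    apply hT.isAcyclic.eq_penultimate_of_adj_end (hq a) hab
    by_contra hb
    have h1 : a ∈ (q b).support :=
      hT.isAcyclic.mem_support_of_ne_mem_support_of_adj_of_isPath (hq b) (hq a) hab.symm hb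
    have h2 := hT.isAcyclic.path_concat (hq a) (hq b) hab h1
    have h3 := congrArg SimpleGraph.Walk.length h2
    rw [SimpleGraph.Walk.length_concat, hql, hql] at h3
    omega
  refine ⟨fun a => (q a).penultimate, fun a => T.dist c a, ⟨?_, ?_, ?_, ?_⟩, fun _ => rfl, hadj⟩
  · exact SimpleGraph.dist_self
  · exact hdist
  · intro a
    rw [← hql]
    simpa using (hq a).length_lt
  · intro a b hab
    rcases hT.dist_eq_dist_add_one_of_adj c hab with h | h
    · left
      have ha : a ≠ c := by
        rintro rfl
        rw [SimpleGraph.dist_self] at h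
        omega
      exact ⟨ha, huniq a b ha hab h⟩
    · right
      have hb : b ≠ c := by
        rintro rfl
        rw [SimpleGraph.dist_self] at h
        omega
      exact ⟨hb, huniq b a hb hab.symm h⟩

end Pool.Agent.MultiTree
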