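import Pool.Agent.Helper927.MTree.Defs
import Pool.Agent.Helper927.MTree.T0
set_option autoImplicit false
set_option maxHeartbeats 4000000

namespace Pool.Agent.MultiTree

open Finset

/-! ### TARGET: replace the `sorry`s below by proofs (auxiliary lemmas are fine, put them in this file) -/

theorem tree_dist_adj {n : ℕ} (T : SimpleGraph (Fin n)) (hT : T.IsTree) (a r c : Fin n)
    (h : T.Adj r c) : T.dist a r = T.dist a c + 1 ∨ T.dist a c = T.dist a r + 1 := by
  obtain ⟨par, dep, hR, hd, -⟩ := exists_rooted T hT a
  rcases hR.adj r c h with ⟨h1, h2⟩ | ⟨h1, h2⟩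
  · left
    have := hR.dep_par r h1
    rw [h2, hd, hd] at this
    exact this
  · right
    have := hR.dep_par c h1
    rw [h2, hd, hd] at this
    exact this

theorem tree_uniq {n : ℕ} (T : SimpleGraph (Fin n)) (hT : T.IsTree) (a r c w : Fin n)
    (hc : T.Adj r c) (hw : T.Adj r w) (h1 : T.dist a c < T.dist a r)
    (h2 : T.dist a w < T.dist a r) : c = w := by
  obtain ⟨par, dep, hR, hd, -⟩ := exists_rooted T hT a
  have key : ∀ c, T.Adj r c → T.dist a c < T.dist a r → par r = c := by
    intro c hc h1
    rcases hR.adj r c hc with ⟨h3, h4⟩ | ⟨h3, h4⟩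
    · exact h4
    · exfalso
      have := hR.dep_par c h3
      rw [h4, hd, hd] at this
      omega
  rw [← key c hc h1, ← key w hw h2]

/-- the vertices closer to `y` than to `x` -/
noncomputable def bra {n : ℕ} (T : SimpleGraph (Fin n)) (x y : Fin n) : Finset (Fin n) :=
  univ.filter (fun a => T.dist y a < T.dist x a)

theorem exists_cent {n : ℕ} (T : SimpleGraph (Fin n)) (hT : T.IsTree) :
    ∃ c : Fin n, ∀ r, T.Adj c r → 2 * (bra T c r).card ≤ n := by
  classical
  have hne : Nonempty (Fin n) := hT.1.nonempty
  obtain ⟨c, hc⟩ := Finite.exists_min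
    (fun c : Fin n => (univ.filter (T.Adj c)).sup (fun r => (bra T c r).card))
  refine ⟨c, fun r hr => ?_⟩
  by_contra hcon
  push Not at hcon
  have h1 : (bra T c r).card ≤ (univ.filter (T.Adj c)).sup (fun r => (bra T c r).card) :=
    Finset.le_sup (f := fun r => (bra T c r).card) (Finset.mem_filter.2 ⟨Finset.mem_univ _, hr⟩)
  have h2 : (univ.filter (T.Adj r)).sup (fun w => (bra T r w).card) < (bra T c r).card := by
    rw [Finset.sup_lt_iff (by
      rw [Nat.bot_eq_zero]
      omega)]
    intro w hw
    rw [Finset.mem_filter] at hw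
    by_cases hwc : w = c
    · subst hwc
      have h3 : Disjoint (bra T r w) (bra T w r) := by
        rw [Finset.disjoint_left]
        intro a ha hb
        unfold bra at ha hb
        rw [Finset.mem_filter] at ha hb
        omega
      have h4 : ((bra T r w) ∪ (bra T w r)).card ≤ n := by
        have := Finset.card_le_univ ((bra T r w) ∪ (bra T w r))
        rwa [Fintype.card_fin] at this
      rw [Finset.card_union_of_disjoint h3] at h4
      omega
    · apply Finset.card_lt_card
      rw [Finset.ssubset_iff_of_subset]
      · refine ⟨r, ?_, ?_⟩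
        · unfold bra
          rw [Finset.mem_filter, SimpleGraph.dist_self]
          exact ⟨Finset.mem_univ _, hT.1.pos_dist_of_ne hr.ne⟩
        · unfold bra
          rw [Finset.mem_filter, SimpleGraph.dist_self]
          omega
      · intro a ha
        unfold bra at ha ⊢
        rw [Finset.mem_filter] at ha ⊢
        refine ⟨Finset.mem_univ _, ?_⟩
        have h5 := ha.2
        rw [SimpleGraph.dist_comm, SimpleGraph.dist_comm (u := r)] at h5
        rw [SimpleGraph.dist_comm, SimpleGraph.dist_comm (u := c)]
        by_contra h6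
        have h7 := tree_dist_adj T hT a r c hr.symm
        exact hwc (tree_uniq T hT a r c w hr.symm hw.2 (by omega) h5).symm
  have h3 := hc r
  beta_reduce at h3
  omega

theorem exists_centroid {n : ℕ} (T : SimpleGraph (Fin n)) (hT : T.IsTree) :
    ∃ (c : Fin n) (par top : Fin n → Fin n) (dep : Fin n → ℕ), Rooted T c par dep ∧
      Topped c par top ∧ ∀ r, 2 * (univ.filter (fun a => a ≠ c ∧ top a = r)).card ≤ n := by
  classical
  obtain ⟨c, hc⟩ := exists_cent T hT
  obtain ⟨par, dep, hR, hd, hadj⟩ := exists_rooted T hT c
  have hT1 : Topped c par (fun a => par^[dep a - 1] a) := by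
    constructor
    · intro a ha hp
      have h1 := hR.dep_par a ha
      rw [hp, hR.dep_c] at h1
      simp only [h1]
      rfl
    · intro a ha hp
      have h1 := hR.dep_par a ha
      have h2 := hR.dep_par (par a) hp
      have h3 : dep a - 1 = (dep (par a) - 1) + 1 := by omega
      simp only [h3]
      rw [Function.iterate_succ_apply]
  generalize htop : (fun a => par^[dep a - 1] a) = top at hT1
  refine ⟨c, par, top, dep, hR, hT1, ?_⟩
  have key : ∀ d : ℕ, ∀ a, dep a = d → a ≠ c → T.dist (top a) a + 1 ≤ T.dist c a := by
    intro d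
    induction d using Nat.strong_induction_on with
    | _ d ih =>
      intro a hda ha
      have h1 := hR.dep_par a ha
      by_cases hp : par a = c
      · rw [hT1.one a ha hp, SimpleGraph.dist_self, ← hd]
        omega
      · rw [hT1.two a ha hp]
        have h2 := ih (dep (par a)) (by omega) (par a) rfl hp
        have h3 : T.dist (top (par a)) a ≤ T.dist (top (par a)) (par a) + T.dist (par a) a :=
          hT.1.dist_triangle
        have h4 : T.dist (par a) a = 1 := SimpleGraph.dist_eq_one_iff_adj.2 (hadj a ha)
        rw [← hd] at h2 ⊢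
        omega
  intro r
  rcases (univ.filter (fun a => a ≠ c ∧ top a = r)).eq_empty_or_nonempty with he | ⟨a, ha⟩
  · rw [he]
    simp
  · rw [Finset.mem_filter] at ha
    obtain ⟨-, ha, rfl⟩ := ha
    obtain ⟨h1, h2, -⟩ := hR.top_spec hT1 a ha
    have h3 := hadj (top a) h1
    rw [h2] at h3
    refine le_trans (Nat.mul_le_mul_left 2 (Finset.card_le_card ?_)) (hc (top a) h3)
    intro b hb
    rw [Finset.mem_filter] at hb
    unfold bra
    rw [Finset.mem_filter]
    refine ⟨Finset.mem_univ _, ?_⟩
    have h4 := key _ b rfl hb.2.1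
    rw [hb.2.2] at h4
    omega

end Pool.Agent.MultiTree
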