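import Pool.Agent.Helper927.MTree.Defs
set_option autoImplicit false
set_option maxHeartbeats 4000000

namespace Pool.Agent.MultiTree

open Finset

/-! ### AVAILABLE: statements you may use; leave these `sorry`s in place (they are proved in other jobs) -/



/-! ### TARGET: replace the `sorry`s below by proofs (auxiliary lemmas are fine, put them in this file) -/

theorem greedy {n : ℕ} {V : Type} [DecidableEq V] (c : Fin n) (par : Fin n → Fin n)
    (ρ : Fin n → ℕ) (hρ : ∀ a, a ≠ c → ρ (par a) < ρ a)
    (Zone : Fin n → Finset V) (C : Fin n → V → Finset V) (hC : ∀ a z, C a z ⊆ Zone a)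
    (hc : (Zone c).Nonempty)
    (h : ∀ a, a ≠ c → ∀ z ∈ Zone (par a),
      (univ.filter (fun b => b ≠ a ∧ ρ b ≤ ρ a ∧ ¬ Disjoint (Zone b) (Zone a))).card < (C a z).card) :
    ∃ φ : Fin n → V, Function.Injective φ ∧ (∀ a, φ a ∈ Zone a) ∧
      ∀ a, a ≠ c → φ a ∈ C a (φ (par a)) := by
  obtain ⟨w0, hw0⟩ := hc
  have hmin : ∀ m : ℕ, ∀ b, ρ b = m → b ≠ c → ρ c < ρ b := by
    intro m
    induction m using Nat.strong_induction_on with
    | _ m ih =>
      intro b hb hbc
      have h1 := hρ b hbc
      by_cases hp : par b = c
      · rw [hp] at h1; exact h1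
      · exact (ih (ρ (par b)) (hb ▸ h1) (par b) rfl hp).trans h1
  have key : ∀ k ≤ n, ∃ S : Finset (Fin n), S.card = k ∧ (∀ a ∈ S, ∀ b, ρ b < ρ a → b ∈ S) ∧
      ∃ φ : Fin n → V, Set.InjOn φ S ∧ (∀ a ∈ S, φ a ∈ Zone a) ∧
        ∀ a ∈ S, a ≠ c → φ a ∈ C a (φ (par a)) := by
    intro k
    induction k with
    | zero => intro _; exact ⟨∅, rfl, by simp, fun _ => w0, by simp, by simp, by simp⟩
    | succ k ih =>
      intro hk
      obtain ⟨S, hS, hdown, φ, hinj, hzone, hC'⟩ := ih (by omega)
      have hne : (Sᶜ).Nonempty := by
        rw [← Finset.card_pos, Finset.card_compl, Fintype.card_fin]; omega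
      obtain ⟨a, ha, hamin⟩ := Finset.exists_min_image Sᶜ ρ hne
      have haS : a ∉ S := Finset.mem_compl.1 ha
      have hle : ∀ b ∈ S, ρ b ≤ ρ a := by
        intro b hb
        by_contra hlt
        push Not at hlt
        exact haS (hdown b hb a hlt)
      have hdown' : ∀ x ∈ insert a S, ∀ b, ρ b < ρ x → b ∈ insert a S := by
        intro x hx b hb
        rw [Finset.mem_insert] at hx ⊢
        rcases hx with rfl | hx
        · right
          by_contra hbS
          have := hamin b (Finset.mem_compl.2 hbS)
          omega
        · exact Or.inr (hdown x hx b hb)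
      by_cases hac : a = c
      · have hSe : S = ∅ := by
          rw [Finset.eq_empty_iff_forall_notMem]
          intro b hb
          have h1 := hle b hb
          have h2 : b ≠ c := fun h => haS (by rw [hac, ← h]; exact hb)
          have h3 := hmin _ b rfl h2
          rw [hac] at h1; omega
        subst hSe
        refine ⟨insert a ∅, ?_, hdown', fun _ => w0, ?_, ?_, ?_⟩
        · rw [Finset.card_insert_of_notMem haS, hS]
        · intro x hx y hy _
          simp at hx hy
          rw [hx, hy]
        · intro x hx
          simp at hx
          rw [hx, hac]; exact hw0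
        · intro x hx hxc
          simp at hx
          exact absurd (hx.trans hac) hxc
      · have hpS : par a ∈ S := by
          by_contra hp
          have h1 := hamin (par a) (Finset.mem_compl.2 hp)
          have h2 := hρ a hac
          omega
        have hz : φ (par a) ∈ Zone (par a) := hzone _ hpS
        have hcard := h a hac (φ (par a)) hz
        have hUcard : ((S.filter (fun b => φ b ∈ Zone a)).image φ).card ≤
            (univ.filter (fun b => b ≠ a ∧ ρ b ≤ ρ a ∧ ¬ Disjoint (Zone b) (Zone a))).card := by
          refine le_trans Finset.card_image_le (Finset.card_le_card ?_)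
          intro b hb
          rw [Finset.mem_filter] at hb ⊢
          refine ⟨mem_univ _, fun h => haS (h ▸ hb.1), hle b hb.1, ?_⟩
          rw [Finset.not_disjoint_iff]
          exact ⟨φ b, hzone b hb.1, hb.2⟩
        obtain ⟨w, hw, hwU⟩ :=
          Finset.exists_mem_notMem_of_card_lt_card (lt_of_le_of_lt hUcard hcard)
        have hwne : ∀ b ∈ S, φ b ≠ w := by
          intro b hb hbw
          apply hwU
          rw [Finset.mem_image]
          exact ⟨b, Finset.mem_filter.2 ⟨hb, by rw [hbw]; exact hC _ _ hw⟩, hbw⟩
        have hupd : ∀ b ∈ S, Function.update φ a w b = φ b := by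
          intro b hb
          have hba : b ≠ a := fun h => haS (h ▸ hb)
          exact Function.update_of_ne hba _ _
        have hpar : ∀ b ∈ insert a S, b ≠ c → Function.update φ a w (par b) = φ (par b) := by
          intro b hb hbc
          rw [Finset.mem_insert] at hb
          rcases hb with rfl | hb
          · exact hupd _ hpS
          · exact hupd _ (hdown b hb _ (hρ b hbc))
        refine ⟨insert a S, by rw [Finset.card_insert_of_notMem haS, hS], hdown',
          Function.update φ a w, ?_, ?_, ?_⟩
        · intro x hx y hy hxy
          rw [Finset.mem_coe, Finset.mem_insert] at hx hy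
          rcases hx with rfl | hx <;> rcases hy with rfl | hy
          · rfl
          · rw [Function.update_self, hupd y hy] at hxy
            exact absurd hxy.symm (hwne y hy)
          · rw [Function.update_self, hupd x hx] at hxy
            exact absurd hxy (hwne x hx)
          · rw [hupd x hx, hupd y hy] at hxy
            exact hinj hx hy hxy
        · intro x hx
          rw [Finset.mem_insert] at hx
          rcases hx with rfl | hx
          · rw [Function.update_self]
            exact hC _ _ hw
          · rw [hupd x hx]
            exact hzone x hx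
        · intro x hx hxc
          rw [hpar x hx hxc]
          rw [Finset.mem_insert] at hx
          rcases hx with rfl | hx
          · rw [Function.update_self]
            exact hw
          · rw [hupd x hx]
            exact hC' x hx hxc
  obtain ⟨S, hS, -, φ, hinj, hzone, hC'⟩ := key n le_rfl
  have hSu : S = univ := by
    rw [← Finset.card_eq_iff_eq_univ, hS, Fintype.card_fin]
  subst hSu
  refine ⟨φ, ?_, fun a => hzone a (mem_univ _), fun a hac => hC' a (mem_univ _) hac⟩
  intro x y hxy
  exact hinj (by simp) (by simp) hxy

end Pool.Agent.MultiTree
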