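import Pool.Agent.Helper927.MTree.Defs
import Pool.Agent.Helper927.MTree.ASG
import Pool.Agent.Helper927.MTree.CEN
import Pool.Agent.Helper927.MTree.GL
set_option autoImplicit false
set_option maxHeartbeats 4000000

namespace Pool.Agent.MultiTree

open Finset

/-! ### TARGET: replace the `sorry`s below by proofs (auxiliary lemmas are fine, put them in this file) -/

theorem f3 {n : ℕ} {V : Type} [DecidableEq V] (T : SimpleGraph (Fin n)) (hT : T.IsTree)
    (B : SimpleGraph V) (p : ℕ) (D : Fin p → Finset V) (hdisj : ∀ i j, i ≠ j → Disjoint (D i) (D j))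
    (δ θ : ℝ) (hδ : 24 * δ ≤ 1) (hθ : 4 * δ ≤ θ) (hn : 1 ≤ δ * n)
    (hD : ∀ i, Clus B n δ (D i)) (v : V)
    (hv : (1 + θ) * n ≤ ∑ i, ((nb B v (D i)).card : ℝ)) : T.IsContained B := by
  classical
  obtain ⟨c, par, top, dep, hR, hTp, hcent⟩ := exists_centroid T hT
  have hn0 : (0:ℝ) ≤ n := Nat.cast_nonneg n
  have hδ0 : 0 < δ := by
    by_contra h
    have := mul_nonpos_of_nonpos_of_nonneg (not_lt.1 h) hn0
    linarith
  have hn24 : (24:ℝ) ≤ n := by nlinarith
  set J : Finset (Fin n) := univ.filter (fun r => r ≠ c ∧ par r = c) with hJ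
  set s : Fin n → ℕ := fun r => (univ.filter (fun a => a ≠ c ∧ top a = r)).card with hs
  set b : Fin p → ℕ := fun i => (nb B v (D i)).card with hb
  set S : ℕ := ⌊(1 - 3 * δ) * n⌋₊ with hS
  have hS0 : 0 ≤ (1 - 3 * δ) * n := mul_nonneg (by linarith) hn0
  have hS1 : (S:ℝ) ≤ (1 - 3 * δ) * n := Nat.floor_le hS0
  have hS2 : (1 - 3 * δ) * n < S + 1 := Nat.lt_floor_add_one _
  have memJ : ∀ r, r ∈ J ↔ r ≠ c ∧ par r = c := fun r => by
    rw [hJ, mem_filter]; exact and_iff_right (mem_univ _)
  have h1 : ∀ r ∈ J, 1 ≤ s r := by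
    intro r hr
    obtain ⟨hr1, hr2⟩ := (memJ r).1 hr
    apply Finset.card_pos.2
    exact ⟨r, mem_filter.2 ⟨mem_univ _, hr1, hTp.one r hr1 hr2⟩⟩
  have h2 : ∀ r ∈ J, 2 * s r ≤ n := fun r _ => hcent r
  have htopJ : ∀ a, a ≠ c → top a ∈ J := fun a ha =>
    (memJ _).2 ⟨(hR.top_spec hTp a ha).1, (hR.top_spec hTp a ha).2.1⟩
  have h3 : ∑ r ∈ J, s r < n := by
    have e1 : (univ.filter (fun a : Fin n => a ≠ c)).card = ∑ r ∈ J,
        ((univ.filter (fun a : Fin n => a ≠ c)).filter (fun a => top a = r)).card :=
      Finset.card_eq_sum_card_fiberwise (fun a ha => by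
        have ha' := (mem_filter.1 (Finset.mem_coe.1 ha)).2
        exact Finset.mem_coe.2 (htopJ a ha'))
    have e2 : ∑ r ∈ J, s r = (univ.filter (fun a : Fin n => a ≠ c)).card := by
      rw [e1]
      apply Finset.sum_congr rfl
      intro r _
      rw [Finset.filter_filter]
    rw [e2]
    have e3 : univ.filter (fun a : Fin n => a ≠ c) ⊂ univ := by
      rw [Finset.ssubset_univ_iff]
      intro h
      have := h ▸ mem_univ c
      exact (mem_filter.1 this).2 rfl
    have e4 := Finset.card_lt_card e3
    rwa [Finset.card_univ, Fintype.card_fin] at e4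
  have hbn : ∀ i, (b i : ℝ) ≤ n := fun i => by
    have h5 : b i ≤ (D i).card := card_le_card nb_subset
    have h6 := (hD i).up
    exact_mod_cast h5.trans h6
  have hbsum : (1 + θ) * n ≤ ∑ i, (b i : ℝ) := hv
  have hb1 : n ≤ ∑ i, b i := by
    have : (n:ℝ) ≤ ∑ i, (b i : ℝ) := by nlinarith
    exact_mod_cast this
  have hb2 : ∀ i, n ≤ S + ∑ j ∈ univ.erase i, b j := by
    intro i
    have e1 : ∑ j ∈ univ.erase i, (b j : ℝ) + b i = ∑ j, (b j : ℝ) :=
      Finset.sum_erase_add _ _ (mem_univ i)
    have e2 := hbn i
    have : (n:ℝ) ≤ S + ∑ j ∈ univ.erase i, (b j : ℝ) := by nlinarith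
    exact_mod_cast this
  have hS3 : 3 * n ≤ 4 * S := by
    have : (3:ℝ) * n ≤ 4 * S := by nlinarith
    exact_mod_cast this
  obtain ⟨g, hg⟩ := asg J s p b n S h1 h2 h3 hb1 hb2 hS3
  set Zone : Fin n → Finset V := fun a => if a = c then {v} else (D (g (top a))).erase v with hZone
  set C : Fin n → V → Finset V := fun a z =>
    if a = c then {v} else nb B z ((D (g (top a))).erase v) with hCdef
  have hZc : Zone c = {v} := by rw [hZone]; exact if_pos rfl
  have hZn : ∀ a, a ≠ c → Zone a = (D (g (top a))).erase v := fun a ha => by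
    rw [hZone]; exact if_neg ha
  have hCn : ∀ a z, a ≠ c → C a z = nb B z ((D (g (top a))).erase v) := fun a z ha => by
    rw [hCdef]; exact if_neg ha
  have hCc : ∀ z, C c z = {v} := fun z => by rw [hCdef]; exact if_pos rfl
  have hmeet : ∀ a b', a ≠ c → b' ≠ c → ¬ Disjoint (Zone b') (Zone a) →
      g (top b') = g (top a) := by
    intro a b' ha hb' hd
    by_contra hne
    apply hd
    rw [hZn a ha, hZn b' hb']
    exact (hdisj _ _ hne).mono (erase_subset _ _) (erase_subset _ _)
  have hmeetc : ∀ a, a ≠ c → Disjoint (Zone c) (Zone a) := by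
    intro a ha
    rw [hZn a ha, hZc, Finset.disjoint_singleton_left]
    exact Finset.notMem_erase v _
  obtain ⟨φ, hφi, hφZ, hφC⟩ := greedy c par dep
    (fun a ha => by have := hR.dep_par a ha; omega) Zone C
    (by
      intro a z
      by_cases ha : a = c
      · subst ha
        rw [hCc, hZc]
      · rw [hCn a z ha, hZn a ha]
        exact nb_subset)
    (by rw [hZc]; exact Finset.singleton_nonempty v)
    (by
      intro a ha z hz
      by_cases hp : par a = c
      · rw [hp, hZc, Finset.mem_singleton] at hz
        subst hz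
        have hta : top a = a := hTp.one a ha hp
        have haJ : a ∈ J := (memJ a).2 ⟨ha, hp⟩
        have hCa : C a z = nb B z (D (g a)) := by
          rw [hCn a z ha, hta]
          ext w
          rw [mem_nb, mem_nb, mem_erase]
          constructor
          · rintro ⟨⟨_, hw⟩, hadj⟩
            exact ⟨hw, hadj⟩
          · rintro ⟨hw, hadj⟩
            exact ⟨⟨hadj.ne', hw⟩, hadj⟩
        rw [hCa]
        have hmem : a ∈ J.filter (fun r => g r = g a) := mem_filter.2 ⟨haJ, rfl⟩
        have hsub : univ.filter (fun b' => b' ≠ a ∧ dep b' ≤ dep a ∧ ¬ Disjoint (Zone b') (Zone a))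
            ⊆ (J.filter (fun r => g r = g a)).erase a := by
          intro b' hb'
          obtain ⟨hb1, hb2, hb3⟩ := (mem_filter.1 hb').2
          have hbc : b' ≠ c := by
            rintro rfl
            exact hb3 (hmeetc a ha)
          have hda : dep a = 1 := by
            rw [hR.dep_par a ha, hp, hR.dep_c]
          have hpb : par b' = c := by
            apply hR.dep_eq_zero
            have := hR.dep_par b' hbc
            omega
          have htb : top b' = b' := hTp.one b' hbc hpb
          have hgg := hmeet a b' ha hbc hb3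
          rw [htb, hta] at hgg
          exact mem_erase.2 ⟨hb1, mem_filter.2 ⟨(memJ b').2 ⟨hbc, hpb⟩, hgg⟩⟩
        calc (univ.filter (fun b' => b' ≠ a ∧ dep b' ≤ dep a ∧
              ¬ Disjoint (Zone b') (Zone a))).card
            ≤ ((J.filter (fun r => g r = g a)).erase a).card := card_le_card hsub
          _ < (J.filter (fun r => g r = g a)).card := Finset.card_erase_lt_of_mem hmem
          _ ≤ b (g a) := (hg (g a)).1
      · have hta : top a = top (par a) := hTp.two a ha hp
        rw [hZn (par a) hp, ← hta] at hz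
        set i := g (top a) with hi
        have hzD : z ∈ D i := (mem_erase.1 hz).2
        rw [hCn a z ha]
        have hmem : a ∈ univ.filter (fun b' : Fin n => b' ≠ c ∧ g (top b') = i) :=
          mem_filter.2 ⟨mem_univ _, ha, rfl⟩
        have hsub : univ.filter (fun b' => b' ≠ a ∧ dep b' ≤ dep a ∧ ¬ Disjoint (Zone b') (Zone a))
            ⊆ (univ.filter (fun b' : Fin n => b' ≠ c ∧ g (top b') = i)).erase a := by
          intro b' hb'
          obtain ⟨hb1, hb2, hb3⟩ := (mem_filter.1 hb').2
          have hbc : b' ≠ c := by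
            rintro rfl
            exact hb3 (hmeetc a ha)
          exact mem_erase.2 ⟨hb1, mem_filter.2 ⟨mem_univ _, hbc, hmeet a b' ha hbc hb3⟩⟩
        have hcS : (univ.filter (fun b' : Fin n => b' ≠ c ∧ g (top b') = i)).card ≤ S := by
          have e1 : (univ.filter (fun b' : Fin n => b' ≠ c ∧ g (top b') = i)).card =
              ∑ r ∈ J.filter (fun r => g r = i),
              ((univ.filter (fun b' : Fin n => b' ≠ c ∧ g (top b') = i)).filter
                (fun a => top a = r)).card :=
            Finset.card_eq_sum_card_fiberwise (fun a ha => by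
              have ha' := (mem_filter.1 (Finset.mem_coe.1 ha)).2
              exact Finset.mem_coe.2 (mem_filter.2 ⟨htopJ a ha'.1, ha'.2⟩))
          rw [e1]
          refine le_trans (Finset.sum_le_sum (g := s) ?_) (hg i).2
          intro r _
          apply card_le_card
          intro x hx
          obtain ⟨hx1, hx2⟩ := mem_filter.1 hx
          obtain ⟨_, hx3, _⟩ := mem_filter.1 hx1
          exact mem_filter.2 ⟨mem_univ _, hx3, hx2⟩
        have hcard : S ≤ (nb B z ((D i).erase v)).card := by
          have e1 : (nb B z (D i)).card ≤ (nb B z ((D i).erase v)).card + 1 := by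
            have e2 : nb B z (D i) ⊆ insert v (nb B z ((D i).erase v)) := by
              intro w hw
              by_cases hwv : w = v
              · rw [hwv]; exact mem_insert_self _ _
              · exact mem_insert_of_mem (mem_nb.2 ⟨mem_erase.2 ⟨hwv, (mem_nb.1 hw).1⟩,
                  (mem_nb.1 hw).2⟩)
            exact (card_le_card e2).trans (card_insert_le _ _)
          have e3 := nb_add_nn B z (D i)
          have e4 := (hD i).deg z hzD
          have e5 := (hD i).low
          have e1' : ((nb B z (D i)).card : ℝ) ≤ ((nb B z ((D i).erase v)).card : ℝ) + 1 := by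
            exact_mod_cast e1
          have e3' : ((nb B z (D i)).card : ℝ) + ((nn B z (D i)).card : ℝ) = ((D i).card : ℝ) := by
            exact_mod_cast e3
          have : (S:ℝ) ≤ ((nb B z ((D i).erase v)).card : ℝ) := by linarith
          exact_mod_cast this
        calc (univ.filter (fun b' => b' ≠ a ∧ dep b' ≤ dep a ∧
              ¬ Disjoint (Zone b') (Zone a))).card
            ≤ ((univ.filter (fun b' : Fin n => b' ≠ c ∧ g (top b') = i)).erase a).card :=
              card_le_card hsub
          _ < (univ.filter (fun b' : Fin n => b' ≠ c ∧ g (top b') = i)).card :=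
              Finset.card_erase_lt_of_mem hmem
          _ ≤ S := hcS
          _ ≤ _ := hcard)
  refine hR.contained φ hφi ?_
  intro a ha
  have h := hφC a ha
  rw [hCn a _ ha] at h
  exact (mem_nb.1 h).2

end Pool.Agent.MultiTree
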