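import Pool.Agent.Helper927.MTree.Defs
set_option autoImplicit false
set_option maxHeartbeats 4000000

namespace Pool.Agent.MultiTree

open Finset

/-! ### AVAILABLE: statements you may use; leave these `sorry`s in place (they are proved in other jobs) -/



/-! ### TARGET: replace the `sorry`s below by proofs (auxiliary lemmas are fine, put them in this file) -/

theorem CC_spec (p m0 : ℕ) (η : ℝ) (hη : 0 < η) : 2 * (m0 : ℝ) ≤ (η / 2) ^ p * CC p m0 η := by
  have hpos : 0 < (η / 2) ^ p := by positivity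
  have h1 := Nat.le_ceil (2 * (m0 : ℝ) / (η / 2) ^ p)
  rw [div_le_iff₀ hpos] at h1
  unfold CC
  linarith

theorem cc_pos (p m0 : ℕ) (hp : 1 ≤ p) (η : ℝ) : 0 < cc p m0 η := by
  unfold cc
  have : (0 : ℝ) < p := by exact_mod_cast hp
  positivity

theorem cc_spec (p m0 : ℕ) (hp : 1 ≤ p) (η : ℝ) :
    4 * p * 2 ^ (CC p m0 η) * ((CC p m0 η : ℝ) + 1) * cc p m0 η ≤ 1 := by
  unfold cc
  have : (0 : ℝ) < p := by exact_mod_cast hp
  exact le_of_eq (mul_one_div_cancel (by positivity))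

theorem eta_pos (p m0 h : ℕ) (hp : 1 ≤ p) (hm0 : 1 ≤ m0) (hh : 1 ≤ h) (t : ℕ) :
    0 < eta p m0 h t := by
  induction t with
  | zero =>
    have : (0 : ℝ) < m0 := by exact_mod_cast hm0
    show 0 < 1 / (2 * (m0 : ℝ))
    positivity
  | succ t ih =>
    have h1 : (0 : ℝ) < h := by exact_mod_cast hh
    have h2 := cc_pos p m0 hp (eta p m0 h t)
    exact lt_min ih (by positivity)

theorem eta_anti (p m0 h t : ℕ) : eta p m0 h (t + 1) ≤ eta p m0 h t := by
  exact min_le_left _ _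

theorem eta_le_one (p m0 h : ℕ) (hm0 : 1 ≤ m0) (t : ℕ) : eta p m0 h t ≤ 1 := by
  induction t with
  | zero =>
    have h1 : (1 : ℝ) ≤ m0 := by exact_mod_cast hm0
    show 1 / (2 * (m0 : ℝ)) ≤ 1
    rw [div_le_one (by linarith)]
    linarith
  | succ t ih => exact (eta_anti p m0 h t).trans ih

theorem eta_succ_le (p m0 h t : ℕ) :
    eta p m0 h (t + 1) ≤ cc p m0 (eta p m0 h t) / (2 * h) := by
  exact min_le_right _ _

theorem finite_min (f : ℕ → ℝ) (hf : ∀ t, 0 < f t) (L : ℕ) :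
    ∃ κ : ℝ, 0 < κ ∧ ∀ t, t ≤ L → κ ≤ f t := by
  induction L with
  | zero =>
    refine ⟨f 0, hf 0, fun t ht => ?_⟩
    have : t = 0 := by omega
    rw [this]
  | succ L ih =>
    obtain ⟨κ, hκ, h⟩ := ih
    refine ⟨min κ (f (L + 1)), lt_min hκ (hf _), fun t ht => ?_⟩
    rcases Nat.lt_or_ge t (L + 1) with h' | h'
    · exact (min_le_left _ _).trans (h t (by omega))
    · have : t = L + 1 := by omega
      rw [this]
      exact min_le_right _ _

theorem YY_mono {V : Type} [Fintype V] (H : SimpleGraph V) {p : ℕ} (D : Fin p → Finset V)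
    (N : ℕ) {η η' : ℝ} (h : η' ≤ η) : YY H D N η ⊆ YY H D N η' := by
  intro v hv
  unfold YY at hv ⊢
  rw [mem_flt] at hv ⊢
  obtain ⟨h0, i, j, hij, h1, h2⟩ := hv
  exact ⟨h0, i, j, hij, h.trans h1, h.trans h2⟩

theorem bb_lt_of_notMem {V : Type} [Fintype V] (H : SimpleGraph V) {p : ℕ} (D : Fin p → Finset V)
    (N : ℕ) (η : ℝ) (ix : V → Fin p) (hix : ∀ v j, bb H D N j v ≤ bb H D N (ix v) v) (v : V)
    (hv : v ∉ YY H D N η) (j : Fin p) (hj : j ≠ ix v) : bb H D N j v < η := by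
  by_contra hcon
  push Not at hcon
  apply hv
  unfold YY
  rw [mem_flt]
  exact ⟨mem_univ _, ix v, j, hj.symm, hcon.trans (hix v j), hcon⟩

theorem mass_nonneg {V : Type} (H : SimpleGraph V) {p : ℕ} (D : Fin p → Finset V)
    (N : ℕ) (ix : V → Fin p) (v : V) : 0 ≤ mass H D N ix v := by
  unfold mass
  apply Finset.sum_nonneg
  intro j _
  unfold bb
  positivity

theorem pigeon_scale {V : Type} (f : V → ℝ) (Y : ℕ → Finset V) (hY : ∀ t, Y t ⊆ Y (t + 1))
    [DecidableEq V] (L : ℕ) (K a : ℝ) (hL : K < L * a)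
    (hK : ∑ v ∈ Y L \ Y 0, f v ≤ K) : ∃ t, t < L ∧ ∑ v ∈ Y (t + 1) \ Y t, f v ≤ a := by
  by_contra hcon
  push Not at hcon
  have hmono : Monotone Y := monotone_nat_of_le_succ hY
  have h1 : ∑ t ∈ range L, ∑ v ∈ Y (t + 1) \ Y t, f v = ∑ v ∈ Y L \ Y 0, f v := by
    have h2 : ∀ t, ∑ v ∈ Y (t + 1) \ Y t, f v = ∑ v ∈ Y (t + 1), f v - ∑ v ∈ Y t, f v :=
      fun t => Finset.sum_sdiff_eq_sub (hY t)
    have h3 : ∑ v ∈ Y L \ Y 0, f v = ∑ v ∈ Y L, f v - ∑ v ∈ Y 0, f v :=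
      Finset.sum_sdiff_eq_sub (hmono (Nat.zero_le L))
    rw [h3, Finset.sum_congr rfl fun t _ => h2 t]
    exact Finset.sum_range_sub (fun t => ∑ v ∈ Y t, f v) L
  have h4 : (L : ℝ) * a ≤ ∑ t ∈ range L, ∑ v ∈ Y (t + 1) \ Y t, f v := by
    have := Finset.card_nsmul_le_sum (range L) (fun t => ∑ v ∈ Y (t + 1) \ Y t, f v) a
      (fun t ht => (hcon t (Finset.mem_range.1 ht)).le)
    rwa [Finset.card_range, nsmul_eq_mul] at this
  linarith

end Pool.Agent.MultiTree
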