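import Pool.Agent.Helper927.MTree.Defs
set_option autoImplicit false
set_option maxHeartbeats 4000000

namespace Pool.Agent.MultiTree

open Finset

/-! ### AVAILABLE: statements you may use; leave these `sorry`s in place (they are proved in other jobs) -/



/-! ### TARGET: replace the `sorry`s below by proofs (auxiliary lemmas are fine, put them in this file) -/

theorem emb {V : Type} (H : SimpleGraph V) (p : ℕ) : ∀ (M E : ℕ) (X : Fin p → Finset V),
    (∀ i, M + p * (M * E) ≤ (X i).card) →
    (∀ i j, i < j → ∀ d ∈ X j, (nn H d (X i)).card ≤ E) →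
    ∃ A : Fin p → Finset V, (∀ i, A i ⊆ X i ∧ (A i).card = M) ∧
      ∀ i j, i ≠ j → ∀ x ∈ A i, ∀ y ∈ A j, H.Adj x y := by
  classical
  induction p with
  | zero =>
    intro M E X _ _
    exact ⟨fun i => i.elim0, fun i => i.elim0, fun i => i.elim0⟩
  | succ p ih =>
    intro M E X hX hE
    obtain ⟨AL, hAL, hALc⟩ := Finset.exists_subset_card_eq (s := X (Fin.last p)) (n := M)
      (le_trans (Nat.le_add_right _ _) (hX (Fin.last p)))
    let X' : Fin p → Finset V := fun i =>
      X i.castSucc \ AL.biUnion (fun d => nn H d (X i.castSucc))
    have hsub : ∀ i, X' i ⊆ X i.castSucc := fun i => Finset.sdiff_subset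
    have hb : ∀ i : Fin p, (AL.biUnion (fun d => nn H d (X i.castSucc))).card ≤ M * E := by
      intro i
      have := Finset.card_biUnion_le_card_mul AL (fun d => nn H d (X i.castSucc)) E
        (fun d hd => hE i.castSucc (Fin.last p) (Fin.castSucc_lt_last i) d (hAL hd))
      rwa [hALc] at this
    have hX' : ∀ i, M + p * (M * E) ≤ (X' i).card := by
      intro i
      have h1 := hX i.castSucc
      have h2 := hb i
      have h3 := Finset.le_card_sdiff (AL.biUnion (fun d => nn H d (X i.castSucc)))
        (X i.castSucc)
      have h4 : (p + 1) * (M * E) = p * (M * E) + M * E := by ring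
      rw [h4] at h1
      show M + p * (M * E) ≤ (X i.castSucc \ AL.biUnion (fun d => nn H d (X i.castSucc))).card
      omega
    obtain ⟨A', hA', hadj⟩ := ih M E X' hX' (by
      intro i j hij d hd
      refine (Finset.card_le_card (nn_mono (hsub i))).trans ?_
      exact hE i.castSucc j.castSucc (Fin.castSucc_lt_castSucc_iff.2 hij) d (hsub j hd))
    have hLA : ∀ i : Fin p, ∀ x ∈ AL, ∀ y ∈ A' i, H.Adj x y := by
      intro i x hx y hy
      have h1 := (hA' i).1 hy
      by_contra hc
      have h2 := (Finset.mem_sdiff.1 h1).2
      apply h2
      rw [Finset.mem_biUnion]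
      exact ⟨x, hx, mem_nn.2 ⟨hsub i h1, hc⟩⟩
    let A : Fin (p + 1) → Finset V := Fin.lastCases AL A'
    have eL : A (Fin.last p) = AL := Fin.lastCases_last
    have eC : ∀ i : Fin p, A i.castSucc = A' i := fun i => Fin.lastCases_castSucc _
    refine ⟨A, ?_, ?_⟩
    · intro i
      induction i using Fin.lastCases with
      | last => rw [eL]; exact ⟨hAL, hALc⟩
      | cast i => rw [eC]; exact ⟨(hA' i).1.trans (hsub i), (hA' i).2⟩
    · intro i j hij x hx y hy
      induction i using Fin.lastCases with
      | last =>
        induction j using Fin.lastCases with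
        | last => exact absurd rfl hij
        | cast j =>
          rw [eL] at hx
          rw [eC] at hy
          exact hLA j x hx y hy
      | cast i =>
        induction j using Fin.lastCases with
        | last =>
          rw [eC] at hx
          rw [eL] at hy
          exact (hLA i y hy x hx).symm
        | cast j =>
          rw [eC] at hx hy
          exact hadj i j (fun h => hij (by rw [h])) x hx y hy

end Pool.Agent.MultiTree
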