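import Pool.Agent.Helper927.MTree.Defs
import Pool.Agent.Helper927.MTree.EMB
set_option autoImplicit false
set_option maxHeartbeats 4000000

namespace Pool.Agent.MultiTree

open Finset

/-! ### TARGET: replace the `sorry`s below by proofs (auxiliary lemmas are fine, put them in this file) -/

theorem hasM_K2 {V : Type} (H : SimpleGraph V) (q M E : ℕ) (m : Fin (q + 2) → ℕ)
    (hm : ∀ i, m i ≤ M) (D : Fin (q + 1) → Finset V)
    (hcross : ∀ i j, i < j → ∀ d ∈ D j, (nn H d (D i)).card ≤ E) (i0 : Fin (q + 1))
    (A B : Finset V) (hA : A.card = m 0) (hB : B.card = m 1)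
    (hAB : ∀ x ∈ A, ∀ y ∈ B, H.Adj x y) (X : Fin (q + 1) → Finset V)
    (hXD : ∀ j, j ≠ i0 → X j ⊆ D j)
    (hX : ∀ j, j ≠ i0 → M + q * (M * E) ≤ (X j).card)
    (hAX : ∀ j, j ≠ i0 → ∀ z ∈ A, ∀ x ∈ X j, H.Adj z x)
    (hBX : ∀ j, j ≠ i0 → ∀ z ∈ B, ∀ x ∈ X j, H.Adj z x) :
    HasM H m := by
  classical
  obtain ⟨A', hA', hadj⟩ := emb H q M E (fun l => X (i0.succAbove l))
    (fun l => hX _ (Fin.succAbove_ne i0 l))
    (fun l l' hl d hd => by
      have h1 : i0.succAbove l < i0.succAbove l' := Fin.strictMono_succAbove i0 hl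
      have h2 := hcross _ _ h1 d (hXD _ (Fin.succAbove_ne i0 l') hd)
      exact (Finset.card_le_card (nn_mono (hXD _ (Fin.succAbove_ne i0 l)))).trans h2)
  have hC : ∀ l : Fin q, ∃ C ⊆ A' l, C.card = m l.succ.succ := fun l =>
    Finset.exists_subset_card_eq (by rw [(hA' l).2]; exact hm _)
  choose C hC1 hC2 using hC
  have hCX : ∀ l, C l ⊆ X (i0.succAbove l) := fun l => (hC1 l).trans (hA' l).1
  refine ⟨Fin.cons A (Fin.cons B C), ?_, ?_⟩
  · intro i
    refine Fin.cases ?_ (fun i => ?_) i
    · simpa using hA
    · refine Fin.cases ?_ (fun i => ?_) i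
      · simpa using hB
      · simpa using hC2 i
  · intro i j
    refine Fin.cases ?_ (fun i => ?_) i
    · refine Fin.cases ?_ (fun j => ?_) j
      · intro h; exact absurd rfl h
      · refine Fin.cases ?_ (fun j => ?_) j
        · intro _ x hx y hy
          simp only [Fin.cons_zero, Fin.cons_succ] at hx hy
          exact hAB x hx y hy
        · intro _ x hx y hy
          simp only [Fin.cons_zero, Fin.cons_succ] at hx hy
          exact hAX _ (Fin.succAbove_ne i0 j) x hx y (hCX j hy)
    · refine Fin.cases ?_ (fun i => ?_) i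
      · refine Fin.cases ?_ (fun j => ?_) j
        · intro _ x hx y hy
          simp only [Fin.cons_zero, Fin.cons_succ] at hx hy
          exact (hAB y hy x hx).symm
        · refine Fin.cases ?_ (fun j => ?_) j
          · intro h; exact absurd rfl h
          · intro _ x hx y hy
            simp only [Fin.cons_zero, Fin.cons_succ] at hx hy
            exact hBX _ (Fin.succAbove_ne i0 j) x hx y (hCX j hy)
      · refine Fin.cases ?_ (fun j => ?_) j
        · intro _ x hx y hy
          simp only [Fin.cons_zero, Fin.cons_succ] at hx hy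
          exact (hAX _ (Fin.succAbove_ne i0 i) y hy x (hCX i hx)).symm
        · refine Fin.cases ?_ (fun j => ?_) j
          · intro _ x hx y hy
            simp only [Fin.cons_zero, Fin.cons_succ] at hx hy
            exact (hBX _ (Fin.succAbove_ne i0 i) y hy x (hCX i hx)).symm
          · intro hij x hx y hy
            simp only [Fin.cons_succ] at hx hy
            have hne : i ≠ j := fun h => hij (by rw [h])
            exact hadj i j hne x (hC1 i hx) y (hC1 j hy)

end Pool.Agent.MultiTree
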