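import Pool.Agent.Helper927.MTree.Defs
import Pool.Agent.Helper927.MTree.K2
set_option autoImplicit false
set_option maxHeartbeats 4000000

namespace Pool.Agent.MultiTree

open Finset

/-! ### TARGET: replace the `sorry`s below by proofs (auxiliary lemmas are fine, put them in this file) -/

theorem fl_fixed {V : Type} [Fintype V] (H : SimpleGraph V) (q M E : ℕ) (m : Fin (q + 2) → ℕ)
    (hm : ∀ i, m i ≤ M) (D : Fin (q + 1) → Finset V)
    (hcross : ∀ i j, i < j → ∀ d ∈ D j, (nn H d (D i)).card ≤ E) (N : ℕ) (c : ℝ)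
    (hm0 : 1 ≤ m 0) (hc : 2 * ((M : ℝ) + q * (M * E)) ≤ c * N)
    (X S : Fin (q + 1) → Finset V) (hX : ∀ j, X j ⊆ D j ∧ c * N ≤ ((X j).card : ℝ))
    (hS : ∀ i, ∀ v ∈ S i, ∀ j, j ≠ i →
      2 * ((m 0 + m 1 : ℕ) : ℝ) * ((nn H v (X j)).card : ℝ) ≤ (X j).card)
    (hno : ¬ HasM H m) : ∀ i, ¬ HasK H (S i) (m 0) (m 1) := by
  classical
  rintro i ⟨A, B, hAS, hBS, hA, hB, hAB⟩
  apply hno
  have hh : 1 ≤ m 0 + m 1 := by omega
  have hh' : (0 : ℝ) < ((m 0 + m 1 : ℕ) : ℝ) := by exact_mod_cast hh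
  have hcardU : ((A ∪ B).card : ℝ) ≤ ((m 0 + m 1 : ℕ) : ℝ) := by
    have h1 := Finset.card_union_le A B
    rw [hA, hB] at h1
    exact_mod_cast h1
  refine hasM_K2 H q M E m hm D hcross i A B hA hB hAB
    (fun j => flt (X j) (fun x => (∀ z ∈ A, H.Adj z x) ∧ ∀ z ∈ B, H.Adj z x)) ?_ ?_ ?_ ?_
  · intro j _
    exact (flt_subset).trans (hX j).1
  · intro j hj
    have hsub : X j ⊆ flt (X j) (fun x => (∀ z ∈ A, H.Adj z x) ∧ ∀ z ∈ B, H.Adj z x) ∪
        (A ∪ B).biUnion (fun z => nn H z (X j)) := by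
      intro x hx
      by_cases h1 : (∀ z ∈ A, H.Adj z x) ∧ ∀ z ∈ B, H.Adj z x
      · exact Finset.mem_union_left _ (mem_flt.2 ⟨hx, h1⟩)
      · refine Finset.mem_union_right _ ?_
        rw [Finset.mem_biUnion]
        rw [not_and_or] at h1
        rcases h1 with h1 | h1
        · push Not at h1
          obtain ⟨z, hz, hzx⟩ := h1
          exact ⟨z, Finset.mem_union_left _ hz, mem_nn.2 ⟨hx, hzx⟩⟩
        · push Not at h1
          obtain ⟨z, hz, hzx⟩ := h1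
          exact ⟨z, Finset.mem_union_right _ hz, mem_nn.2 ⟨hx, hzx⟩⟩
    have h2 := (Finset.card_le_card hsub).trans (Finset.card_union_le _ _)
    have h3 : ((A ∪ B).biUnion (fun z => nn H z (X j))).card ≤
        ∑ z ∈ A ∪ B, (nn H z (X j)).card := Finset.card_biUnion_le
    have h4 : 2 * ((m 0 + m 1 : ℕ) : ℝ) * ((∑ z ∈ A ∪ B, (nn H z (X j)).card : ℕ) : ℝ) ≤
        ((m 0 + m 1 : ℕ) : ℝ) * ((X j).card : ℝ) := by
      rw [Nat.cast_sum, Finset.mul_sum]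
      have h5 : ∑ z ∈ A ∪ B, 2 * ((m 0 + m 1 : ℕ) : ℝ) * ((nn H z (X j)).card : ℝ) ≤
          ∑ z ∈ A ∪ B, ((X j).card : ℝ) := by
        refine Finset.sum_le_sum fun z hz => hS i z ?_ j hj
        rcases Finset.mem_union.1 hz with hz | hz
        · exact hAS hz
        · exact hBS hz
      rw [Finset.sum_const, nsmul_eq_mul] at h5
      exact h5.trans (mul_le_mul_of_nonneg_right hcardU (Nat.cast_nonneg _))
    have h6 : 2 * ((∑ z ∈ A ∪ B, (nn H z (X j)).card : ℕ) : ℝ) ≤ ((X j).card : ℝ) := by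
      have h7 : ((m 0 + m 1 : ℕ) : ℝ) * (2 * ((∑ z ∈ A ∪ B, (nn H z (X j)).card : ℕ) : ℝ)) ≤
          ((m 0 + m 1 : ℕ) : ℝ) * ((X j).card : ℝ) := by
        linarith
      exact le_of_mul_le_mul_left h7 hh'
    have h8 : ((X j).card : ℝ) ≤
        ((flt (X j) (fun x => (∀ z ∈ A, H.Adj z x) ∧ ∀ z ∈ B, H.Adj z x)).card : ℝ) +
          ((∑ z ∈ A ∪ B, (nn H z (X j)).card : ℕ) : ℝ) := by
      exact_mod_cast h2.trans (Nat.add_le_add_left h3 _)
    have h9 : ((M + q * (M * E) : ℕ) : ℝ) ≤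
        ((flt (X j) (fun x => (∀ z ∈ A, H.Adj z x) ∧ ∀ z ∈ B, H.Adj z x)).card : ℝ) := by
      have h10 := (hX j).2
      push_cast
      push_cast at hc h6 h8 h10
      linarith
    exact_mod_cast h9
  · intro j _ z hz x hx
    exact (mem_flt.1 hx).2.1 z hz
  · intro j _ z hz x hx
    exact (mem_flt.1 hx).2.2 z hz

end Pool.Agent.MultiTree
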