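import Pool.Agent.Helper927.MTree.Defs
import Pool.Agent.Helper927.MTree.EMB
set_option autoImplicit false
set_option maxHeartbeats 4000000

namespace Pool.Agent.MultiTree

open Finset

/-! ### TARGET: replace the `sorry`s below by proofs (auxiliary lemmas are fine, put them in this file) -/

theorem hasM_K1 {V : Type} (H : SimpleGraph V) (p M E : ℕ) (m : Fin (p + 1) → ℕ)
    (hm : ∀ i, m i ≤ M) (D : Fin p → Finset V)
    (hcross : ∀ i j, i < j → ∀ d ∈ D j, (nn H d (D i)).card ≤ E) (Z : Finset V)
    (hZ : Z.card = m 0) (X : Fin p → Finset V) (hXD : ∀ i, X i ⊆ D i)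
    (hX : ∀ i, M + p * (M * E) ≤ (X i).card) (hZX : ∀ i, ∀ z ∈ Z, ∀ x ∈ X i, H.Adj z x) :
    HasM H m := by
  classical
  obtain ⟨A, hA1, hA2⟩ := emb H p M E X hX (by
    intro i j hij d hd
    exact (Finset.card_le_card (nn_mono (hXD i))).trans (hcross i j hij d (hXD j hd)))
  have hB : ∀ i : Fin p, ∃ B ⊆ A i, B.card = m i.succ := fun i =>
    Finset.exists_subset_card_eq (by rw [(hA1 i).2]; exact hm _)
  choose B hBA hBc using hB
  refine ⟨Fin.cons Z B, ?_, ?_⟩
  · intro i
    refine Fin.cases ?_ ?_ i
    · simpa using hZ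
    · intro i
      simpa using hBc i
  · intro i j
    refine Fin.cases ?_ ?_ i
    · refine Fin.cases ?_ ?_ j
      · intro h
        exact absurd rfl h
      · intro j _ x hx y hy
        simp only [Fin.cons_zero, Fin.cons_succ] at hx hy
        exact hZX j x hx y ((hA1 j).1 (hBA j hy))
    · intro i
      refine Fin.cases ?_ ?_ j
      · intro _ x hx y hy
        simp only [Fin.cons_zero, Fin.cons_succ] at hx hy
        exact (hZX i y hy x ((hA1 i).1 (hBA i hx))).symm
      · intro j hij x hx y hy
        simp only [Fin.cons_succ] at hx hy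
        have hij' : i ≠ j := fun h => hij (by rw [h])
        exact hA2 i j hij' x (hBA i hx) y (hBA j hy)

end Pool.Agent.MultiTree
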