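import Pool.Agent.Helper927.MTree.Defs
set_option autoImplicit false
set_option maxHeartbeats 4000000

namespace Pool.Agent.MultiTree

open Finset

/-! ### AVAILABLE: statements you may use; leave these `sorry`s in place (they are proved in other jobs) -/



/-! ### TARGET: replace the `sorry`s below by proofs (auxiliary lemmas are fine, put them in this file) -/

open Classical in
private theorem pat_iff {V : Type} (H : SimpleGraph V) (Y : Finset V) (z z' : V) :
    (Y.filter (fun y => H.Adj y z') = Y.filter (fun y => H.Adj y z)) ↔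
      ∀ y ∈ Y, (H.Adj y z' ↔ H.Adj y z) := by
  rw [Finset.filter_inj']

open Classical in
private theorem fib {V : Type} (H : SimpleGraph V) (Y S : Finset V) :
    S.card = ∑ P ∈ Y.powerset, (S.filter (fun z => Y.filter (fun y => H.Adj y z) = P)).card :=
  Finset.card_eq_sum_card_fiberwise (fun x _ => by
    simp only [Finset.coe_powerset, Set.mem_preimage, Set.mem_powerset_iff]
    exact_mod_cast Finset.filter_subset _ _)

theorem cl_small {V : Type} (H : SimpleGraph V) (Dj Y : Finset V) (t : ℝ) (ht : 0 ≤ t) :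
    ((flt Dj (fun z => ((cl H Dj Y z).card : ℝ) < t)).card : ℝ) ≤ 2 ^ Y.card * t := by
  classical
  rw [fib H Y (flt Dj (fun z => ((cl H Dj Y z).card : ℝ) < t))]
  push_cast
  have h1 : ∀ P ∈ Y.powerset, ((((flt Dj (fun z => ((cl H Dj Y z).card : ℝ) < t)).filter
      (fun z => Y.filter (fun y => H.Adj y z) = P)).card : ℕ) : ℝ) ≤ t := by
    intro P _
    rcases Finset.eq_empty_or_nonempty ((flt Dj (fun z => ((cl H Dj Y z).card : ℝ) < t)).filter
      (fun z => Y.filter (fun y => H.Adj y z) = P)) with h | ⟨z, hz⟩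
    · rw [h]; simpa using ht
    · rw [Finset.mem_filter, mem_flt] at hz
      obtain ⟨⟨hzD, hzt⟩, hzP⟩ := hz
      refine le_trans ?_ hzt.le
      have hsub : ((flt Dj (fun z => ((cl H Dj Y z).card : ℝ) < t)).filter
          (fun z => Y.filter (fun y => H.Adj y z) = P)) ⊆ cl H Dj Y z := by
        intro w hw
        rw [Finset.mem_filter, mem_flt] at hw
        unfold cl
        rw [mem_flt]
        refine ⟨hw.1.1, ?_⟩
        exact (pat_iff H Y z w).1 (by rw [hw.2, hzP])
      exact_mod_cast Finset.card_le_card hsub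
  calc _ ≤ ∑ _P ∈ Y.powerset, t := Finset.sum_le_sum h1
    _ = 2 ^ Y.card * t := by
        rw [Finset.sum_const, Finset.card_powerset, nsmul_eq_mul]
        push_cast
        ring

theorem cl_fail {V : Type} (H : SimpleGraph V) (Dj Y : Finset V) (v : V) (K : ℝ) (hK : 0 ≤ K) :
    ((flt Dj (fun z => ((cl H Dj Y z).card : ℝ) < K * ((nn H v (cl H Dj Y z)).card : ℝ))).card : ℝ)
      ≤ K * ((nn H v Dj).card : ℝ) := by
  classical
  rw [fib H Y (flt Dj (fun z => ((cl H Dj Y z).card : ℝ) < K * ((nn H v (cl H Dj Y z)).card : ℝ))),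
    fib H Y (nn H v Dj)]
  push_cast
  rw [Finset.mul_sum]
  apply Finset.sum_le_sum
  intro P _
  rcases Finset.eq_empty_or_nonempty ((flt Dj (fun z => ((cl H Dj Y z).card : ℝ)
      < K * ((nn H v (cl H Dj Y z)).card : ℝ))).filter
      (fun z => Y.filter (fun y => H.Adj y z) = P)) with h | ⟨z, hz⟩
  · rw [h]
    simp only [Finset.card_empty, Nat.cast_zero]
    positivity
  · rw [Finset.mem_filter, mem_flt] at hz
    obtain ⟨⟨hzD, hzt⟩, hzP⟩ := hz
    have hsub : ((flt Dj (fun z => ((cl H Dj Y z).card : ℝ)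
        < K * ((nn H v (cl H Dj Y z)).card : ℝ))).filter
        (fun z => Y.filter (fun y => H.Adj y z) = P)) ⊆ cl H Dj Y z := by
      intro w hw
      rw [Finset.mem_filter, mem_flt] at hw
      unfold cl
      rw [mem_flt]
      refine ⟨hw.1.1, ?_⟩
      exact (pat_iff H Y z w).1 (by rw [hw.2, hzP])
    have hsub2 : nn H v (cl H Dj Y z) ⊆ (nn H v Dj).filter
        (fun z => Y.filter (fun y => H.Adj y z) = P) := by
      intro w hw
      rw [mem_nn] at hw
      obtain ⟨hw1, hw2⟩ := hw
      unfold cl at hw1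
      rw [mem_flt] at hw1
      rw [Finset.mem_filter, mem_nn]
      refine ⟨⟨hw1.1, hw2⟩, ?_⟩
      rw [← hzP]
      exact (pat_iff H Y z w).2 hw1.2
    have h1 : (((flt Dj (fun z => ((cl H Dj Y z).card : ℝ)
        < K * ((nn H v (cl H Dj Y z)).card : ℝ))).filter
        (fun z => Y.filter (fun y => H.Adj y z) = P)).card : ℝ) ≤ (cl H Dj Y z).card := by
      exact_mod_cast Finset.card_le_card hsub
    have h2 : ((nn H v (cl H Dj Y z)).card : ℝ) ≤ ((nn H v Dj).filter
        (fun z => Y.filter (fun y => H.Adj y z) = P)).card := by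
      exact_mod_cast Finset.card_le_card hsub2
    exact (h1.trans hzt.le).trans (mul_le_mul_of_nonneg_left h2 hK)

end Pool.Agent.MultiTree
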