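import Pool.Agent.Helper927.MTree.Defs
set_option autoImplicit false
set_option maxHeartbeats 4000000

namespace Pool.Agent.MultiTree

open Finset

/-! ### AVAILABLE: statements you may use; leave these `sorry`s in place (they are proved in other jobs) -/



/-! ### TARGET: replace the `sorry`s below by proofs (auxiliary lemmas are fine, put them in this file) -/

theorem proj_sum {V : Type} (p : ℕ) (D : Fin p → Finset V) (N : ℕ) (hD : ∀ i, (D i).card = N)
    (i : Fin p) (f : V → ℝ) :
    (∑ x ∈ Fintype.piFinset D, f (x i)) * N = (N : ℝ) ^ p * ∑ z ∈ D i, f z := by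
  classical
  have hmaps : ∀ x ∈ Fintype.piFinset D, x i ∈ D i := fun x hx => Fintype.mem_piFinset.1 hx i
  have h1 : ∑ x ∈ Fintype.piFinset D, f (x i) =
      ∑ z ∈ D i, ∑ x ∈ (Fintype.piFinset D).filter (fun x => x i = z), f (x i) :=
    (Finset.sum_fiberwise_of_maps_to hmaps _).symm
  have h2 : ∀ z ∈ D i, (∑ x ∈ (Fintype.piFinset D).filter (fun x => x i = z), f (x i)) * N =
      (N : ℝ) ^ p * f z := by
    intro z hz
    have h3 : ∑ x ∈ (Fintype.piFinset D).filter (fun x => x i = z), f (x i) =
        ∑ x ∈ (Fintype.piFinset D).filter (fun x => x i = z), f z := by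
      refine Finset.sum_congr rfl ?_
      intro x hx
      rw [(Finset.mem_filter.1 hx).2]
    rw [h3, Finset.sum_const, nsmul_eq_mul]
    have h4 : ((Fintype.piFinset D).filter (fun x => x i = z)).card * N = N ^ p := by
      rw [Fintype.card_filter_piFinset_eq_of_mem D i hz]
      have h5 : (∏ j ∈ univ.erase i, (D j).card) * (D i).card = ∏ j, (D j).card :=
        Finset.prod_erase_mul univ (fun j => (D j).card) (Finset.mem_univ i)
      rw [hD i] at h5
      rw [h5, Finset.prod_congr rfl (fun j _ => hD j), Finset.prod_const, Finset.card_univ,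
        Fintype.card_fin]
    have h4' : (((Fintype.piFinset D).filter (fun x => x i = z)).card : ℝ) * N = (N : ℝ) ^ p := by
      exact_mod_cast h4
    calc (((Fintype.piFinset D).filter (fun x => x i = z)).card : ℝ) * f z * N
        = ((((Fintype.piFinset D).filter (fun x => x i = z)).card : ℝ) * N) * f z := by ring
      _ = _ := by rw [h4']
  rw [h1, Finset.sum_mul, Finset.mul_sum]
  exact Finset.sum_congr rfl h2

end Pool.Agent.MultiTree
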