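import Pool.Agent.Helper927.MTree.Defs
import Pool.Agent.Helper927.MTree.CLAB
import Pool.Agent.Helper927.MTree.PROJ
set_option autoImplicit false
set_option maxHeartbeats 4000000

namespace Pool.Agent.MultiTree

open Finset

/-! ### TARGET: replace the `sorry`s below by proofs (auxiliary lemmas are fine, put them in this file) -/

open Classical in
/-- indicator of a proposition -/
noncomputable def pickInd (P : Prop) : ℝ := if P then 1 else 0

theorem pickInd_nonneg (P : Prop) : 0 ≤ pickInd P := by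
  unfold pickInd
  split_ifs <;> norm_num

theorem pick_card {α : Type} (s : Finset α) (P : α → Prop) :
    ((flt s P).card : ℝ) = ∑ a ∈ s, pickInd (P a) := by
  classical
  unfold pickInd
  rw [Finset.sum_boole, flt_eq]

theorem pick_proj {V : Type} (p : ℕ) (D : Fin p → Finset V) (N : ℕ) (hN : 0 < N)
    (hD : ∀ i, (D i).card = N) (i : Fin p) (P : V → Prop) :
    ∑ x ∈ Fintype.piFinset D, pickInd (P (x i)) =
      (N : ℝ) ^ p * (((flt (D i) P).card : ℝ) / N) := by
  have hN' : (N : ℝ) ≠ 0 := by exact_mod_cast hN.ne'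
  have h1 := proj_sum p D N hD i (fun z => pickInd (P z))
  rw [← pick_card (D i) P] at h1
  rw [← mul_div_assoc, ← h1, mul_div_assoc, div_self hN', mul_one]

theorem pick {V : Type} (H : SimpleGraph V) (p : ℕ) (D : Fin p → Finset V) (N : ℕ)
    (hN : 0 < N) (hD : ∀ i, (D i).card = N) (θ c : ℝ) (C h : ℕ) (hh : 1 ≤ h) (hc0 : 0 < c)
    (hc : 4 * p * 2 ^ C * ((C : ℝ) + 1) * c ≤ 1) (hθ0 : 0 ≤ θ) (hθ : θ * C ≤ 1 / 4)
    (hu : ∀ v, ∑ i, bb H D N i v ≤ 1 + θ) (ix : V → Fin p) (Y W : Finset V) (hY : Y.card ≤ C)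
    (hmass : ∑ v ∈ W, mass H D N ix v ≤ 1 / (8 * h)) :
    ∃ x : Fin p → V, (∀ i, x i ∈ D i) ∧ (∀ j, c * N ≤ ((cl H (D j) Y (x j)).card : ℝ)) ∧
      (flt W (fun v => ∃ j, j ≠ ix v ∧ ((cl H (D j) Y (x j)).card : ℝ) <
        2 * h * ((nn H v (cl H (D j) Y (x j))).card : ℝ))).card +
      ∑ y ∈ Y, (flt univ (fun i => ¬ H.Adj y (x i))).card ≤ Y.card := by
  classical
  have hNr : (0 : ℝ) < N := by exact_mod_cast hN
  have hNp : (0 : ℝ) < (N : ℝ) ^ p := by positivity
  have hhr : (1 : ℝ) ≤ h := by exact_mod_cast hh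
  have hYr : (Y.card : ℝ) ≤ C := by exact_mod_cast hY
  have hY0 : (0 : ℝ) ≤ Y.card := Nat.cast_nonneg _
  set F : (Fin p → V) → ℝ := fun x => ((flt W (fun v => ∃ j, j ≠ ix v ∧
    ((cl H (D j) Y (x j)).card : ℝ) <
        2 * h * ((nn H v (cl H (D j) Y (x j))).card : ℝ))).card : ℝ) with hF
  set Dd : (Fin p → V) → ℝ := fun x =>
    ∑ y ∈ Y, ((flt univ (fun i => ¬ H.Adj y (x i))).card : ℝ) with hDd
  set Sm : (Fin p → V) → ℝ := fun x =>
    ((flt univ (fun j => ((cl H (D j) Y (x j)).card : ℝ) < c * N)).card : ℝ) with hSm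
  -- (1)
  have s1 : ∑ x ∈ Fintype.piFinset D, Dd x ≤ (N : ℝ) ^ p * (Y.card * (1 + θ)) := by
    have e1 : ∑ x ∈ Fintype.piFinset D, Dd x =
        ∑ y ∈ Y, (N : ℝ) ^ p * ∑ i, bb H D N i y := by
      simp only [hDd]
      rw [Finset.sum_comm]
      refine Finset.sum_congr rfl fun y _ => ?_
      simp only [pick_card]
      rw [Finset.sum_comm, Finset.mul_sum]
      refine Finset.sum_congr rfl fun i _ => ?_
      rw [pick_proj p D N hN hD i (fun z => ¬ H.Adj y z)]
      have e2 : flt (D i) (fun z => ¬ H.Adj y z) = nn H y (D i) := by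
        ext z
        rw [mem_flt, mem_nn]
      rw [e2]
      rfl
    rw [e1, ← Finset.mul_sum]
    refine mul_le_mul_of_nonneg_left ?_ hNp.le
    calc ∑ y ∈ Y, ∑ i, bb H D N i y ≤ ∑ y ∈ Y, (1 + θ) := Finset.sum_le_sum fun y _ => hu y
      _ = Y.card * (1 + θ) := by rw [Finset.sum_const, nsmul_eq_mul]
  -- (2)
  have s2 : ∑ x ∈ Fintype.piFinset D, F x ≤ (N : ℝ) ^ p * (1 / 4) := by
    have e1 : ∀ x, F x ≤ ∑ v ∈ W, ∑ j ∈ univ.erase (ix v), pickInd
        (((cl H (D j) Y (x j)).card : ℝ) < 2 * h * ((nn H v (cl H (D j) Y (x j))).card : ℝ)) := by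
      intro x
      simp only [hF]
      rw [pick_card]
      refine Finset.sum_le_sum fun v _ => ?_
      by_cases hv : ∃ j, j ≠ ix v ∧ ((cl H (D j) Y (x j)).card : ℝ) <
        2 * h * ((nn H v (cl H (D j) Y (x j))).card : ℝ)
      · obtain ⟨j, hj, hj2⟩ := hv
        have e2 : pickInd (∃ j, j ≠ ix v ∧ ((cl H (D j) Y (x j)).card : ℝ) <
          2 * h * ((nn H v (cl H (D j) Y (x j))).card : ℝ)) = pickInd
          (((cl H (D j) Y (x j)).card : ℝ) < 2 * h * ((nn H v (cl H (D j) Y (x j))).card : ℝ)) := by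
          unfold pickInd
          rw [if_pos ⟨j, hj, hj2⟩, if_pos hj2]
        rw [e2]
        exact Finset.single_le_sum (f := fun j => pickInd
          (((cl H (D j) Y (x j)).card : ℝ) < 2 * h * ((nn H v (cl H (D j) Y (x j))).card : ℝ)))
          (fun j _ => pickInd_nonneg _) (Finset.mem_erase.2 ⟨hj, Finset.mem_univ _⟩)
      · have e2 : pickInd (∃ j, j ≠ ix v ∧ ((cl H (D j) Y (x j)).card : ℝ) <
          2 * h * ((nn H v (cl H (D j) Y (x j))).card : ℝ)) = 0 := by
          unfold pickInd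
          rw [if_neg hv]
        rw [e2]
        exact Finset.sum_nonneg fun j _ => pickInd_nonneg _
    refine (Finset.sum_le_sum fun x _ => e1 x).trans ?_
    rw [Finset.sum_comm]
    have e3 : ∀ v ∈ W, ∑ x ∈ Fintype.piFinset D, ∑ j ∈ univ.erase (ix v), pickInd
        (((cl H (D j) Y (x j)).card : ℝ) < 2 * h * ((nn H v (cl H (D j) Y (x j))).card : ℝ)) ≤
        (N : ℝ) ^ p * (2 * h * mass H D N ix v) := by
      intro v _
      rw [Finset.sum_comm]
      unfold mass
      rw [Finset.mul_sum, Finset.mul_sum]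
      refine Finset.sum_le_sum fun j _ => ?_
      rw [pick_proj p D N hN hD j (fun z => ((cl H (D j) Y z).card : ℝ) <
        2 * h * ((nn H v (cl H (D j) Y z)).card : ℝ))]
      refine mul_le_mul_of_nonneg_left ?_ hNp.le
      unfold bb
      rw [← mul_div_assoc]
      refine div_le_div_of_nonneg_right ?_ hNr.le
      exact cl_fail H (D j) Y v (2 * h) (by positivity)
    refine (Finset.sum_le_sum e3).trans ?_
    rw [← Finset.mul_sum, ← Finset.mul_sum]
    refine mul_le_mul_of_nonneg_left ?_ hNp.le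
    calc 2 * (h : ℝ) * ∑ v ∈ W, mass H D N ix v ≤ 2 * h * (1 / (8 * h)) :=
          mul_le_mul_of_nonneg_left hmass (by positivity)
      _ = 1 / 4 := by
          have : (h : ℝ) ≠ 0 := by linarith
          field_simp
          norm_num
  -- (3)
  have s3 : ((Y.card : ℝ) + 1) * ∑ x ∈ Fintype.piFinset D, Sm x ≤ (N : ℝ) ^ p * (1 / 4) := by
    have e1 : ∑ x ∈ Fintype.piFinset D, Sm x ≤ (N : ℝ) ^ p * (p * (2 ^ Y.card * c)) := by
      simp only [hSm, pick_card]
      rw [Finset.sum_comm]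
      have e2 : ∀ j ∈ (univ : Finset (Fin p)), ∑ x ∈ Fintype.piFinset D,
          pickInd (((cl H (D j) Y (x j)).card : ℝ) < c * N) ≤ (N : ℝ) ^ p * (2 ^ Y.card * c) := by
        intro j _
        rw [pick_proj p D N hN hD j (fun z => ((cl H (D j) Y z).card : ℝ) < c * N)]
        refine mul_le_mul_of_nonneg_left ?_ hNp.le
        rw [div_le_iff₀ hNr]
        have := cl_small H (D j) Y (c * N) (by positivity)
        calc _ ≤ _ := this
          _ = _ := by ring
      refine (Finset.sum_le_sum e2).trans ?_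
      rw [Finset.sum_const, Finset.card_univ, Fintype.card_fin, nsmul_eq_mul]
      exact le_of_eq (by ring)
    have e3 : ((Y.card : ℝ) + 1) * (p * (2 ^ Y.card * c)) ≤ 1 / 4 := by
      have e4 : (2 : ℝ) ^ Y.card ≤ 2 ^ C := pow_le_pow_right₀ (by norm_num) hY
      have e5 : ((Y.card : ℝ) + 1) * (p * (2 ^ Y.card * c)) ≤ ((C : ℝ) + 1) * (p * (2 ^ C * c)) := by
        gcongr
      linarith
    calc ((Y.card : ℝ) + 1) * ∑ x ∈ Fintype.piFinset D, Sm x
        ≤ ((Y.card : ℝ) + 1) * ((N : ℝ) ^ p * (p * (2 ^ Y.card * c))) :=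
          mul_le_mul_of_nonneg_left e1 (by positivity)
      _ = (N : ℝ) ^ p * (((Y.card : ℝ) + 1) * (p * (2 ^ Y.card * c))) := by ring
      _ ≤ _ := mul_le_mul_of_nonneg_left e3 hNp.le
  -- choice
  have hcard : (Fintype.piFinset D).card = N ^ p := by
    rw [Fintype.card_piFinset]
    simp [hD]
  have hne : (Fintype.piFinset D).Nonempty := by
    rw [← Finset.card_pos, hcard]
    positivity
  obtain ⟨x, hx, hGx⟩ := Finset.exists_le_of_sum_le hne
    (f := fun x => F x + Dd x + ((Y.card : ℝ) + 1) * Sm x)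
    (g := fun _ => (Y.card : ℝ) + 3 / 4) (by
      rw [Finset.sum_add_distrib, Finset.sum_add_distrib, ← Finset.mul_sum, Finset.sum_const,
        hcard, nsmul_eq_mul]
      push_cast
      have : (Y.card : ℝ) * θ ≤ 1 / 4 := by
        calc (Y.card : ℝ) * θ ≤ C * θ := mul_le_mul_of_nonneg_right hYr hθ0
          _ = θ * C := mul_comm _ _
          _ ≤ 1 / 4 := hθ
      have h2 : (N : ℝ) ^ p * (Y.card * (1 + θ)) ≤ (N : ℝ) ^ p * (Y.card + 1 / 4) :=
        mul_le_mul_of_nonneg_left (by linarith) hNp.le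
      calc _ ≤ (N : ℝ) ^ p * (1 / 4) + (N : ℝ) ^ p * (Y.card + 1 / 4) + (N : ℝ) ^ p * (1 / 4) := by
            linarith
        _ = _ := by ring)
  have hF0 : 0 ≤ F x := Nat.cast_nonneg _
  have hD0 : 0 ≤ Dd x := Finset.sum_nonneg fun _ _ => Nat.cast_nonneg _
  have hSm0 : (flt univ (fun j => ((cl H (D j) Y (x j)).card : ℝ) < c * N)).card = 0 := by
    by_contra hne0
    have h1 : (1 : ℝ) ≤ Sm x := by
      simp only [hSm]
      exact_mod_cast Nat.one_le_iff_ne_zero.2 hne0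
    have h2 : ((Y.card : ℝ) + 1) * 1 ≤ ((Y.card : ℝ) + 1) * Sm x :=
      mul_le_mul_of_nonneg_left h1 (by linarith)
    linarith
  refine ⟨x, fun i => Fintype.mem_piFinset.1 hx i, fun j => ?_, ?_⟩
  · by_contra hj
    rw [Finset.card_eq_zero] at hSm0
    have h1 : j ∈ flt univ (fun j => ((cl H (D j) Y (x j)).card : ℝ) < c * N) :=
      mem_flt.2 ⟨Finset.mem_univ _, not_le.1 hj⟩
    rw [hSm0] at h1
    exact absurd h1 (Finset.notMem_empty _)
  · have h1 : Sm x = 0 := by
      simp only [hSm, hSm0, Nat.cast_zero]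
    rw [h1, mul_zero, add_zero] at hGx
    have h2 : (((flt W (fun v => ∃ j, j ≠ ix v ∧ ((cl H (D j) Y (x j)).card : ℝ) <
        2 * h * ((nn H v (cl H (D j) Y (x j))).card : ℝ))).card +
      ∑ y ∈ Y, (flt univ (fun i => ¬ H.Adj y (x i))).card : ℕ) : ℝ) < ((Y.card + 1 : ℕ) : ℝ) := by
      push_cast
      have h3 : F x + Dd x < Y.card + 1 := by linarith
      exact h3
    have h4 := Nat.cast_lt.1 h2
    omega

end Pool.Agent.MultiTree
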