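import Pool.Agent.Helper927.MTree.Defs
import Pool.Agent.Helper927.MTree.PICK
set_option autoImplicit false
set_option maxHeartbeats 4000000

namespace Pool.Agent.MultiTree

open Finset

/-! ### TARGET: replace the `sorry`s below by proofs (auxiliary lemmas are fine, put them in this file) -/

open Classical in
theorem key_card_flt {α : Type} (s : Finset α) (P : α → Prop) :
    (flt s P).card = ∑ v ∈ s, if P v then 1 else 0 := by
  rw [flt_eq, Finset.card_filter]

open Classical in
theorem key_two {p : ℕ} (hp : 2 ≤ p) (P : Fin p → Prop) :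
    2 ≤ (univ.filter (fun i : Fin p => ∀ j, j ≠ i → P j)).card +
      (univ.filter (fun i : Fin p => ¬ P i)).card := by
  rcases Nat.lt_or_ge (univ.filter (fun i : Fin p => ¬ P i)).card 2 with h | h
  · rcases Nat.lt_or_ge (univ.filter (fun i : Fin p => ¬ P i)).card 1 with h1 | h1
    · have h2 : (univ.filter (fun i : Fin p => ¬ P i)) = ∅ := by
        rw [← Finset.card_eq_zero]
        omega
      have h3 : ∀ i, P i := by
        intro i
        by_contra hn
        have : i ∈ (univ.filter (fun i : Fin p => ¬ P i)) :=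
          Finset.mem_filter.2 ⟨Finset.mem_univ _, hn⟩
        rw [h2] at this
        exact absurd this (Finset.notMem_empty _)
      have h4 : (univ.filter (fun i : Fin p => ∀ j, j ≠ i → P j)) = univ :=
        Finset.filter_true_of_mem (fun i _ j _ => h3 j)
      rw [h4, Finset.card_univ, Fintype.card_fin]
      omega
    · have h2 : (univ.filter (fun i : Fin p => ¬ P i)).card = 1 := by omega
      obtain ⟨a, ha⟩ := Finset.card_eq_one.1 h2
      have h3 : a ∈ (univ.filter (fun i : Fin p => ∀ j, j ≠ i → P j)) := by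
        refine Finset.mem_filter.2 ⟨Finset.mem_univ _, fun j hj => ?_⟩
        by_contra hn
        have : j ∈ (univ.filter (fun i : Fin p => ¬ P i)) :=
          Finset.mem_filter.2 ⟨Finset.mem_univ _, hn⟩
        rw [ha, Finset.mem_singleton] at this
        exact hj this
      have h4 := Finset.card_pos.2 ⟨a, h3⟩
      omega
  · omega

theorem key {V : Type} [Fintype V] (H : SimpleGraph V) (p : ℕ) (hp : 2 ≤ p)
    (D : Fin p → Finset V) (N : ℕ)
    (hN : 0 < N) (hD : ∀ i, (D i).card = N) (θ c : ℝ) (C h : ℕ) (hh : 1 ≤ h) (hc0 : 0 < c)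
    (hc : 4 * p * 2 ^ C * ((C : ℝ) + 1) * c ≤ 1) (hθ0 : 0 ≤ θ) (hθ : θ * C ≤ 1 / 4)
    (hu : ∀ v, ∑ i, bb H D N i v ≤ 1 + θ) (ix : V → Fin p) (Y W : Finset V) (hY : Y.card ≤ C)
    (hmass : ∑ v ∈ W, mass H D N ix v ≤ 1 / (8 * h))
    (hout : ∀ v, v ∉ Y → v ∉ W → ∀ j, j ≠ ix v → bb H D N j v ≤ c / (2 * h)) :
    ∃ X S : Fin p → Finset V, (∀ j, X j ⊆ D j ∧ c * N ≤ ((X j).card : ℝ)) ∧
      Fintype.card V ≤ ∑ i, (S i).card ∧
      ∀ i, ∀ v ∈ S i, ∀ j, j ≠ i → 2 * h * ((nn H v (X j)).card : ℝ) ≤ (X j).card := by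
  classical
  obtain ⟨x, hxD, hxc, hxF⟩ := pick H p D N hN hD θ c C h hh hc0 hc hθ0 hθ hu ix Y W hY hmass
  let X : Fin p → Finset V := fun j => cl H (D j) Y (x j)
  let fail : V → Prop := fun v => ∃ j, j ≠ ix v ∧
    ((X j).card : ℝ) < 2 * h * ((nn H v (X j)).card : ℝ)
  let S : Fin p → Finset V := fun i => flt univ (fun v =>
    (v ∉ Y ∧ ix v = i ∧ ¬ fail v) ∨ (v ∈ Y ∧ ∀ j, j ≠ i → H.Adj v (x j)))
  refine ⟨X, S, fun j => ⟨flt_subset, hxc j⟩, ?_, ?_⟩
  · have hout' : ∀ v, v ∉ Y → fail v → v ∈ W := by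
      intro v hvY hf
      by_contra hvW
      obtain ⟨j, hj, hlt⟩ := hf
      have h1 := hout v hvY hvW j hj
      have hN' : (0 : ℝ) < N := by exact_mod_cast hN
      have hh' : (0 : ℝ) < h := by exact_mod_cast hh
      have h2 : ((nn H v (X j)).card : ℝ) ≤ (nn H v (D j)).card := by
        exact_mod_cast Finset.card_le_card (nn_mono flt_subset)
      have h3 : ((nn H v (D j)).card : ℝ) = bb H D N j v * N := by
        unfold bb
        rw [div_mul_cancel₀ _ hN'.ne']
      have h4 : 2 * h * ((nn H v (D j)).card : ℝ) ≤ c * N := by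
        rw [h3]
        have h5 : bb H D N j v * (2 * h) ≤ c := by
          rw [le_div_iff₀ (by positivity)] at h1
          exact h1
        calc 2 * h * (bb H D N j v * N) = (bb H D N j v * (2 * h)) * N := by ring
          _ ≤ c * N := mul_le_mul_of_nonneg_right h5 hN'.le
      have h6 : 2 * h * ((nn H v (X j)).card : ℝ) ≤ 2 * h * ((nn H v (D j)).card : ℝ) :=
        mul_le_mul_of_nonneg_left h2 (by positivity)
      have h7 : c * N ≤ ((X j).card : ℝ) := hxc j
      linarith
    have hF : (flt W fail).card + ∑ y ∈ Y, (flt univ (fun i => ¬ H.Adj y (x i))).card ≤ Y.card :=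
      hxF
    have hpt : ∀ v : V, 1 + (if v ∈ Y then 1 else 0) ≤
        (∑ i, if v ∈ S i then 1 else 0) + (if v ∈ W ∧ fail v then 1 else 0) +
          (if v ∈ Y then (flt univ (fun i => ¬ H.Adj v (x i))).card else 0) := by
      intro v
      rw [← Finset.card_filter]
      by_cases hvY : v ∈ Y
      · rw [if_pos hvY, if_pos hvY]
        have h1 := key_two hp (fun i => H.Adj v (x i))
        have h2 : (univ.filter (fun i : Fin p => ∀ j, j ≠ i → H.Adj v (x j))) ⊆
            univ.filter (fun i => v ∈ S i) := by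
          intro i hi
          exact Finset.mem_filter.2 ⟨Finset.mem_univ _,
            mem_flt.2 ⟨Finset.mem_univ _, Or.inr ⟨hvY, (Finset.mem_filter.1 hi).2⟩⟩⟩
        have h3 := Finset.card_le_card h2
        rw [flt_eq]
        omega
      · rw [if_neg hvY, if_neg hvY]
        by_cases hf : fail v
        · rw [if_pos ⟨hout' v hvY hf, hf⟩]
          omega
        · have h1 : ix v ∈ univ.filter (fun i => v ∈ S i) :=
            Finset.mem_filter.2 ⟨Finset.mem_univ _,
              mem_flt.2 ⟨Finset.mem_univ _, Or.inl ⟨hvY, rfl, hf⟩⟩⟩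
          have h2 := Finset.card_pos.2 ⟨_, h1⟩
          omega
    have hsum := Finset.sum_le_sum (s := (univ : Finset V)) (fun v _ => hpt v)
    rw [Finset.sum_add_distrib, Finset.sum_add_distrib, Finset.sum_add_distrib,
      Finset.sum_comm] at hsum
    have e1 : ∑ v : V, 1 = Fintype.card V := by simp
    have e2 : ∑ v : V, (if v ∈ Y then 1 else 0) = Y.card := by simp
    have e3 : ∀ i, ∑ v : V, (if v ∈ S i then 1 else 0) = (S i).card := by
      intro i
      simp
    have e4 : ∑ v : V, (if v ∈ W ∧ fail v then 1 else 0) = (flt W fail).card := by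
      rw [flt_eq, ← Finset.card_filter]
      congr 1
      ext v
      simp
    have e5 : ∑ v : V, (if v ∈ Y then (flt univ (fun i => ¬ H.Adj v (x i))).card else 0) =
        ∑ y ∈ Y, (flt univ (fun i => ¬ H.Adj y (x i))).card := by
      rw [← Finset.sum_filter]
      congr 1
      ext v
      simp
    rw [e1, e2, e4, e5, Finset.sum_congr rfl (fun i _ => e3 i)] at hsum
    omega
  · intro i v hv j hj
    rcases (mem_flt.1 hv).2 with ⟨h1, h2, h3⟩ | ⟨h1, h2⟩
    · by_contra hn
      apply h3
      refine ⟨j, ?_, not_le.1 hn⟩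
      rw [h2]
      exact hj
    · have h3 : nn H v (X j) = ∅ := by
        rw [Finset.eq_empty_iff_forall_notMem]
        intro z hz
        obtain ⟨hz1, hz2⟩ := mem_nn.1 hz
        exact hz2 (((mem_flt.1 hz1).2 v h1).2 (h2 j hj))
      rw [h3]
      simp

end Pool.Agent.MultiTree
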