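import Pool.Agent.Helper927.MTree.Defs
set_option autoImplicit false
set_option maxHeartbeats 4000000

namespace Pool.Agent.MultiTree

open Finset

theorem j15889_count {V : Type} (H : SimpleGraph V) (W D : Finset V) :
    ∑ v ∈ W, (nb H v D).card = ∑ x ∈ D, (flt W (fun v => H.Adj v x)).card := by
  classical
  have h1 : ∀ v, (nb H v D).card = ∑ x ∈ D, if H.Adj v x then 1 else 0 := by
    intro v
    rw [← Finset.card_filter]
    have : nb H v D = D.filter (fun x => H.Adj v x) := by
      ext w
      rw [mem_nb, Finset.mem_filter]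
    rw [this]
  have h2 : ∀ x, (flt W (fun v => H.Adj v x)).card = ∑ v ∈ W, if H.Adj v x then 1 else 0 := by
    intro x
    rw [flt_eq, Finset.card_filter]
  simp only [h1, h2]
  exact Finset.sum_comm

theorem j15889_bad {V : Type} (H : SimpleGraph V) (D W : Finset V) (m0 : ℕ) (N : ℕ) (C : ℕ)
    (hN : D.card = N) (hW : W.card ≤ C) (κ : ℝ) (hκ0 : 0 ≤ κ)
    (hZ : ∀ Z ⊆ W, Z.card = m0 →
      ((flt D (fun x => ∀ z ∈ Z, H.Adj z x)).card : ℝ) ≤ κ * N) :
    (∑ x ∈ D, ((flt W (fun v => H.Adj v x)).card : ℝ)) ≤ m0 * N + C * (2 ^ C * (κ * N)) := by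
  classical
  set Bad := flt D (fun x => m0 ≤ (flt W (fun v => H.Adj v x)).card) with hBad
  have hsub : Bad ⊆ (W.powersetCard m0).biUnion
      (fun Z => flt D (fun x => ∀ z ∈ Z, H.Adj z x)) := by
    intro x hx
    rw [hBad, mem_flt] at hx
    obtain ⟨Z, hZs, hZc⟩ := Finset.exists_subset_card_eq hx.2
    rw [Finset.mem_biUnion]
    refine ⟨Z, Finset.mem_powersetCard.2 ⟨hZs.trans flt_subset, hZc⟩, ?_⟩
    rw [mem_flt]
    exact ⟨hx.1, fun z hz => (mem_flt.1 (hZs hz)).2⟩
  have hcard : (Bad.card : ℝ) ≤ 2 ^ C * (κ * N) := by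
    calc (Bad.card : ℝ) ≤ (((W.powersetCard m0).biUnion
          (fun Z => flt D (fun x => ∀ z ∈ Z, H.Adj z x))).card : ℝ) := by
          exact_mod_cast Finset.card_le_card hsub
      _ ≤ ((∑ Z ∈ W.powersetCard m0, (flt D (fun x => ∀ z ∈ Z, H.Adj z x)).card : ℕ) : ℝ) := by
          exact_mod_cast Finset.card_biUnion_le
      _ = ∑ Z ∈ W.powersetCard m0, ((flt D (fun x => ∀ z ∈ Z, H.Adj z x)).card : ℝ) := by
          push_cast; rfl
      _ ≤ ∑ Z ∈ W.powersetCard m0, κ * N := by
          refine Finset.sum_le_sum fun Z hZ' => ?_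
          rw [Finset.mem_powersetCard] at hZ'
          exact hZ Z hZ'.1 hZ'.2
      _ = ((W.powersetCard m0).card : ℝ) * (κ * N) := by rw [Finset.sum_const, nsmul_eq_mul]
      _ ≤ 2 ^ C * (κ * N) := by
          refine mul_le_mul_of_nonneg_right ?_ (by positivity)
          have h1 : (W.powersetCard m0).card ≤ 2 ^ W.card := by
            rw [← Finset.card_powerset]
            refine Finset.card_le_card fun Z hZ' => ?_
            exact Finset.mem_powerset.2 (Finset.mem_powersetCard.1 hZ').1
          have h2 : 2 ^ W.card ≤ 2 ^ C := Nat.pow_le_pow_right (by norm_num) hW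
          exact_mod_cast h1.trans h2
  calc ∑ x ∈ D, ((flt W (fun v => H.Adj v x)).card : ℝ)
      ≤ ∑ x ∈ D, ((m0 : ℝ) + if x ∈ Bad then (C : ℝ) else 0) := by
        refine Finset.sum_le_sum fun x hx => ?_
        by_cases hb : x ∈ Bad
        · rw [if_pos hb]
          have : ((flt W (fun v => H.Adj v x)).card : ℝ) ≤ C := by
            exact_mod_cast (Finset.card_le_card flt_subset).trans hW
          have hm : (0:ℝ) ≤ m0 := Nat.cast_nonneg _
          linarith
        · rw [if_neg hb, add_zero]
          have h1 : ¬ m0 ≤ (flt W (fun v => H.Adj v x)).card :=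
            fun h => hb (by rw [hBad, mem_flt]; exact ⟨hx, h⟩)
          have : (flt W (fun v => H.Adj v x)).card ≤ m0 := by omega
          exact_mod_cast this
    _ = m0 * N + C * Bad.card := by
        have h0 : D.filter (fun x => x ∈ Bad) = Bad := by
          ext x
          rw [Finset.mem_filter]
          exact ⟨fun h => h.2, fun h => ⟨flt_subset h, h⟩⟩
        rw [Finset.sum_add_distrib, Finset.sum_const, nsmul_eq_mul, hN, ← Finset.sum_filter, h0,
          Finset.sum_const, nsmul_eq_mul]
        ring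
    _ ≤ _ := by
        have hC : (0:ℝ) ≤ C := Nat.cast_nonneg _
        have := mul_le_mul_of_nonneg_left hcard hC
        linarith

theorem mb {V : Type} [Fintype V] (H : SimpleGraph V) (p : ℕ) (D : Fin p → Finset V) (N : ℕ)
    (hN : 0 < N) (hD : ∀ i, (D i).card = N) (θ κ : ℝ) (C m0 : ℕ) (hm0 : 1 ≤ m0) (hκ0 : 0 ≤ κ)
    (hκ2 : κ ≤ 1 / 2) (hκ : κ * (C * 2 ^ C * p) ≤ 1 / 2) (hθ0 : 0 ≤ θ) (hθ : θ * C ≤ 1 / 2)
    (hu : ∀ v, ∑ i, bb H D N i v ≤ 1 + θ) (ix : V → Fin p) (W : Finset V) (hW : W.card ≤ C)
    (hsmall : ∀ v ∈ W, ∀ j, j ≠ ix v → bb H D N j v ≤ 1 / (2 * m0))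
    (hno : ∀ Z : Finset V, Z.card = m0 →
      ∃ i, ((flt (D i) (fun x => ∀ z ∈ Z, H.Adj z x)).card : ℝ) < κ * N) :
    ∑ v ∈ W, mass H D N ix v ≤ p * m0 + 1 := by
  classical
  have hNr : (0:ℝ) < N := by exact_mod_cast hN
  have hm0r : (0:ℝ) < m0 := by exact_mod_cast hm0
  have key : ∀ i, ∑ v ∈ W.filter (fun v => ix v = i), mass H D N ix v ≤
      θ * (W.filter (fun v => ix v = i)).card + (m0 + C * (2 ^ C * κ)) := by
    intro i
    set Wi := W.filter (fun v => ix v = i) with hWi
    have hWiW : Wi ⊆ W := Finset.filter_subset _ _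
    have hWiC : Wi.card ≤ C := (Finset.card_le_card hWiW).trans hW
    have hmass : ∀ v ∈ Wi, mass H D N ix v ≤ θ + ((nb H v (D i)).card : ℝ) / N := by
      intro v hv
      have hiv : ix v = i := (Finset.mem_filter.1 hv).2
      have h1 : bb H D N i v + mass H D N ix v = ∑ j, bb H D N j v := by
        unfold mass
        rw [hiv]
        exact Finset.add_sum_erase _ (fun j => bb H D N j v) (Finset.mem_univ i)
      have h2 : ((nb H v (D i)).card : ℝ) / N = 1 - bb H D N i v := by
        unfold bb
        have h3 := nb_add_nn H v (D i)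
        rw [hD i] at h3
        have h4 : ((nb H v (D i)).card : ℝ) + (nn H v (D i)).card = N := by exact_mod_cast h3
        field_simp
        linarith
      have h5 := hu v
      linarith
    have hcount : ∑ v ∈ Wi, ((nb H v (D i)).card : ℝ) =
        ∑ x ∈ D i, ((flt Wi (fun v => H.Adj v x)).card : ℝ) := by
      exact_mod_cast j15889_count H Wi (D i)
    have hbad := j15889_bad H (D i) Wi m0 N C (hD i) hWiC κ hκ0 (by
      intro Z hZ hZc
      obtain ⟨l, hl⟩ := hno Z hZc
      by_cases hli : l = i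
      · subst hli; exact hl.le
      · exfalso
        have hcov : D l ⊆ flt (D l) (fun x => ∀ z ∈ Z, H.Adj z x) ∪
            Z.biUnion (fun z => nn H z (D l)) := by
          intro x hx
          rw [Finset.mem_union]
          by_cases h : ∀ z ∈ Z, H.Adj z x
          · left; exact mem_flt.2 ⟨hx, h⟩
          · right
            push Not at h
            obtain ⟨z, hz, hzx⟩ := h
            exact Finset.mem_biUnion.2 ⟨z, hz, mem_nn.2 ⟨hx, hzx⟩⟩
        have h1 : N ≤ (flt (D l) (fun x => ∀ z ∈ Z, H.Adj z x)).card +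
            ∑ z ∈ Z, (nn H z (D l)).card := by
          have h0 := (Finset.card_le_card hcov).trans ((Finset.card_union_le _ _).trans
            (Nat.add_le_add_left Finset.card_biUnion_le _))
          rw [hD l] at h0
          exact h0
        have h2 : ∑ z ∈ Z, ((nn H z (D l)).card : ℝ) ≤ N / 2 := by
          calc ∑ z ∈ Z, ((nn H z (D l)).card : ℝ) ≤ ∑ z ∈ Z, (N : ℝ) / (2 * m0) := by
                refine Finset.sum_le_sum fun z hz => ?_
                have hzW := hZ hz
                have hzi : ix z = i := (Finset.mem_filter.1 hzW).2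
                have h3 := hsmall z (hWiW hzW) l (by rw [hzi]; exact hli)
                unfold bb at h3
                rw [div_le_iff₀ hNr] at h3
                calc _ ≤ _ := h3
                  _ = _ := by ring
            _ = N / 2 := by
                rw [Finset.sum_const, nsmul_eq_mul, hZc]
                field_simp
        have h3 : (N : ℝ) ≤ (flt (D l) (fun x => ∀ z ∈ Z, H.Adj z x)).card +
            ∑ z ∈ Z, ((nn H z (D l)).card : ℝ) := by exact_mod_cast h1
        have h4 : κ * N ≤ N / 2 := by nlinarith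
        linarith)
    calc ∑ v ∈ Wi, mass H D N ix v ≤ ∑ v ∈ Wi, (θ + ((nb H v (D i)).card : ℝ) / N) :=
          Finset.sum_le_sum hmass
      _ = θ * Wi.card + (∑ x ∈ D i, ((flt Wi (fun v => H.Adj v x)).card : ℝ)) / N := by
          rw [Finset.sum_add_distrib, Finset.sum_const, nsmul_eq_mul, ← Finset.sum_div, hcount]
          ring
      _ ≤ θ * Wi.card + (m0 * N + C * (2 ^ C * (κ * N))) / N := by
          have := div_le_div_of_nonneg_right hbad hNr.le
          linarith
      _ = _ := by field_simp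
  calc ∑ v ∈ W, mass H D N ix v
      = ∑ i, ∑ v ∈ W.filter (fun v => ix v = i), mass H D N ix v :=
        (Finset.sum_fiberwise W ix _).symm
    _ ≤ ∑ i, (θ * (W.filter (fun v => ix v = i)).card + (m0 + C * (2 ^ C * κ))) :=
        Finset.sum_le_sum fun i _ => key i
    _ = θ * W.card + p * (m0 + C * (2 ^ C * κ)) := by
        have h0 := Finset.card_eq_sum_card_fiberwise (s := W) (t := univ) (f := ix)
          (fun _ _ => Finset.mem_coe.2 (Finset.mem_univ _))
        have h0' : (W.card : ℝ) = ∑ i, ((W.filter (fun v => ix v = i)).card : ℝ) := by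
          rw [h0]; push_cast; rfl
        rw [Finset.sum_add_distrib, ← Finset.mul_sum, ← h0', Finset.sum_const, nsmul_eq_mul,
          Finset.card_univ, Fintype.card_fin]
    _ ≤ p * m0 + 1 := by
        have h1 : θ * W.card ≤ θ * C :=
          mul_le_mul_of_nonneg_left (by exact_mod_cast hW) hθ0
        have h2 : (p : ℝ) * (C * (2 ^ C * κ)) = κ * (C * 2 ^ C * p) := by ring
        nlinarith

end Pool.Agent.MultiTree
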