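import Pool.Agent.Helper927.MTree.Defs
import Pool.Agent.Helper927.MTree.PIG
set_option autoImplicit false
set_option maxHeartbeats 4000000

namespace Pool.Agent.MultiTree

open Finset

/-! ### TARGET: replace the `sorry`s below by proofs (auxiliary lemmas are fine, put them in this file) -/

theorem yb {V : Type} [Fintype V] (H : SimpleGraph V) (p : ℕ) (D : Fin p → Finset V) (N : ℕ)
    (hN : 0 < N) (hD : ∀ i, (D i).card = N) (θ η κ : ℝ) (C m0 : ℕ) (hη : 0 < η) (hη1 : η ≤ 1)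
    (hθ : θ ≤ η / 2) (hC : 2 * (m0 : ℝ) ≤ (η / 2) ^ p * C) (hκ : κ ≤ (η / 2) ^ p / 2 / 2 ^ C)
    (hu : ∀ v, ∑ i, bb H D N i v ≤ 1 + θ)
    (hno : ∀ Z : Finset V, Z.card = m0 →
      ∃ i, ((flt (D i) (fun x => ∀ z ∈ Z, H.Adj z x)).card : ℝ) < κ * N) :
    (YY H D N η).card ≤ C := by
  classical
  by_contra hlt
  push Not at hlt
  obtain ⟨Y, hYs, hYc⟩ := Finset.exists_subset_card_eq hlt.le
  have hNr : (0:ℝ) < N := by exact_mod_cast hN
  have hb0 : ∀ i v, 0 ≤ bb H D N i v := fun i v => by unfold bb; positivity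
  have hbl : ∀ y ∈ Y, ∀ l, bb H D N l y ≤ 1 - η / 2 := by
    intro y hy l
    have h1 := (mem_flt.1 (hYs hy)).2
    obtain ⟨i, j, hij, hi, hj⟩ := h1
    have h2 : ∃ l', l' ≠ l ∧ η ≤ bb H D N l' y := by
      by_cases h : i = l
      · exact ⟨j, fun h' => hij (h.trans h'.symm), hj⟩
      · exact ⟨i, h, hi⟩
    obtain ⟨l', hl', hb⟩ := h2
    have h3 : ∑ i ∈ ({l, l'} : Finset (Fin p)), bb H D N i y ≤ ∑ i, bb H D N i y :=
      Finset.sum_le_sum_of_subset_of_nonneg (Finset.subset_univ _) (fun i _ _ => hb0 i y)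
    rw [Finset.sum_pair (Ne.symm hl')] at h3
    have h4 := hu y
    linarith
  have hnb : ∀ y ∈ Y, ∀ l, (η / 2) * N ≤ ((nb H y (D l)).card : ℝ) := by
    intro y hy l
    have h1 := nb_add_nn H y (D l)
    rw [hD l] at h1
    have h2 := hbl y hy l
    unfold bb at h2
    rw [div_le_iff₀ hNr] at h2
    have h3 : ((nb H y (D l)).card : ℝ) + ((nn H y (D l)).card : ℝ) = N := by exact_mod_cast h1
    nlinarith
  have hOm : ((Fintype.piFinset D).card : ℝ) = (N:ℝ) ^ p := by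
    rw [Fintype.card_piFinset]
    simp [hD]
  have hgood : ∀ y ∈ Y, (η / 2) ^ p * ((Fintype.piFinset D).card : ℝ) ≤
      ((flt (Fintype.piFinset D) (fun x => ∀ i, H.Adj y (x i))).card : ℝ) := by
    intro y hy
    have h1 : flt (Fintype.piFinset D) (fun x => ∀ i, H.Adj y (x i)) =
        Fintype.piFinset (fun i => nb H y (D i)) := by
      ext x
      rw [mem_flt, Fintype.mem_piFinset, Fintype.mem_piFinset]
      simp only [mem_nb]
      exact forall_and.symm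
    rw [h1, hOm, Fintype.card_piFinset, ← mul_pow]
    push_cast
    have h2 : ((η / 2) * (N:ℝ)) ^ p = ∏ _i : Fin p, ((η / 2) * (N:ℝ)) := by
      simp
    rw [h2]
    exact Finset.prod_le_prod (fun i _ => by positivity) (fun i _ => hnb y hy i)
  have ha0 : (0:ℝ) ≤ (η / 2) ^ p := by positivity
  have ha1 : (η / 2) ^ p ≤ (1:ℝ) := pow_le_one₀ (by positivity) (by linarith)
  obtain ⟨Z, hZY, hZc, hZ⟩ := pig (Fintype.piFinset D) Y (fun y x => ∀ i, H.Adj y (x i))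
    ((η / 2) ^ p) m0 ha0 ha1 hgood (by rw [hYc]; exact hC)
  rw [hYc] at hZ
  have h1 : flt (Fintype.piFinset D) (fun x => ∀ z ∈ Z, ∀ i, H.Adj z (x i)) =
      Fintype.piFinset (fun i => flt (D i) (fun x => ∀ z ∈ Z, H.Adj z x)) := by
    ext x
    rw [mem_flt, Fintype.mem_piFinset, Fintype.mem_piFinset]
    simp only [mem_flt]
    constructor
    · rintro ⟨ha, hb⟩ i
      exact ⟨ha i, fun z hz => hb z hz i⟩
    · intro h
      exact ⟨fun i => (h i).1, fun z hz i => (h i).2 z hz⟩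
  rw [h1, hOm, Fintype.card_piFinset] at hZ
  push_cast at hZ
  obtain ⟨i, hi⟩ := hno Z hZc
  have h2 : ∏ i, ((flt (D i) (fun x => ∀ z ∈ Z, H.Adj z x)).card : ℝ) =
      ((flt (D i) (fun x => ∀ z ∈ Z, H.Adj z x)).card : ℝ) *
      ∏ j ∈ univ.erase i, ((flt (D j) (fun x => ∀ z ∈ Z, H.Adj z x)).card : ℝ) :=
    (Finset.mul_prod_erase _ _ (Finset.mem_univ i)).symm
  have h3 : ∏ j ∈ univ.erase i, ((flt (D j) (fun x => ∀ z ∈ Z, H.Adj z x)).card : ℝ) ≤
      (N:ℝ) ^ (p - 1) := by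
    have : (N:ℝ) ^ (p - 1) = ∏ j ∈ univ.erase i, (N:ℝ) := by
      rw [Finset.prod_const, Finset.card_erase_of_mem (Finset.mem_univ i)]
      simp
    rw [this]
    refine Finset.prod_le_prod (fun j _ => by positivity) (fun j _ => ?_)
    have := Finset.card_le_card (flt_subset (s := D j) (P := fun x => ∀ z ∈ Z, H.Adj z x))
    rw [hD j] at this
    exact_mod_cast this
  have hp : p - 1 + 1 = p := by
    have := i.2
    omega
  have hNp : (0:ℝ) < (N:ℝ) ^ (p - 1) := by positivity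
  have h4 : (N:ℝ) ^ p = N * (N:ℝ) ^ (p - 1) := by
    rw [← pow_succ', hp]
  rw [h2] at hZ
  have h5 : ((flt (D i) (fun x => ∀ z ∈ Z, H.Adj z x)).card : ℝ) *
      ∏ j ∈ univ.erase i, ((flt (D j) (fun x => ∀ z ∈ Z, H.Adj z x)).card : ℝ) ≤
      ((flt (D i) (fun x => ∀ z ∈ Z, H.Adj z x)).card : ℝ) * (N:ℝ) ^ (p - 1) :=
    mul_le_mul_of_nonneg_left h3 (by positivity)
  have h6 : ((flt (D i) (fun x => ∀ z ∈ Z, H.Adj z x)).card : ℝ) * (N:ℝ) ^ (p - 1) <
      κ * N * (N:ℝ) ^ (p - 1) := mul_lt_mul_of_pos_right hi hNp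
  have h7 : κ * N * (N:ℝ) ^ (p - 1) ≤ (η / 2) ^ p / 2 / 2 ^ C * (N:ℝ) ^ p := by
    rw [h4, mul_assoc]
    exact mul_le_mul_of_nonneg_right hκ (by positivity)
  linarith

end Pool.Agent.MultiTree
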