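import Pool.Agent.Helper927.MTree.Defs
import Pool.Agent.Helper927.MTree.CST
import Pool.Agent.Helper927.MTree.FIX
import Pool.Agent.Helper927.MTree.K1
import Pool.Agent.Helper927.MTree.KEY
import Pool.Agent.Helper927.MTree.MB
import Pool.Agent.Helper927.MTree.YB
set_option autoImplicit false
set_option maxHeartbeats 4000000

namespace Pool.Agent.MultiTree

open Finset

/-! ### TARGET: replace the `sorry`s below by proofs (auxiliary lemmas are fine, put them in this file) -/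

theorem fl (q : ℕ) (hq : 1 ≤ q) (m : Fin (q + 2) → ℕ) (hm : ∀ i, 1 ≤ m i) :
    ∃ θ : ℝ, 0 < θ ∧ ∃ ηc : ℝ, 0 < ηc ∧ ∃ N0 : ℕ, ∀ N : ℕ, N0 ≤ N →
      ∀ (V : Type) [Fintype V] (H : SimpleGraph V) (D : Fin (q + 1) → Finset V),
        (∀ i, (D i).card = N) →
        (∀ i j, i < j → ∀ d ∈ D j, ((nn H d (D i)).card : ℝ) ≤ ηc * N) →
        (∀ v, ∑ i, bb H D N i v ≤ 1 + θ) → ¬ HasM H m →
        ∃ S : Fin (q + 1) → Finset V, Fintype.card V ≤ ∑ i, (S i).card ∧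
          ∀ i, ¬ HasK H (S i) (m 0) (m 1) := by
  obtain ⟨h, hh⟩ : ∃ h : ℕ, h = m 0 + m 1 := ⟨_, rfl⟩
  obtain ⟨M, hM⟩ : ∃ M : ℕ, M = ∑ i, m i := ⟨_, rfl⟩
  have hm0 : 1 ≤ m 0 := hm 0
  have hh1 : 1 ≤ h := by omega
  have hmM : ∀ i, m i ≤ M := fun i => by
    rw [hM]
    exact Finset.single_le_sum (fun _ _ => Nat.zero_le _) (Finset.mem_univ i)
  have hM1 : 1 ≤ M := hm0.trans (hmM 0)
  have hp1 : 1 ≤ q + 1 := by omega
  obtain ⟨e, he⟩ : ∃ e : ℕ → ℝ, e = eta (q + 1) (m 0) h := ⟨_, rfl⟩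
  obtain ⟨C, hC⟩ : ∃ C : ℕ → ℕ, C = fun t => CC (q + 1) (m 0) (e t) := ⟨_, rfl⟩
  obtain ⟨c, hc⟩ : ∃ c : ℕ → ℝ, c = fun t => cc (q + 1) (m 0) (e t) := ⟨_, rfl⟩
  have he0 : ∀ t, 0 < e t := fun t => by
    rw [he]
    exact eta_pos _ _ _ hp1 hm0 hh1 t
  have he1 : ∀ t, e t ≤ 1 := fun t => by
    rw [he]
    exact eta_le_one _ _ _ hm0 t
  have hean : ∀ t, e (t + 1) ≤ e t := fun t => by
    rw [he]
    exact eta_anti _ _ _ t
  have hec : ∀ t, e (t + 1) ≤ c t / (2 * h) := fun t => by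
    rw [hc, he]
    exact eta_succ_le _ _ _ t
  have hc0 : ∀ t, 0 < c t := fun t => by
    rw [hc]
    exact cc_pos _ _ hp1 _
  have hcs : ∀ t, 4 * ((q + 1 : ℕ) : ℝ) * 2 ^ (C t) * ((C t : ℝ) + 1) * c t ≤ 1 := fun t => by
    rw [hc, hC]
    exact cc_spec _ _ hp1 _
  have hCs : ∀ t, 2 * (m 0 : ℝ) ≤ (e t / 2) ^ (q + 1) * C t := fun t => by
    rw [hC]
    exact CC_spec _ _ _ (he0 t)
  obtain ⟨L, hL⟩ : ∃ L : ℕ, L = 8 * h * ((q + 1) * m 0 + 2) := ⟨_, rfl⟩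
  obtain ⟨κ0, hκ00, hκ0⟩ := finite_min
    (fun t => min ((e t / 2) ^ (q + 1) / 2 / 2 ^ (C t)) (c t)) (fun t => by
      refine lt_min ?_ (hc0 t)
      have := he0 t
      positivity) L
  obtain ⟨A, hA⟩ : ∃ A : ℝ, A = (C L : ℝ) * 2 ^ (C L) * ((q + 1 : ℕ) : ℝ) := ⟨_, rfl⟩
  have hA0 : 0 ≤ A := by rw [hA]; positivity
  obtain ⟨κ, hκ⟩ : ∃ κ : ℝ, κ = min κ0 (min (1 / 2) (1 / (2 * (A + 1)))) := ⟨_, rfl⟩
  have hκpos : 0 < κ := by
    rw [hκ]
    exact lt_min hκ00 (lt_min (by norm_num) (by positivity))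
  have hκa : ∀ t, t ≤ L → κ ≤ (e t / 2) ^ (q + 1) / 2 / 2 ^ (C t) := fun t ht => by
    have h1 := hκ0 t ht
    have h2 : κ ≤ κ0 := by rw [hκ]; exact min_le_left _ _
    exact h2.trans (h1.trans (min_le_left _ _))
  have hκb : ∀ t, t ≤ L → κ ≤ c t := fun t ht => by
    have h1 := hκ0 t ht
    have h2 : κ ≤ κ0 := by rw [hκ]; exact min_le_left _ _
    exact h2.trans (h1.trans (min_le_right _ _))
  have hκc : κ ≤ 1 / 2 := by
    rw [hκ]
    exact (min_le_right _ _).trans (min_le_left _ _)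
  have hκd : κ * A ≤ 1 / 2 := by
    have h1 : κ ≤ 1 / (2 * (A + 1)) := by
      rw [hκ]
      exact (min_le_right _ _).trans (min_le_right _ _)
    calc κ * A ≤ 1 / (2 * (A + 1)) * A := mul_le_mul_of_nonneg_right h1 hA0
      _ ≤ 1 / 2 := by
        rw [div_mul_eq_mul_div, one_mul, div_le_div_iff₀ (by positivity) (by norm_num)]
        linarith
  obtain ⟨θ, hθ0, hθ⟩ := finite_min
    (fun t => min (e t / 2) (1 / (4 * ((C t : ℝ) + 1)))) (fun t => by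
      refine lt_min ?_ ?_
      · have := he0 t
        positivity
      · positivity) L
  have hθa : ∀ t, t ≤ L → θ ≤ e t / 2 := fun t ht => (hθ t ht).trans (min_le_left _ _)
  have hθb : ∀ t, t ≤ L → θ * C t ≤ 1 / 4 := fun t ht => by
    have h1 : θ ≤ 1 / (4 * ((C t : ℝ) + 1)) := (hθ t ht).trans (min_le_right _ _)
    have h2 : (0 : ℝ) ≤ C t := Nat.cast_nonneg _
    calc θ * C t ≤ 1 / (4 * ((C t : ℝ) + 1)) * C t := mul_le_mul_of_nonneg_right h1 h2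
      _ ≤ 1 / 4 := by
        rw [div_mul_eq_mul_div, one_mul, div_le_div_iff₀ (by positivity) (by norm_num)]
        linarith
  have hM0' : (0 : ℝ) < M := by exact_mod_cast hM1
  refine ⟨θ, hθ0, κ / (4 * ((q + 1 : ℕ) : ℝ) * M), by positivity, ⌈4 * (M : ℝ) / κ⌉₊ + 1, ?_⟩
  intro N hN V _ H D hD hcr hu hno
  classical
  have hN0 : 0 < N := by omega
  have hNr : (0 : ℝ) < N := by exact_mod_cast hN0
  have hMN : 4 * (M : ℝ) ≤ κ * N := by
    have h1 : 4 * (M : ℝ) / κ ≤ N := by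
      calc 4 * (M : ℝ) / κ ≤ (⌈4 * (M : ℝ) / κ⌉₊ : ℝ) := Nat.le_ceil _
        _ ≤ N := by exact_mod_cast (by omega : ⌈4 * (M : ℝ) / κ⌉₊ ≤ N)
    rw [div_le_iff₀ hκpos] at h1
    linarith
  obtain ⟨E, hE⟩ : ∃ E : ℕ, E = ⌊κ / (4 * ((q + 1 : ℕ) : ℝ) * M) * N⌋₊ := ⟨_, rfl⟩
  have hEle : 4 * (((q + 1 : ℕ) : ℝ) * (M * E)) ≤ κ * N := by
    have h1 : (E : ℝ) ≤ κ / (4 * ((q + 1 : ℕ) : ℝ) * M) * N := by
      rw [hE]
      exact Nat.floor_le (by positivity)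
    have h2 : 0 < 4 * ((q + 1 : ℕ) : ℝ) * M := by positivity
    calc 4 * (((q + 1 : ℕ) : ℝ) * (M * E)) = 4 * ((q + 1 : ℕ) : ℝ) * M * E := by ring
      _ ≤ 4 * ((q + 1 : ℕ) : ℝ) * M * (κ / (4 * ((q + 1 : ℕ) : ℝ) * M) * N) :=
          mul_le_mul_of_nonneg_left h1 h2.le
      _ = κ * N := by
          field_simp
  have hcross : ∀ i j, i < j → ∀ d ∈ D j, (nn H d (D i)).card ≤ E := by
    intro i j hij d hd
    rw [hE]
    exact Nat.le_floor (hcr i j hij d hd)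
  have hnoZ : ∀ Z : Finset V, Z.card = m 0 →
      ∃ i, ((flt (D i) (fun x => ∀ z ∈ Z, H.Adj z x)).card : ℝ) < κ * N := by
    intro Z hZ
    by_contra hcon
    push Not at hcon
    apply hno
    refine hasM_K1 H (q + 1) M E m hmM D hcross Z hZ
      (fun i => flt (D i) (fun x => ∀ z ∈ Z, H.Adj z x)) (fun i => flt_subset) (fun i => ?_)
      (fun i z hz x hx => (mem_flt.1 hx).2 z hz)
    have h1 : ((M + (q + 1) * (M * E) : ℕ) : ℝ) ≤
        ((flt (D i) (fun x => ∀ z ∈ Z, H.Adj z x)).card : ℝ) := by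
      refine le_trans ?_ (hcon i)
      push_cast at hEle ⊢
      nlinarith [mul_pos hκpos hNr]
    exact_mod_cast h1
  have hix : ∀ v : V, ∃ i : Fin (q + 1), ∀ j, bb H D N j v ≤ bb H D N i v := fun v =>
    Finite.exists_max (fun j => bb H D N j v)
  choose ix hix using hix
  obtain ⟨Y, hY⟩ : ∃ Y : ℕ → Finset V, Y = fun t => YY H D N (e t) := ⟨_, rfl⟩
  have hYc : ∀ t, t ≤ L → (Y t).card ≤ C t := by
    intro t ht
    rw [hY]
    exact yb H (q + 1) D N hN0 hD θ (e t) κ (C t) (m 0) (he0 t) (he1 t) (hθa t ht) (hCs t)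
      (hκa t ht) hu hnoZ
  have hYm : ∀ t, Y t ⊆ Y (t + 1) := by
    intro t
    rw [hY]
    exact YY_mono H D N (hean t)
  have hYn : ∀ t v, v ∉ Y t → ∀ j, j ≠ ix v → bb H D N j v < e t := by
    intro t v hv j hj
    rw [hY] at hv
    exact bb_lt_of_notMem H D N (e t) ix hix v hv j hj
  have hmb : ∑ v ∈ Y L \ Y 0, mass H D N ix v ≤ ((q + 1 : ℕ) : ℝ) * m 0 + 1 := by
    refine mb H (q + 1) D N hN0 hD θ κ (C L) (m 0) hm0 hκpos.le hκc ?_ hθ0.le ?_ hu ix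
      (Y L \ Y 0) ?_ ?_ hnoZ
    · rw [hA] at hκd
      exact hκd
    · exact (hθb L le_rfl).trans (by norm_num)
    · exact (Finset.card_le_card Finset.sdiff_subset).trans (hYc L le_rfl)
    · intro v hv j hj
      have h1 := hYn 0 v (Finset.mem_sdiff.1 hv).2 j hj
      rw [he] at h1
      exact h1.le
  have hhr : (0 : ℝ) < h := by exact_mod_cast hh1
  obtain ⟨t, htL, htm⟩ := pigeon_scale (mass H D N ix) Y hYm L (((q + 1 : ℕ) : ℝ) * m 0 + 1)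
    (1 / (8 * h)) (by
      have : (L : ℝ) * (1 / (8 * h)) = ((q + 1 : ℕ) : ℝ) * m 0 + 2 := by
        rw [hL]
        push_cast
        field_simp
      rw [this]
      linarith) hmb
  obtain ⟨X, S, hX, hcard, hS⟩ := key H (q + 1) (by omega) D N hN0 hD θ (c t) (C t) h hh1 (hc0 t)
    (hcs t) hθ0.le (hθb t htL.le) hu ix (Y t) (Y (t + 1) \ Y t) (hYc t htL.le) htm (by
      intro v hv hv' j hj
      have h1 : v ∉ Y (t + 1) := fun h2 => hv' (Finset.mem_sdiff.2 ⟨h2, hv⟩)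
      exact (hYn (t + 1) v h1 j hj).le.trans (hec t))
  refine ⟨S, hcard, ?_⟩
  refine fl_fixed H q M E m hmM D hcross N (c t) hm0 ?_ X S hX ?_ hno
  · have h1 : κ * N ≤ c t * N := mul_le_mul_of_nonneg_right (hκb t htL.le) hNr.le
    have h2 : (0 : ℝ) ≤ (M : ℝ) * E := by positivity
    push_cast at hEle
    nlinarith
  · intro i v hv j hj
    rw [← hh]
    exact hS i v hv j hj

end Pool.Agent.MultiTree
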