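import Pool.Agent.Helper927.MTree.Defs
set_option autoImplicit false
set_option maxHeartbeats 4000000

namespace Pool.Agent.MultiTree

open Finset

/-! ### AVAILABLE: statements you may use; leave these `sorry`s in place (they are proved in other jobs) -/



/-! ### TARGET: replace the `sorry`s below by proofs (auxiliary lemmas are fine, put them in this file) -/

theorem mono_prop {n R : ℕ} (T : SimpleGraph (Fin n)) (a b : ℕ)
    (hR : ∀ H : SimpleGraph (Fin R),
      (completeBipartiteGraph (Fin a) (Fin b)).IsContained H ∨ T.IsContained Hᶜ)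
    {V : Type} (H : SimpleGraph V) (S : Finset V) (hS : R ≤ S.card) :
    HasK H S a b ∨ T.IsContained Hᶜ := by
  classical
  obtain ⟨e⟩ : Nonempty (Fin R ↪ S) := by
    apply Function.Embedding.nonempty_of_card_le
    rw [Fintype.card_fin, Fintype.card_coe]; exact hS
  let f : Fin R → V := fun i => (e i : V)
  have hf : Function.Injective f := fun i j h => e.injective (Subtype.ext h)
  have hfS : ∀ i, f i ∈ S := fun i => (e i).2
  rcases hR (H.comap f) with ⟨⟨φ⟩⟩ | ⟨⟨ψ⟩⟩
  · left
    have hφi : Function.Injective φ := φ.injective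
    have hφa : ∀ x y, (completeBipartiteGraph (Fin a) (Fin b)).Adj x y →
        H.Adj (f (φ x)) (f (φ y)) := by
      intro x y hxy
      exact φ.toHom.map_adj hxy
    refine ⟨univ.image (fun i : Fin a => f (φ (Sum.inl i))),
      univ.image (fun i : Fin b => f (φ (Sum.inr i))), ?_, ?_, ?_, ?_, ?_⟩
    · intro x hx
      obtain ⟨i, -, rfl⟩ := Finset.mem_image.1 hx
      exact hfS _
    · intro x hx
      obtain ⟨i, -, rfl⟩ := Finset.mem_image.1 hx
      exact hfS _
    · rw [Finset.card_image_of_injective, Finset.card_univ, Fintype.card_fin]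
      intro i j h
      exact Sum.inl_injective (hφi (hf h))
    · rw [Finset.card_image_of_injective, Finset.card_univ, Fintype.card_fin]
      intro i j h
      exact Sum.inr_injective (hφi (hf h))
    · intro x hx y hy
      obtain ⟨i, -, rfl⟩ := Finset.mem_image.1 hx
      obtain ⟨j, -, rfl⟩ := Finset.mem_image.1 hy
      apply hφa
      simp
  · right
    have hψi : Function.Injective ψ := ψ.injective
    have hψa : ∀ x y, T.Adj x y → ((H.comap f)ᶜ).Adj (ψ x) (ψ y) := by
      intro x y hxy
      exact ψ.toHom.map_adj hxy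
    apply contained_of (fun x => f (ψ x)) (fun x y h => hψi (hf h))
    intro x y hxy
    have h1 := hψa x y hxy
    rw [SimpleGraph.compl_adj] at h1 ⊢
    exact ⟨fun h => h1.1 (hf h), fun h => h1.2 h⟩

end Pool.Agent.MultiTree
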