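import Pool.Agent.Helper927.MTree.Defs
set_option autoImplicit false
set_option maxHeartbeats 4000000

namespace Pool.Agent.MultiTree

open Finset

/-! ### AVAILABLE: statements you may use; leave these `sorry`s in place (they are proved in other jobs) -/



/-! ### TARGET: replace the `sorry`s below by proofs (auxiliary lemmas are fine, put them in this file) -/

theorem clq_ext {V : Type} [Fintype V] (H : SimpleGraph V) (U A D : Finset V) (hA : A ⊆ U)
    (hD : D ⊆ U) (j e K : ℕ) (h : ∀ a ∈ A, (nn H a D).card ≤ e) (hK : K + j * e ≤ D.card) :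
    clq H A j * K ≤ clq H U (j + 1) := by
  classical
  unfold clq
  set S := flt (univ : Finset (Fin j → V))
    (fun x => (∀ i, x i ∈ A) ∧ ∀ i i', i ≠ i' → H.Adj (x i) (x i')) with hS
  let g : (Fin j → V) → Finset V := fun y => D.filter (fun d => ∀ i, H.Adj (y i) d)
  have hg : ∀ y ∈ S, K ≤ (g y).card := by
    intro y hy
    have hsub : D ⊆ g y ∪ univ.biUnion (fun i : Fin j => nn H (y i) D) := by
      intro d hd
      rw [mem_union, mem_biUnion]
      by_cases h1 : ∀ i, H.Adj (y i) d
      · left
        exact mem_filter.mpr ⟨hd, h1⟩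
      · right
        push Not at h1
        obtain ⟨i, hi⟩ := h1
        exact ⟨i, mem_univ i, mem_nn.mpr ⟨hd, hi⟩⟩
    have h1 := card_le_card hsub
    have h2 := card_union_le (g y) (univ.biUnion (fun i : Fin j => nn H (y i) D))
    have h3 : (univ.biUnion (fun i : Fin j => nn H (y i) D)).card ≤ j * e := by
      refine (card_biUnion_le).trans ?_
      calc ∑ i : Fin j, (nn H (y i) D).card ≤ ∑ _i : Fin j, e :=
            sum_le_sum fun i _ => h _ ((mem_flt.1 hy).2.1 i)
        _ = j * e := by simp
    omega
  have h1 : S.card * K ≤ (S.sigma (fun y => g y)).card := by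
    rw [card_sigma]
    have := card_nsmul_le_sum S (fun y => (g y).card) K hg
    simpa using this
  refine h1.trans ?_
  refine card_le_card_of_injOn (fun p => (Fin.cons p.2 p.1 : Fin (j + 1) → V)) ?_ ?_
  · rintro ⟨y, d⟩ hp
    have hp' := mem_sigma.mp (mem_coe.mp hp)
    obtain ⟨hy, hd⟩ := hp'
    have hy' := (mem_flt.1 hy).2
    obtain ⟨hdD, hadj⟩ := mem_filter.mp hd
    rw [mem_coe, mem_flt]
    refine ⟨mem_univ _, ?_, ?_⟩
    · intro i
      refine Fin.cases ?_ (fun i => ?_) i
      · exact hD hdD
      · exact hA (hy'.1 i)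
    · intro i i'
      refine Fin.cases ?_ (fun i => ?_) i
      · refine Fin.cases ?_ (fun i' => ?_) i'
        · intro hne
          exact absurd rfl hne
        · intro _
          exact (hadj i').symm
      · refine Fin.cases ?_ (fun i' => ?_) i'
        · intro _
          exact hadj i
        · intro hne
          exact hy'.2 i i' (fun heq => hne (by rw [heq]))
  · rintro ⟨y, d⟩ _ ⟨y', d'⟩ _ heq
    have h2 := Fin.cons_injective2 heq
    obtain ⟨h3, h4⟩ := h2
    simp only at h3 h4
    subst h3
    subst h4
    rfl

end Pool.Agent.MultiTree
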