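import Pool.Agent.Helper927.MTree.Defs
set_option autoImplicit false
set_option maxHeartbeats 4000000

namespace Pool.Agent.MultiTree

open Finset

/-! ### AVAILABLE: statements you may use; leave these `sorry`s in place (they are proved in other jobs) -/



/-! ### TARGET: replace the `sorry`s below by proofs (auxiliary lemmas are fine, put them in this file) -/

theorem clq_mono {V : Type} [Fintype V] (H : SimpleGraph V) {U U' : Finset V} (h : U ⊆ U') (j : ℕ) :
    clq H U j ≤ clq H U' j := by
  unfold clq
  refine Finset.card_le_card fun x hx => ?_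
  rw [mem_flt] at hx ⊢
  exact ⟨hx.1, fun i => h (hx.2.1 i), hx.2.2⟩

theorem clq_one {V : Type} [Fintype V] (H : SimpleGraph V) (U : Finset V) :
    clq H U 1 = U.card := by
  unfold clq
  refine Finset.card_bij' (fun x _ => x 0) (fun v _ => fun _ => v) ?_ ?_ ?_ ?_
  · intro x hx
    rw [mem_flt] at hx
    exact hx.2.1 0
  · intro v hv
    rw [mem_flt]
    refine ⟨mem_univ _, fun _ => hv, fun i i' hii => ?_⟩
    exact absurd (Subsingleton.elim i i') hii
  · intro x _
    funext i
    rw [Subsingleton.elim i 0]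
  · intro v _
    rfl

theorem clq_succ {V : Type} [Fintype V] (H : SimpleGraph V) (U : Finset V) (j : ℕ) :
    clq H U (j + 1) = ∑ x ∈ U, clq H (nb H x U) j := by
  unfold clq
  rw [← Finset.card_sigma]
  refine Finset.card_bij' (fun z _ => ⟨z 0, Fin.tail z⟩)
    (fun p _ => (Fin.cons p.1 p.2 : Fin (j + 1) → V)) ?_ ?_ ?_ ?_
  · intro z hz
    rw [mem_flt] at hz
    rw [Finset.mem_sigma]
    refine ⟨hz.2.1 0, ?_⟩
    rw [mem_flt]
    refine ⟨mem_univ _, fun i => ?_, fun i i' hii => ?_⟩
    · rw [mem_nb]
      exact ⟨hz.2.1 i.succ, hz.2.2 0 i.succ (Fin.succ_ne_zero i).symm⟩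
    · exact hz.2.2 i.succ i'.succ (fun h => hii (Fin.succ_injective _ h))
  · intro p hp
    rw [Finset.mem_sigma, mem_flt] at hp
    obtain ⟨hp1, -, hp2, hp3⟩ := hp
    rw [mem_flt]
    refine ⟨mem_univ _, fun i => ?_, fun i i' => ?_⟩
    · refine Fin.cases ?_ (fun i => ?_) i
      · exact hp1
      · exact (mem_nb.1 (hp2 i)).1
    · refine Fin.cases ?_ (fun i => ?_) i
      · refine Fin.cases ?_ (fun i' => ?_) i'
        · intro h
          exact absurd rfl h
        · intro _
          exact (mem_nb.1 (hp2 i')).2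
      · refine Fin.cases ?_ (fun i' => ?_) i'
        · intro _
          exact (mem_nb.1 (hp2 i)).2.symm
        · intro h
          exact hp3 i i' (fun e => h (by rw [e]))
  · intro z _
    exact Fin.cons_self_tail z
  · intro p _
    rfl

end Pool.Agent.MultiTree
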