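import Pool.Agent.Helper927.MTree.Defs
import Pool.Agent.Helper927.MTree.CLQB
set_option autoImplicit false
set_option maxHeartbeats 4000000

namespace Pool.Agent.MultiTree

open Finset

/-! ### TARGET: replace the `sorry`s below by proofs (auxiliary lemmas are fine, put them in this file) -/

theorem clus0 (δ : ℝ) (hδ : 0 < δ) : ∃ γ : ℝ, 0 < γ ∧ ∃ n0 : ℕ, ∀ n : ℕ, n0 ≤ n →
    ∀ (V : Type) [Fintype V] (H : SimpleGraph V) (U : Finset V), (1 - γ) * n ≤ U.card →
      (clq H U 2 : ℝ) ≤ γ * (n : ℝ) ^ 2 → ∃ D ⊆ U, Clus Hᶜ n δ D := by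
  classical
  refine ⟨min (δ ^ 2 / 8) (δ / 4), by positivity, ⌈2 / δ⌉₊ + 1, ?_⟩
  intro n hn V _ H U hU hclq
  have hn0 : 0 < n := by omega
  have hnR : (0 : ℝ) < n := by exact_mod_cast hn0
  have hδn : 2 ≤ δ * n := by
    have h1 : 2 / δ ≤ (n : ℝ) := by
      refine (Nat.le_ceil _).trans ?_
      exact_mod_cast (by omega : ⌈2 / δ⌉₊ ≤ n)
    rw [div_le_iff₀ hδ] at h1
    linarith
  have hsum : (clq H U 2 : ℝ) = ∑ u ∈ U, ((nb H u U).card : ℝ) := by
    have h1 : clq H U 2 = ∑ u ∈ U, (nb H u U).card := by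
      rw [clq_succ H U 1]
      exact Finset.sum_congr rfl fun u _ => clq_one H (nb H u U)
    rw [h1]
    push_cast
    rfl
  obtain ⟨X, hX⟩ : ∃ X, X = U.filter (fun u => δ / 2 * n < ((nb H u U).card : ℝ)) := ⟨_, rfl⟩
  have hXU : X ⊆ U := by rw [hX]; exact Finset.filter_subset _ _
  have hXc : (X.card : ℝ) ≤ δ / 4 * n := by
    have h1 : (X.card : ℝ) * (δ / 2 * n) ≤ ∑ u ∈ X, ((nb H u U).card : ℝ) := by
      rw [← nsmul_eq_mul]
      refine Finset.card_nsmul_le_sum _ _ _ fun u hu => ?_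
      rw [hX, Finset.mem_filter] at hu
      exact hu.2.le
    have h2 : ∑ u ∈ X, ((nb H u U).card : ℝ) ≤ ∑ u ∈ U, ((nb H u U).card : ℝ) :=
      Finset.sum_le_sum_of_subset_of_nonneg hXU fun _ _ _ => Nat.cast_nonneg _
    have h3 : min (δ ^ 2 / 8) (δ / 4) * (n : ℝ) ^ 2 ≤ δ ^ 2 / 8 * (n : ℝ) ^ 2 :=
      mul_le_mul_of_nonneg_right (min_le_left _ _) (by positivity)
    have h4 : (X.card : ℝ) * (δ / 2 * n) ≤ δ / 4 * n * (δ / 2 * n) := by
      rw [hsum] at hclq
      calc (X.card : ℝ) * (δ / 2 * n) ≤ δ ^ 2 / 8 * (n : ℝ) ^ 2 := by linarith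
        _ = δ / 4 * n * (δ / 2 * n) := by ring
    exact le_of_mul_le_mul_right h4 (by positivity)
  have hWc : (1 - δ / 2) * n ≤ ((U \ X).card : ℝ) := by
    have h1 : ((U \ X).card : ℝ) = U.card - X.card := by
      rw [Finset.card_sdiff_of_subset hXU, Nat.cast_sub (Finset.card_le_card hXU)]
    have h2 : min (δ ^ 2 / 8) (δ / 4) * (n : ℝ) ≤ δ / 4 * n :=
      mul_le_mul_of_nonneg_right (min_le_right _ _) hnR.le
    rw [h1]
    nlinarith
  have hdeg : ∀ D ⊆ U \ X, ∀ d ∈ D, ((nn Hᶜ d D).card : ℝ) ≤ δ * n := by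
    intro D hD d hd
    have h1 : nn Hᶜ d D ⊆ insert d (nb H d U) := by
      intro w hw
      rw [mem_nn, SimpleGraph.compl_adj] at hw
      rw [Finset.mem_insert, mem_nb]
      by_cases hdw : w = d
      · exact Or.inl hdw
      · right
        refine ⟨(Finset.mem_sdiff.1 (hD hw.1)).1, ?_⟩
        by_contra hcon
        exact hw.2 ⟨fun h => hdw h.symm, hcon⟩
    have h2 : ((nn Hᶜ d D).card : ℝ) ≤ ((nb H d U).card : ℝ) + 1 := by
      exact_mod_cast (Finset.card_le_card h1).trans (Finset.card_insert_le _ _)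
    have h3 := Finset.mem_sdiff.1 (hD hd)
    have h4 : ((nb H d U).card : ℝ) ≤ δ / 2 * n := by
      by_contra hcon
      push Not at hcon
      apply h3.2
      rw [hX, Finset.mem_filter]
      exact ⟨h3.1, hcon⟩
    linarith
  rcases le_or_gt (U \ X).card n with hle | hgt
  · refine ⟨U \ X, Finset.sdiff_subset, ?_, hle, hdeg _ (Finset.Subset.refl _)⟩
    nlinarith
  · obtain ⟨D, hD, hDc⟩ := Finset.exists_subset_card_eq hgt.le
    refine ⟨D, hD.trans Finset.sdiff_subset, ?_, hDc.le, hdeg D hD⟩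
    rw [hDc]
    nlinarith

end Pool.Agent.MultiTree
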