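import Pool.Agent.Helper927.MTree.Defs
import Pool.Agent.Helper927.MTree.GL
import Pool.Agent.Helper927.MTree.T0
set_option autoImplicit false
set_option maxHeartbeats 4000000

namespace Pool.Agent.MultiTree

open Finset

/-! ### TARGET: replace the `sorry`s below by proofs (auxiliary lemmas are fine, put them in this file) -/

theorem f1 {n : ℕ} {V : Type} (T : SimpleGraph (Fin n)) (hT : T.IsTree) (B : SimpleGraph V)
    (W : Finset V) (hW : W.Nonempty) (h : ∀ w ∈ W, n ≤ (nb B w W).card) : T.IsContained B := by
  classical
  obtain ⟨c⟩ : Nonempty (Fin n) := hT.1.nonempty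
  obtain ⟨par, dep, hR, _, _⟩ := exists_rooted T hT c
  obtain ⟨φ, h1, h2, h3⟩ := greedy (V := V) c par dep
    (fun a ha => by have := hR.dep_par a ha; omega) (fun _ => W) (fun _ z => nb B z W)
    (fun _ _ => nb_subset) hW (by
      intro a _ z hz
      have h4 : (univ.filter (fun b : Fin n => b ≠ a ∧ dep b ≤ dep a ∧ ¬ Disjoint W W)).card ≤
          (univ.erase a).card := by
        apply Finset.card_le_card
        intro b hb
        rw [Finset.mem_filter] at hb
        exact Finset.mem_erase.mpr ⟨hb.2.1, Finset.mem_univ _⟩
      rw [Finset.card_erase_of_mem (Finset.mem_univ _), Finset.card_univ, Fintype.card_fin] at h4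
      have h5 := h z hz
      have h6 : 0 < n := by have := a.2; omega
      refine lt_of_le_of_lt h4 ?_
      omega)
  refine hR.contained φ h1 (fun a ha => ?_)
  exact (mem_nb.1 (h3 a ha)).2

end Pool.Agent.MultiTree
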