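import Pool.Agent.Helper927.MTree.Defs
import Pool.Agent.Helper927.MTree.CL0
import Pool.Agent.Helper927.MTree.CLQB
import Pool.Agent.Helper927.MTree.F1
set_option autoImplicit false
set_option maxHeartbeats 4000000

namespace Pool.Agent.MultiTree

open Finset

/-! ### TARGET: replace the `sorry`s below by proofs (auxiliary lemmas are fine, put them in this file) -/

theorem clus (j : ℕ) : ∀ δ : ℝ, 0 < δ → ∃ γ : ℝ, 0 < γ ∧ ∃ n0 : ℕ, ∀ n : ℕ, n0 ≤ n →
    ∀ T : SimpleGraph (Fin n), T.IsTree → ∀ (V : Type) [Fintype V] (H : SimpleGraph V),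
      ¬ T.IsContained Hᶜ → ∀ U : Finset V, ((j : ℝ) + 1) * (1 - γ) * n ≤ U.card →
        (clq H U (j + 2) : ℝ) ≤ γ * (n : ℝ) ^ (j + 2) → ∃ D ⊆ U, Clus Hᶜ n δ D := by
  classical
  induction j with
  | zero =>
    intro δ hδ
    obtain ⟨γ, hγ, n0, h0⟩ := clus0 δ hδ
    refine ⟨γ, hγ, n0, fun n hn T hT V _ H hH U hU hc => ?_⟩
    refine h0 n hn V H U ?_ ?_
    · simpa using hU
    · simpa using hc
  | succ j ih =>
    intro δ hδ
    obtain ⟨γ1, hγ1, n1, h1⟩ := ih δ hδ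
    set γ' : ℝ := min γ1 1 with hγ'
    have hγ'0 : 0 < γ' := lt_min hγ1 one_pos
    have hγ'1 : γ' ≤ 1 := min_le_right _ _
    have hγ'γ : γ' ≤ γ1 := min_le_left _ _
    have hj2 : (0 : ℝ) < (j : ℝ) + 2 := by positivity
    refine ⟨min (γ' / (4 * ((j : ℝ) + 2))) (γ' ^ 2 / 4), by positivity, max n1 1, ?_⟩
    intro n hn T hT V _ H hH U hU hc
    set γ : ℝ := min (γ' / (4 * ((j : ℝ) + 2))) (γ' ^ 2 / 4) with hγ
    have hγ2 : ((j : ℝ) + 2) * γ ≤ γ' / 4 := by
      have h2 : γ ≤ γ' / (4 * ((j : ℝ) + 2)) := min_le_left _ _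
      rw [le_div_iff₀ (by positivity)] at h2
      linarith
    have hγ3 : γ ≤ γ' ^ 2 / 4 := min_le_right _ _
    have hn1 : n1 ≤ n := (le_max_left _ _).trans hn
    have hn0 : 1 ≤ n := (le_max_right _ _).trans hn
    have hN : (1 : ℝ) ≤ n := by exact_mod_cast hn0
    have hN0 : (0 : ℝ) < n := by linarith
    have e : j + 1 + 2 = j + 2 + 1 := by omega
    rw [e] at hc
    set X : Finset V := flt U (fun x => γ' * (n : ℝ) ^ (j + 2) < (clq H (nb H x U) (j + 2) : ℝ)) with hX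
    have hXU : X ⊆ U := flt_subset
    have hP : (0 : ℝ) < (n : ℝ) ^ (j + 2) := by positivity
    have hXc : (X.card : ℝ) ≤ γ' / 4 * n := by
      have h2 : (X.card : ℝ) * (γ' * (n : ℝ) ^ (j + 2)) ≤ (clq H U (j + 2 + 1) : ℝ) := by
        rw [clq_succ]
        push_cast
        calc (X.card : ℝ) * (γ' * (n : ℝ) ^ (j + 2)) = ∑ _x ∈ X, γ' * (n : ℝ) ^ (j + 2) := by
              rw [Finset.sum_const, nsmul_eq_mul]
          _ ≤ ∑ x ∈ X, (clq H (nb H x U) (j + 2) : ℝ) :=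
              Finset.sum_le_sum fun x hx => (mem_flt.1 hx).2.le
          _ ≤ ∑ x ∈ U, (clq H (nb H x U) (j + 2) : ℝ) :=
              Finset.sum_le_sum_of_subset_of_nonneg hXU fun _ _ _ => Nat.cast_nonneg _
      have h3 : (X.card : ℝ) * (γ' * (n : ℝ) ^ (j + 2)) ≤
          (γ' / 4 * n) * (γ' * (n : ℝ) ^ (j + 2)) := by
        calc (X.card : ℝ) * (γ' * (n : ℝ) ^ (j + 2)) ≤ γ * (n : ℝ) ^ (j + 2 + 1) := h2.trans hc
          _ ≤ γ' ^ 2 / 4 * (n : ℝ) ^ (j + 2 + 1) :=
              mul_le_mul_of_nonneg_right hγ3 (by positivity)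
          _ = _ := by rw [pow_succ (n : ℝ) (j + 2)]; ring
      exact le_of_mul_le_mul_right h3 (by positivity)
    set W : Finset V := U \ X with hW
    have hWU : W ⊆ U := Finset.sdiff_subset
    have hWc : ((j : ℝ) + 2) * n - γ' / 2 * n ≤ W.card := by
      have h2 : W.card + X.card = U.card := Finset.card_sdiff_add_card_eq_card hXU
      have h3 : (W.card : ℝ) + X.card = U.card := by exact_mod_cast h2
      have h4 : ((j : ℝ) + 2) * (1 - γ) * n ≤ U.card := by
        refine le_trans (le_of_eq ?_) hU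
        push_cast
        ring
      have h5 : ((j : ℝ) + 2) * γ * n ≤ γ' / 4 * n := mul_le_mul_of_nonneg_right hγ2 hN0.le
      nlinarith
    have hWn : W.Nonempty := by
      rw [← Finset.card_pos]
      have h2 : (0 : ℝ) < W.card := by
        refine lt_of_lt_of_le ?_ hWc
        have h3 : γ' / 2 * (n : ℝ) ≤ 1 / 2 * n := mul_le_mul_of_nonneg_right (by linarith) hN0.le
        have h4 : (2 : ℝ) * n ≤ ((j : ℝ) + 2) * n :=
          mul_le_mul_of_nonneg_right (by have : (0:ℝ) ≤ j := Nat.cast_nonneg j; linarith) hN0.le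
        linarith
      exact_mod_cast h2
    obtain ⟨w, hw, hwn⟩ : ∃ w ∈ W, (nb Hᶜ w W).card < n := by
      by_contra hcon
      push Not at hcon
      exact hH (f1 T hT Hᶜ W hWn hcon)
    set Nw := nb H w W with hNw
    have hsub : W ⊆ insert w (Nw ∪ nb Hᶜ w W) := by
      intro x hx
      rw [Finset.mem_insert, Finset.mem_union, hNw, mem_nb, mem_nb]
      by_cases hxw : x = w
      · exact Or.inl hxw
      · right
        by_cases ha : H.Adj w x
        · exact Or.inl ⟨hx, ha⟩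
        · exact Or.inr ⟨hx, (SimpleGraph.compl_adj _ _ _).2 ⟨fun h => hxw h.symm, ha⟩⟩
    have hcard : W.card ≤ Nw.card + n := by
      have h2 := Finset.card_le_card hsub
      have h3 := Finset.card_insert_le w (Nw ∪ nb Hᶜ w W)
      have h4 := Finset.card_union_le Nw (nb Hᶜ w W)
      omega
    have hcard' : (W.card : ℝ) ≤ Nw.card + n := by exact_mod_cast hcard
    have hj0 : (0 : ℝ) ≤ j := Nat.cast_nonneg j
    obtain ⟨D, hD, hDc⟩ := h1 n hn1 T hT V H hH Nw (by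
      have h2 : ((j : ℝ) + 1) * (1 - γ1) * n ≤ ((j : ℝ) + 1) * (1 - γ') * n := by
        gcongr
      have h3 : 0 ≤ (j : ℝ) * γ' * n := by positivity
      have h4 : 0 ≤ γ' * n := by positivity
      nlinarith) (by
      have h2 : clq H Nw (j + 2) ≤ clq H (nb H w U) (j + 2) :=
        clq_mono H (nb_mono hWU) (j + 2)
      have h3 : w ∉ X := (Finset.mem_sdiff.1 hw).2
      have h4 : ¬ (γ' * (n : ℝ) ^ (j + 2) < (clq H (nb H w U) (j + 2) : ℝ)) := fun h =>
        h3 (mem_flt.2 ⟨hWU hw, h⟩)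
      push Not at h4
      calc (clq H Nw (j + 2) : ℝ) ≤ (clq H (nb H w U) (j + 2) : ℝ) := by exact_mod_cast h2
        _ ≤ γ' * (n : ℝ) ^ (j + 2) := h4
        _ ≤ γ1 * (n : ℝ) ^ (j + 2) := mul_le_mul_of_nonneg_right hγ'γ hP.le)
    exact ⟨D, hD.trans (nb_subset.trans hWU), hDc⟩

end Pool.Agent.MultiTree
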