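import Pool.Agent.Helper927.MTree.Defs
set_option autoImplicit false
set_option maxHeartbeats 4000000

namespace Pool.Agent.MultiTree

open Finset

/-! ### AVAILABLE: statements you may use; leave these `sorry`s in place (they are proved in other jobs) -/



/-! ### TARGET: replace the `sorry`s below by proofs (auxiliary lemmas are fine, put them in this file) -/

theorem f4a_part {V : Type} [DecidableEq V] (D : Finset V) :
    ∃ k : V → Fin 8, ∀ i, 8 * (D.filter (fun d => k d = i)).card ≤ D.card + 8 := by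
  classical
  let e := D.equivFin
  refine ⟨fun d => if h : d ∈ D then ⟨(e ⟨d, h⟩).val % 8, Nat.mod_lt _ (by norm_num)⟩ else 0, ?_⟩
  intro i
  show 8 * (D.filter (fun d => (if h : d ∈ D then (⟨(e ⟨d, h⟩).val % 8,
      Nat.mod_lt _ (by norm_num)⟩ : Fin 8) else 0) = i)).card ≤ D.card + 8
  have h1 : (D.filter (fun d => (if h : d ∈ D then (⟨(e ⟨d, h⟩).val % 8,
      Nat.mod_lt _ (by norm_num)⟩ : Fin 8) else 0) = i)).card ≤ (range (D.card / 8 + 1)).card := by
    apply Finset.card_le_card_of_injOn (fun d => if h : d ∈ D then (e ⟨d, h⟩).val / 8 else 0)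
    · intro d hd
      simp only [coe_filter, Set.mem_setOf_eq] at hd
      obtain ⟨hd1, hd2⟩ := hd
      simp only [dif_pos hd1, coe_range, Set.mem_Iio]
      have := (e ⟨d, hd1⟩).isLt
      omega
    · intro d hd d' hd' h
      simp only [coe_filter, Set.mem_setOf_eq] at hd hd'
      obtain ⟨hd1, hd2⟩ := hd
      obtain ⟨hd1', hd2'⟩ := hd'
      simp only [dif_pos hd1, dif_pos hd1'] at h
      rw [dif_pos hd1] at hd2
      rw [dif_pos hd1'] at hd2'
      have h3 : (e ⟨d, hd1⟩).val % 8 = (e ⟨d', hd1'⟩).val % 8 := by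
        have := hd2.trans hd2'.symm
        exact congrArg Fin.val this
      have h4 : (e ⟨d, hd1⟩).val = (e ⟨d', hd1'⟩).val := by omega
      have h5 := e.injective (Fin.ext h4)
      exact congrArg Subtype.val h5
  rw [card_range] at h1
  omega

theorem f4a_dc {V : Type} [DecidableEq V] (B : SimpleGraph V) (Q R : Finset V) :
    ∑ q ∈ Q, (nb B q R).card = ∑ d ∈ R, (nb B d Q).card := by
  classical
  have h1 : ∀ v : V, ∀ D : Finset V, (nb B v D).card = ∑ w ∈ D, if B.Adj v w then 1 else 0 := by
    intro v D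
    unfold nb
    rw [Finset.card_filter]
  simp only [h1]
  rw [Finset.sum_comm]
  refine Finset.sum_congr rfl fun x _ => Finset.sum_congr rfl fun y _ => ?_
  simp only [B.adj_comm x y]

theorem f4a {n : ℕ} {V : Type} [DecidableEq V] (B : SimpleGraph V) (D Q : Finset V)
    (η γ : ℝ) (hη : 0 < η) (hγ : 0 < γ) (hD2 : D.card ≤ n) (hQ : γ * n ≤ Q.card)
    (hQD : ∀ q ∈ Q, η * n ≤ (nb B q D).card) :
    ∃ R Q' D' : Finset V, R ⊆ D ∧ Q' ⊆ Q ∧ D' ⊆ R ∧ 8 * R.card ≤ n + 8 ∧
      γ / 8 * n ≤ Q'.card ∧ (∀ q ∈ Q', η / 8 * n ≤ (nb B q R).card) ∧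
      (∀ d ∈ D', η / 16 * Q'.card ≤ (nb B d Q').card) ∧
      (0 < Q'.card → η / 16 * n ≤ D'.card) := by
  classical
  obtain ⟨k, hk⟩ := f4a_part D
  have hq : ∀ q ∈ Q, ∃ i : Fin 8, η / 8 * n ≤ (nb B q (D.filter (fun d => k d = i))).card := by
    intro q hq
    by_contra hcon
    push Not at hcon
    have h1 : (nb B q D).card = ∑ i : Fin 8, (nb B q (D.filter (fun d => k d = i))).card := by
      rw [Finset.card_eq_sum_card_fiberwise (f := k) (t := univ) (fun _ _ => by simp)]
      refine Finset.sum_congr rfl fun i _ => ?_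
      congr 1
      ext d
      simp only [mem_filter, mem_nb]
      tauto
    have h2 : ((nb B q D).card : ℝ) < ∑ i : Fin 8, η / 8 * n := by
      rw [h1]
      push_cast
      exact Finset.sum_lt_sum_of_nonempty (by simp) fun i _ => hcon i
    have h3 := hQD q hq
    rw [Finset.sum_const, Finset.card_univ, Fintype.card_fin, nsmul_eq_mul] at h2
    push_cast at h2
    linarith
  have hq' : ∀ q, ∃ i : Fin 8, q ∈ Q → η / 8 * n ≤ (nb B q (D.filter (fun d => k d = i))).card := by
    intro q
    by_cases h : q ∈ Q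
    · obtain ⟨i, hi⟩ := hq q h
      exact ⟨i, fun _ => hi⟩
    · exact ⟨0, fun h' => absurd h' h⟩
  choose t ht using hq'
  have hi : ∃ i : Fin 8, Q.card ≤ 8 * (Q.filter (fun q => t q = i)).card := by
    by_contra hcon
    push Not at hcon
    have h1 : Q.card = ∑ i : Fin 8, (Q.filter (fun q => t q = i)).card :=
      Finset.card_eq_sum_card_fiberwise (f := t) (t := univ) (fun _ _ => by simp)
    have h2 : ∑ i : Fin 8, 8 * (Q.filter (fun q => t q = i)).card < ∑ i : Fin 8, Q.card :=
      Finset.sum_lt_sum_of_nonempty (by simp) fun i _ => hcon i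
    rw [← Finset.mul_sum, ← h1, Finset.sum_const, Finset.card_univ, Fintype.card_fin,
      smul_eq_mul] at h2
    omega
  obtain ⟨i, hi⟩ := hi
  set R := D.filter (fun d => k d = i) with hR
  set Q' := Q.filter (fun q => t q = i) with hQ'
  set D' := R.filter (fun d => η / 16 * Q'.card ≤ (nb B d Q').card) with hD'
  refine ⟨R, Q', D', filter_subset _ _, filter_subset _ _, filter_subset _ _, ?_, ?_, ?_, ?_, ?_⟩
  · have h1 : 8 * R.card ≤ D.card + 8 := hk i
    omega
  · have h1 : (Q.card : ℝ) ≤ 8 * Q'.card := by exact_mod_cast hi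
    linarith
  · intro q hq
    rw [hQ', mem_filter] at hq
    have := ht q hq.1
    rw [hq.2] at this
    exact this
  · intro d hd
    rw [hD', mem_filter] at hd
    exact hd.2
  · intro hpos
    have hdc := f4a_dc B Q' R
    have hL : (Q'.card : ℝ) * (η / 8 * n) ≤ ∑ q ∈ Q', ((nb B q R).card : ℝ) := by
      rw [← nsmul_eq_mul]
      apply Finset.card_nsmul_le_sum
      intro q hq
      rw [hQ', mem_filter] at hq
      have := ht q hq.1
      rw [hq.2] at this
      exact this
    have hRR : ∑ d ∈ R, ((nb B d Q').card : ℝ) ≤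
        (D'.card : ℝ) * Q'.card + (R.card : ℝ) * (η / 16 * Q'.card) := by
      rw [← Finset.sum_filter_add_sum_filter_not R
        (fun d => η / 16 * Q'.card ≤ (nb B d Q').card)]
      apply add_le_add
      · rw [← nsmul_eq_mul]
        apply Finset.sum_le_card_nsmul
        intro d _
        exact_mod_cast card_le_card nb_subset
      · have h1 : ∑ d ∈ R.filter (fun d => ¬ (η / 16 * (Q'.card : ℝ) ≤ ((nb B d Q').card : ℝ))),
            ((nb B d Q').card : ℝ) ≤
            ((R.filter (fun d => ¬ (η / 16 * (Q'.card : ℝ) ≤ ((nb B d Q').card : ℝ)))).card : ℝ) *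
              (η / 16 * Q'.card) := by
          rw [← nsmul_eq_mul]
          apply Finset.sum_le_card_nsmul
          intro d hd
          rw [mem_filter] at hd
          exact (not_le.1 hd.2).le
        refine h1.trans ?_
        apply mul_le_mul_of_nonneg_right _ (by positivity)
        exact_mod_cast card_le_card (filter_subset _ _)
    have hdc' : ∑ q ∈ Q', ((nb B q R).card : ℝ) = ∑ d ∈ R, ((nb B d Q').card : ℝ) := by
      exact_mod_cast hdc
    have hRn : (R.card : ℝ) ≤ n := by
      exact_mod_cast (card_le_card (filter_subset _ _)).trans hD2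
    have hQpos : (0 : ℝ) < Q'.card := by exact_mod_cast hpos
    have h5 : (R.card : ℝ) * (η / 16 * Q'.card) ≤ n * (η / 16 * Q'.card) :=
      mul_le_mul_of_nonneg_right hRn (by positivity)
    have h6 : (η / 16 * n) * Q'.card ≤ (D'.card : ℝ) * Q'.card := by
      have : (Q'.card : ℝ) * (η / 8 * n) ≤ (D'.card : ℝ) * Q'.card + n * (η / 16 * Q'.card) := by
        linarith
      nlinarith
    exact le_of_mul_le_mul_right h6 hQpos

end Pool.Agent.MultiTree
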