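import Pool.Agent.Helper927.MTree.Defs
set_option autoImplicit false
set_option maxHeartbeats 4000000

namespace Pool.Agent.MultiTree

open Finset

/-! ### AVAILABLE: statements you may use; leave these `sorry`s in place (they are proved in other jobs) -/



/-! ### TARGET: replace the `sorry`s below by proofs (auxiliary lemmas are fine, put them in this file) -/

theorem subset_third {ι : Type} [DecidableEq ι] (J : Finset ι) (s : ι → ℕ) (n : ℕ)
    (h2 : ∀ r ∈ J, 2 * s r ≤ n) (h3 : ∑ r ∈ J, s r + 1 = n) :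
    ∃ K ⊆ J, n ≤ 3 * ∑ r ∈ K, s r + 1 ∧ 6 * ∑ r ∈ K, s r ≤ 5 * n := by
  classical
  have hne : (J.powerset.filter (fun K => n ≤ 3 * ∑ r ∈ K, s r + 1)).Nonempty := by
    refine ⟨J, ?_⟩
    rw [Finset.mem_filter]
    exact ⟨Finset.mem_powerset_self J, by omega⟩
  obtain ⟨K, hK, hmin⟩ := Finset.exists_min_image _ (fun K : Finset ι => K.card) hne
  rw [Finset.mem_filter, Finset.mem_powerset] at hK
  refine ⟨K, hK.1, hK.2, ?_⟩
  rcases K.eq_empty_or_nonempty with rfl | ⟨r, hr⟩
  · simp
  · have h4 : ¬ (n ≤ 3 * ∑ x ∈ K.erase r, s x + 1) := by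
      intro hle
      have h5 := hmin (K.erase r) (by
        rw [Finset.mem_filter, Finset.mem_powerset]
        exact ⟨(Finset.erase_subset _ _).trans hK.1, hle⟩)
      have h6 := Finset.card_erase_lt_of_mem hr
      omega
    have h7 := Finset.add_sum_erase K s hr
    have h8 := h2 r (hK.1 hr)
    omega

end Pool.Agent.MultiTree
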