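import Pool.Agent.Helper927.MTree.Defs
import Pool.Agent.Helper927.MTree.CEN
import Pool.Agent.Helper927.MTree.SUBS
set_option autoImplicit false
set_option maxHeartbeats 4000000

namespace Pool.Agent.MultiTree

open Finset

/-! ### TARGET: replace the `sorry`s below by proofs (auxiliary lemmas are fine, put them in this file) -/

theorem f4b {n : ℕ} (T : SimpleGraph (Fin n)) (hT : T.IsTree) (s : ℕ) (hs : 18 * s + 1 ≤ n) :
    ∃ (c : Fin n) (par : Fin n → Fin n) (dep : Fin n → ℕ) (T1 I : Finset (Fin n)) (r : ℕ),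
      Rooted T c par dep ∧ c ∈ T1 ∧ (∀ a ∈ T1, a ≠ c → par a ∈ T1) ∧
      (∀ a, a ∉ T1 → par a ∉ T1 ∨ par a = c) ∧ 6 * T1.card ≤ 5 * n + 6 ∧
      I ⊆ T1 ∧ c ∉ I ∧ I.card = s ∧ (∀ a ∈ I, dep a % 3 = r) ∧
      ∀ a ∈ I, (univ.filter (fun b => b ≠ c ∧ par b = a)).card ≤ 1 := by
  classical
  obtain ⟨c, par, top, dep, hR, hTop, hhalf⟩ := exists_centroid T hT
  have hspec := hR.top_spec hTop
  have hn : 1 ≤ n := by omega
  set J : Finset (Fin n) := univ.filter (fun r => r ≠ c ∧ par r = c) with hJ
  set sr : Fin n → ℕ := fun r => (univ.filter (fun a => a ≠ c ∧ top a = r)).card with hsr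
  have hfib : ∀ K : Finset (Fin n), (univ.filter (fun a => a ≠ c ∧ top a ∈ K)).card = ∑ r ∈ K, sr r := by
    intro K
    rw [Finset.card_eq_sum_card_fiberwise (f := top) (t := K)]
    · refine Finset.sum_congr rfl fun r hr => ?_
      rw [hsr]
      congr 1
      ext a
      simp only [Finset.mem_filter, Finset.mem_univ, true_and]
      constructor
      · rintro ⟨⟨h1, h2⟩, h3⟩; exact ⟨h1, h3⟩
      · rintro ⟨h1, h3⟩; exact ⟨⟨h1, h3 ▸ hr⟩, h3⟩
    · intro a ha
      simp only [Finset.coe_filter, Finset.mem_univ, true_and, Set.mem_setOf_eq] at ha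
      exact ha.2
  have hJall : (univ.filter (fun a => a ≠ c ∧ top a ∈ J)) = univ.erase c := by
    ext a
    simp only [Finset.mem_filter, Finset.mem_univ, true_and, Finset.mem_erase, and_true, hJ]
    constructor
    · exact fun h => h.1
    · intro h
      exact ⟨h, (hspec a h).1, (hspec a h).2.1⟩
  have hsum : ∑ r ∈ J, sr r + 1 = n := by
    rw [← hfib J, hJall, Finset.card_erase_of_mem (Finset.mem_univ c), Finset.card_univ,
      Fintype.card_fin]
    omega
  obtain ⟨K, hKJ, hK1, hK2⟩ := subset_third J sr n (fun r _ => hhalf r) hsum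
  rw [← hfib K] at hK1 hK2
  set F : Finset (Fin n) := univ.filter (fun a => a ≠ c ∧ top a ∈ K) with hF
  have memF : ∀ a, a ∈ F ↔ a ≠ c ∧ top a ∈ K := by
    intro a; simp [hF]
  have hcF : c ∉ F := by
    rw [memF]; exact fun h => h.1 rfl
  set ch : Fin n → Finset (Fin n) := fun a => univ.filter (fun b => b ≠ c ∧ par b = a) with hch
  set L : Finset (Fin n) := F.filter (fun a => (ch a).card ≤ 1) with hL
  -- children
  have hchF : ∀ a ∈ F, ch a ⊆ F.filter (fun b => par b = a) := by
    intro a ha b hb
    simp only [hch, Finset.mem_filter, Finset.mem_univ, true_and] at hb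
    rw [Finset.mem_filter, memF]
    refine ⟨⟨hb.1, ?_⟩, hb.2⟩
    have hac := ((memF a).1 ha).1
    rw [hTop.two b hb.1 (by rw [hb.2]; exact hac), hb.2]
    exact ((memF a).1 ha).2
  have hchsum : ∑ a ∈ F, (ch a).card ≤ F.card := by
    calc ∑ a ∈ F, (ch a).card ≤ ∑ a ∈ F, (F.filter (fun b => par b = a)).card :=
          Finset.sum_le_sum fun a ha => Finset.card_le_card (hchF a ha)
      _ = (F.filter (fun b => par b ∈ F)).card := by
          rw [Finset.card_eq_sum_card_fiberwise (f := par) (t := F)]
          · refine Finset.sum_congr rfl fun a ha => ?_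
            congr 1
            ext b
            simp only [Finset.mem_filter]
            constructor
            · rintro ⟨h1, h2⟩; exact ⟨⟨h1, h2 ▸ ha⟩, h2⟩
            · rintro ⟨⟨h1, _⟩, h2⟩; exact ⟨h1, h2⟩
          · intro a ha
            simp only [Finset.coe_filter, Set.mem_setOf_eq] at ha
            exact ha.2
      _ ≤ F.card := Finset.card_filter_le _ _
  have hLF : L.card + (F \ L).card = F.card := by
    rw [Finset.card_sdiff_of_subset (Finset.filter_subset _ _)]
    have := Finset.card_le_card (Finset.filter_subset (fun a => (ch a).card ≤ 1) F)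
    rw [hL]
    omega
  have hFL : 2 * (F \ L).card ≤ F.card := by
    calc 2 * (F \ L).card = ∑ _a ∈ F \ L, 2 := by rw [Finset.sum_const, smul_eq_mul, mul_comm]
      _ ≤ ∑ a ∈ F \ L, (ch a).card := by
          refine Finset.sum_le_sum fun a ha => ?_
          rw [Finset.mem_sdiff] at ha
          by_contra h
          exact ha.2 (Finset.mem_filter.2 ⟨ha.1, by omega⟩)
      _ ≤ ∑ a ∈ F, (ch a).card := Finset.sum_le_sum_of_subset Finset.sdiff_subset
      _ ≤ F.card := hchsum
  -- residues
  have hres : L.card = ∑ r ∈ Finset.range 3, (L.filter (fun a => dep a % 3 = r)).card := by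
    apply Finset.card_eq_sum_card_fiberwise (f := fun a => dep a % 3) (t := Finset.range 3)
    intro a _
    simp only [Finset.coe_range, Set.mem_Iio]
    omega
  rw [Finset.sum_range_succ, Finset.sum_range_succ, Finset.sum_range_one] at hres
  have hex : ∃ r, s ≤ (L.filter (fun a => dep a % 3 = r)).card := by
    by_contra hno
    push Not at hno
    have h0 := hno 0
    have h1 := hno 1
    have h2 := hno 2
    omega
  obtain ⟨r, hr⟩ := hex
  obtain ⟨I, hI, hIc⟩ := Finset.exists_subset_card_eq hr
  refine ⟨c, par, dep, insert c F, I, r, hR, Finset.mem_insert_self _ _, ?_, ?_, ?_, ?_, ?_, hIc, ?_, ?_⟩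
  · intro a ha hac
    rw [Finset.mem_insert] at ha ⊢
    rcases ha with ha | ha
    · exact absurd ha hac
    · by_cases hp : par a = c
      · exact Or.inl hp
      · right
        rw [memF]
        refine ⟨hp, ?_⟩
        rw [← hTop.two a hac hp]
        exact ((memF a).1 ha).2
  · intro a ha
    rw [Finset.mem_insert, not_or, memF] at ha
    by_cases hp : par a = c
    · exact Or.inr hp
    · left
      rw [Finset.mem_insert, not_or, memF]
      refine ⟨hp, ?_⟩
      rintro ⟨_, h2⟩
      rw [← hTop.two a ha.1 hp] at h2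
      exact ha.2 ⟨ha.1, h2⟩
  · rw [Finset.card_insert_of_notMem hcF]
    omega
  · intro a ha
    have h1 := Finset.mem_filter.1 (hI ha)
    exact Finset.mem_insert_of_mem (Finset.mem_filter.1 h1.1).1
  · intro hc
    have h1 := Finset.mem_filter.1 (hI hc)
    exact hcF (Finset.mem_filter.1 h1.1).1
  · intro a ha
    exact (Finset.mem_filter.1 (hI ha)).2
  · intro a ha
    have h1 := Finset.mem_filter.1 (hI ha)
    exact (Finset.mem_filter.1 h1.1).2

end Pool.Agent.MultiTree
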