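import Pool.Agent.Helper927.MTree.Defs
import Pool.Agent.Helper927.MTree.GL
set_option autoImplicit false
set_option maxHeartbeats 4000000

namespace Pool.Agent.MultiTree

open Finset

/-! ### TARGET: replace the `sorry`s below by proofs (auxiliary lemmas are fine, put them in this file) -/

theorem f4c {n : ℕ} {V : Type} [DecidableEq V] (T : SimpleGraph (Fin n)) (B : SimpleGraph V)
    (c : Fin n) (par : Fin n → Fin n) (dep : Fin n → ℕ) (T1 I : Finset (Fin n)) (r s e : ℕ)
    (hR : Rooted T c par dep) (hc : c ∈ T1) (hT1 : ∀ a ∈ T1, a ≠ c → par a ∈ T1)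
    (hT2 : ∀ a, a ∉ T1 → par a ∉ T1 ∨ par a = c)
    (hI : I ⊆ T1) (hcI : c ∉ I) (hIs : I.card = s) (hdep : ∀ a ∈ I, dep a % 3 = r)
    (hch : ∀ a ∈ I, (univ.filter (fun b => b ≠ c ∧ par b = a)).card ≤ 1)
    (D Q R D' : Finset V) (hDQ : Disjoint D Q) (hRD : R ⊆ D) (hDR : D' ⊆ R)
    (hdeg : ∀ d ∈ D, (nn B d D).card ≤ e)
    (h1 : ∀ d ∈ D', s ≤ (nb B d Q).card)
    (h2 : ∀ q ∈ Q, 2 * s + 1 ≤ (nb B q R).card)
    (h3 : 2 * s + e + 1 ≤ D'.card)
    (h4 : T1.card + R.card + e + 1 ≤ D.card)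
    (h5 : n + e ≤ D.card + s) (hs : 1 ≤ s) :
    T.IsContained B := by
  classical
  obtain ⟨P, hPdef⟩ : ∃ P, P = I.image par := ⟨_, rfl⟩
  obtain ⟨Y, hYdef⟩ : ∃ Y : Finset (Fin n), Y = univ.filter (fun a => a ≠ c ∧ par a ∈ I) :=
    ⟨_, rfl⟩
  have memP : ∀ a, a ∈ P ↔ ∃ b ∈ I, par b = a := fun a => by rw [hPdef, Finset.mem_image]
  have memY : ∀ a, a ∈ Y ↔ a ≠ c ∧ par a ∈ I := fun a => by rw [hYdef]; simp
  have hneI : ∀ b ∈ I, b ≠ c := fun b hb h => hcI (h ▸ hb)
  have cardP : P.card ≤ s := by rw [hPdef, ← hIs]; exact Finset.card_image_le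
  have cardY : Y.card ≤ s := by
    have hsub : Y ⊆ I.biUnion (fun a => univ.filter (fun b => b ≠ c ∧ par b = a)) := by
      intro b hb
      obtain ⟨hb1, hb2⟩ := (memY b).1 hb
      rw [Finset.mem_biUnion]
      exact ⟨par b, hb2, Finset.mem_filter.2 ⟨Finset.mem_univ _, hb1, rfl⟩⟩
    calc Y.card ≤ (I.biUnion (fun a => univ.filter (fun b => b ≠ c ∧ par b = a))).card :=
          Finset.card_le_card hsub
      _ ≤ ∑ a ∈ I, (univ.filter (fun b => b ≠ c ∧ par b = a)).card := Finset.card_biUnion_le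
      _ ≤ ∑ a ∈ I, 1 := Finset.sum_le_sum hch
      _ = s := by rw [Finset.sum_const, smul_eq_mul, mul_one, hIs]
  have depP : ∀ a ∈ P, (dep a + 1) % 3 = r := by
    intro a ha
    obtain ⟨b, hb, rfl⟩ := (memP a).1 ha
    have h1 := hR.dep_par b (hneI b hb)
    have h2 := hdep b hb
    rw [h1] at h2
    exact h2
  have depY : ∀ a ∈ Y, dep a = dep (par a) + 1 ∧ dep (par a) % 3 = r := by
    intro a ha
    obtain ⟨h1, h2⟩ := (memY a).1 ha
    exact ⟨hR.dep_par a h1, hdep _ h2⟩
  have dIP : ∀ a ∈ P, a ∉ I := by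
    intro a ha hI'
    have h1 := depP a ha
    have h2 := hdep a hI'
    omega
  have dIY : ∀ a ∈ Y, a ∉ I := by
    intro a ha hI'
    obtain ⟨h1, h3⟩ := depY a ha
    have h2 := hdep a hI'
    omega
  have dPY : ∀ a ∈ Y, a ∉ P := by
    intro a ha hP'
    obtain ⟨h1, h3⟩ := depY a ha
    have h2 := depP a hP'
    omega
  have hPT : ∀ a ∈ P, a ∈ T1 := by
    intro a ha
    obtain ⟨b, hb, rfl⟩ := (memP a).1 ha
    exact hT1 b (hI hb) (hneI b hb)
  have hYT : ∀ a ∈ Y, a ∈ T1 := by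
    intro a ha
    by_contra hn
    obtain ⟨h1, h2⟩ := (memY a).1 ha
    rcases hT2 a hn with h | h
    · exact h (hI h2)
    · exact hcI (h ▸ h2)
  -- the zones
  obtain ⟨Zone, zI, zP, zY, zT, zO⟩ : ∃ Z : Fin n → Finset V, (∀ a ∈ I, Z a = Q) ∧
      (∀ a ∈ P, Z a = D') ∧ (∀ a ∈ Y, Z a = R) ∧
      (∀ a ∈ T1, a ∉ I → a ∉ P → a ∉ Y → Z a = D \ R) ∧ (∀ a, a ∉ T1 → Z a = D) := by
    refine ⟨fun a => if a ∈ I then Q else if a ∈ P then D' else if a ∈ Y then R else
      if a ∈ T1 then D \ R else D, ?_, ?_, ?_, ?_, ?_⟩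
    · intro a ha
      exact if_pos ha
    · intro a ha
      simp only
      rw [if_neg (dIP a ha), if_pos ha]
    · intro a ha
      simp only
      rw [if_neg (dIY a ha), if_neg (dPY a ha), if_pos ha]
    · intro a ha h1 h2 h3
      simp only
      rw [if_neg h1, if_neg h2, if_neg h3, if_pos ha]
    · intro a ha
      simp only
      rw [if_neg (fun h => ha (hI h)), if_neg (fun h => ha (hPT a h)),
        if_neg (fun h => ha (hYT a h)), if_neg ha]
  have zD : ∀ b, b ∉ I → Zone b ⊆ D := by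
    intro b hb
    by_cases h1 : b ∈ P
    · rw [zP b h1]; exact hDR.trans hRD
    by_cases h2 : b ∈ Y
    · rw [zY b h2]; exact hRD
    by_cases h3 : b ∈ T1
    · rw [zT b h3 hb h1 h2]; exact Finset.sdiff_subset
    · rw [zO b h3]
  have hDRcard : D.card ≤ (D \ R).card + R.card := by
    have := Finset.card_sdiff_add_card_inter D R
    have h2 := Finset.card_le_card (Finset.inter_subset_right (s₁ := D) (s₂ := R))
    omega
  have hnb : ∀ z ∈ D, ∀ E ⊆ D, E.card ≤ (nb B z E).card + e := by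
    intro z hz E hE
    have h1 := nb_add_nn B z E
    have h2 := Finset.card_le_card (nn_mono (G := B) (v := z) hE)
    have h3 := hdeg z hz
    omega
  obtain ⟨ρ, hρ1, hρ2⟩ : ∃ ρ : Fin n → ℕ, (∀ a ∈ T1, ρ a = dep a) ∧
      (∀ a, a ∉ T1 → ρ a = n + dep a) :=
    ⟨fun a => if a ∈ T1 then dep a else n + dep a, fun a ha => if_pos ha, fun a ha => if_neg ha⟩
  have hρ : ∀ a, a ≠ c → ρ (par a) < ρ a := by
    intro a ha
    have hd := hR.dep_par a ha
    by_cases hT : a ∈ T1
    · rw [hρ1 a hT, hρ1 _ (hT1 a hT ha)]; omega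
    · rw [hρ2 a hT]
      rcases hT2 a hT with h | h
      · rw [hρ2 _ h]; omega
      · rw [h, hρ1 c hc, hR.dep_c]; omega
  have hbT : ∀ a ∈ T1, ∀ b, ρ b ≤ ρ a → b ∈ T1 := by
    intro a ha b hb
    by_contra hn
    rw [hρ1 a ha, hρ2 b hn] at hb
    have := hR.dep_lt a
    omega
  -- conflicts with subsets of `R`
  have hconfR : ∀ a ∈ T1, ∀ E ⊆ R, (univ.filter (fun b => b ≠ a ∧ ρ b ≤ ρ a ∧
      ¬ Disjoint (Zone b) E)).card < 2 * s + 1 := by
    intro a ha E hE
    have hsub : (univ.filter (fun b => b ≠ a ∧ ρ b ≤ ρ a ∧ ¬ Disjoint (Zone b) E)) ⊆ P ∪ Y := by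
      intro b hb
      obtain ⟨-, -, hb2, hb3⟩ := Finset.mem_filter.1 hb
      have hbT1 := hbT a ha b hb2
      by_contra hn
      rw [Finset.mem_union, not_or] at hn
      apply hb3
      by_cases hbI : b ∈ I
      · rw [zI b hbI]
        exact (hDQ.mono_left (hE.trans hRD)).symm
      · rw [zT b hbT1 hbI hn.1 hn.2]
        exact Finset.sdiff_disjoint.mono_right hE
    have h1 := Finset.card_le_card hsub
    have h2 := Finset.card_union_le P Y
    omega
  have key : ∀ a, a ≠ c → ∀ z ∈ Zone (par a),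
      (univ.filter (fun b => b ≠ a ∧ ρ b ≤ ρ a ∧ ¬ Disjoint (Zone b) (Zone a))).card <
        (nb B z (Zone a)).card := by
    intro a hac z hz
    by_cases haI : a ∈ I
    · -- case 1
      have hpP : par a ∈ P := (memP _).2 ⟨a, haI, rfl⟩
      rw [zP _ hpP] at hz
      rw [zI a haI]
      have hsub : (univ.filter (fun b => b ≠ a ∧ ρ b ≤ ρ a ∧ ¬ Disjoint (Zone b) Q)) ⊆
          I.erase a := by
        intro b hb
        obtain ⟨-, hb1, -, hb3⟩ := Finset.mem_filter.1 hb
        refine Finset.mem_erase.2 ⟨hb1, ?_⟩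
        by_contra hbI
        exact hb3 (hDQ.mono_left (zD b hbI))
      have e1 := Finset.card_le_card hsub
      rw [Finset.card_erase_of_mem haI, hIs] at e1
      have e2 := h1 z hz
      omega
    by_cases haP : a ∈ P
    · -- case 2
      have hd := hR.dep_par a hac
      have hpI : par a ∉ I := by
        intro h
        have e1 := hdep _ h
        have e2 := depP a haP
        omega
      have hzD := zD _ hpI hz
      rw [zP a haP]
      have e1 := hconfR a (hPT a haP) D' hDR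
      have e2 := hnb z hzD D' (hDR.trans hRD)
      omega
    by_cases haY : a ∈ Y
    · -- case 3
      obtain ⟨-, hpI⟩ := (memY a).1 haY
      rw [zI _ hpI] at hz
      rw [zY a haY]
      have e1 := hconfR a (hYT a haY) R (Finset.Subset.refl _)
      have e2 := h2 z hz
      omega
    have hpI : par a ∉ I := fun h => haY ((memY a).2 ⟨hac, h⟩)
    have hzD := zD _ hpI hz
    by_cases haT : a ∈ T1
    · -- case 4
      rw [zT a haT haI haP haY]
      have hsub : (univ.filter (fun b => b ≠ a ∧ ρ b ≤ ρ a ∧ ¬ Disjoint (Zone b) (D \ R))) ⊆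
          T1 := by
        intro b hb
        obtain ⟨-, -, hb2, -⟩ := Finset.mem_filter.1 hb
        exact hbT a haT b hb2
      have e1 := Finset.card_le_card hsub
      have e2 := hnb z hzD (D \ R) Finset.sdiff_subset
      omega
    · -- case 5
      rw [zO a haT]
      have hsub : (univ.filter (fun b => b ≠ a ∧ ρ b ≤ ρ a ∧ ¬ Disjoint (Zone b) D)) ⊆
          (insert a I)ᶜ := by
        intro b hb
        obtain ⟨-, hb1, -, hb3⟩ := Finset.mem_filter.1 hb
        rw [Finset.mem_compl, Finset.mem_insert, not_or]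
        refine ⟨hb1, fun hbI => hb3 ?_⟩
        rw [zI b hbI]
        exact hDQ.symm
      have e1 := Finset.card_le_card hsub
      rw [Finset.card_compl, Fintype.card_fin, Finset.card_insert_of_notMem haI, hIs] at e1
      have e3 : (insert a I).card ≤ n := by
        have := Finset.card_le_univ (insert a I)
        rwa [Fintype.card_fin] at this
      rw [Finset.card_insert_of_notMem haI, hIs] at e3
      have e2 := hnb z hzD D (Finset.Subset.refl _)
      omega
  have hcne : (Zone c).Nonempty := by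
    rw [← Finset.card_pos]
    by_cases hP : c ∈ P
    · rw [zP c hP]; omega
    · rw [zT c hc hcI hP (fun h => ((memY c).1 h).1 rfl)]; omega
  obtain ⟨φ, hφ, -, hφ2⟩ := greedy c par ρ hρ Zone (fun a z => nb B z (Zone a))
    (fun a z => nb_subset) hcne key
  exact hR.contained φ hφ (fun a ha => (mem_nb.1 (hφ2 a ha)).2)

end Pool.Agent.MultiTree
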