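import Pool.Agent.Helper927.MTree.Defs
import Pool.Agent.Helper927.MTree.F4A
import Pool.Agent.Helper927.MTree.F4B
import Pool.Agent.Helper927.MTree.F4C
set_option autoImplicit false
set_option maxHeartbeats 4000000

namespace Pool.Agent.MultiTree

open Finset

/-! ### TARGET: replace the `sorry`s below by proofs (auxiliary lemmas are fine, put them in this file) -/

theorem f4 {n : ℕ} {V : Type} [DecidableEq V] (T : SimpleGraph (Fin n)) (hT : T.IsTree)
    (B : SimpleGraph V) (D Q : Finset V) (hdisj : Disjoint D Q) (δ η γ : ℝ)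
    (hη : 0 < η) (hη1 : η ≤ 1) (hγ : 0 < γ) (hγ1 : γ ≤ 1) (hδ : 1000 * δ ≤ η * γ)
    (hn : 10 ≤ δ * n) (hD : Clus B n δ D) (hQ : γ * n ≤ Q.card)
    (hQD : ∀ q ∈ Q, η * n ≤ (nb B q D).card) : T.IsContained B := by
  have hn0 : (0 : ℝ) ≤ n := Nat.cast_nonneg n
  have hδ0 : 0 < δ := by
    by_contra hcon
    have h1 : δ * n ≤ 0 := mul_nonpos_of_nonpos_of_nonneg (not_lt.1 hcon) hn0
    linarith
  have hηγ : η * γ ≤ 1 := mul_le_one₀ hη1 hγ.le hγ1
  have hηγ' : η * γ ≤ η := by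
    calc η * γ ≤ η * 1 := mul_le_mul_of_nonneg_left hγ1 hη.le
      _ = η := mul_one η
  have hδ1 : 1000 * (δ * n) ≤ n := by
    have h1 : 1000 * δ * n ≤ 1 * n := mul_le_mul_of_nonneg_right (hδ.trans hηγ) hn0
    linarith
  have hδ2 : 1000 * (δ * n) ≤ η * γ * n := by
    have h1 : 1000 * δ * n ≤ η * γ * n := mul_le_mul_of_nonneg_right hδ hn0
    linarith
  have hδ3 : 1000 * (δ * n) ≤ η * n := by
    have h1 : 1000 * δ * n ≤ η * n := mul_le_mul_of_nonneg_right (hδ.trans hηγ') hn0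
    linarith
  set x : ℝ := δ * n with hx
  have hx10 : 10 ≤ x := hn
  have hn4 : (10000 : ℝ) ≤ n := by linarith
  obtain ⟨R, Q', D', hRD, hQ'Q, hDR, hRc, hQ'c, hqR, hdQ, hD'c⟩ :=
    f4a B D Q η γ hη hγ hD.up hQ hQD
  set s : ℕ := ⌈3 * x⌉₊ with hs
  set e : ℕ := ⌊x⌋₊ with he
  have hs1 : 3 * x ≤ s := Nat.le_ceil _
  have hs2 : (s : ℝ) < 3 * x + 1 := Nat.ceil_lt_add_one (by linarith)
  have he1 : (e : ℝ) ≤ x := Nat.floor_le (by linarith)
  have h18 : 18 * s + 1 ≤ n := by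
    have : ((18 * s + 1 : ℕ) : ℝ) ≤ n := by push_cast; linarith
    exact_mod_cast this
  obtain ⟨c, par, dep, T1, I, r, hR, hc, hT1, hT2, hT1c, hI, hcI, hIs, hdep, hch⟩ :=
    f4b T hT s h18
  have hQ'pos : 0 < Q'.card := by
    have h1 : (0 : ℝ) < γ / 8 * n := by positivity
    have h2 : (0 : ℝ) < Q'.card := lt_of_lt_of_le h1 hQ'c
    exact_mod_cast h2
  have hD'c' := hD'c hQ'pos
  have hDlow := hD.low
  have hDlow' : (n : ℝ) - x ≤ D.card := by
    have h1 : (1 - δ) * n = n - x := by rw [hx]; ring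
    linarith
  refine f4c T B c par dep T1 I r s e hR hc hT1 hT2 hI hcI hIs hdep hch D Q' R D'
    (Finset.disjoint_of_subset_right hQ'Q hdisj) hRD hDR ?_ ?_ ?_ ?_ ?_ ?_ ?_
  · intro d hd
    exact Nat.le_floor (hD.deg d hd)
  · intro d hd
    have h1 := hdQ d hd
    have h2 : η / 16 * (γ / 8 * n) ≤ η / 16 * Q'.card :=
      mul_le_mul_of_nonneg_left hQ'c (by linarith)
    have h3 : η / 16 * (γ / 8 * n) = η * γ * n / 128 := by ring
    have h4 : (s : ℝ) ≤ (nb B d Q').card := by linarith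
    exact_mod_cast h4
  · intro q hq
    have h1 := hqR q hq
    have h3 : η / 8 * n = η * n / 8 := by ring
    have h4 : ((2 * s + 1 : ℕ) : ℝ) ≤ (nb B q R).card := by push_cast; linarith
    exact_mod_cast h4
  · have h3 : η / 16 * n = η * n / 16 := by ring
    have h4 : ((2 * s + e + 1 : ℕ) : ℝ) ≤ D'.card := by push_cast; linarith
    exact_mod_cast h4
  · have h1 : (6 : ℝ) * T1.card ≤ 5 * n + 6 := by exact_mod_cast hT1c
    have h2 : (8 : ℝ) * R.card ≤ n + 8 := by exact_mod_cast hRc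
    have h4 : ((T1.card + R.card + e + 1 : ℕ) : ℝ) ≤ D.card := by push_cast; linarith
    exact_mod_cast h4
  · have h4 : ((n + e : ℕ) : ℝ) ≤ ((D.card + s : ℕ) : ℝ) := by push_cast; linarith
    exact_mod_cast h4
  · have h4 : ((1 : ℕ) : ℝ) ≤ s := by push_cast; linarith
    exact_mod_cast h4

end Pool.Agent.MultiTree
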