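import Pool.Agent.Helper927.MTree.Defs
import Pool.Agent.Helper927.MTree.CLQE
import Pool.Agent.Helper927.MTree.CLS
import Pool.Agent.Helper927.MTree.F4
set_option autoImplicit false
set_option maxHeartbeats 4000000

namespace Pool.Agent.MultiTree

open Finset

/-! ### TARGET: replace the `sorry`s below by proofs (auxiliary lemmas are fine, put them in this file) -/

theorem st (p : ℕ) : ∀ δ η : ℝ, 0 < δ → 0 < η → ∃ γ : ℝ, 0 < γ ∧ ∃ n0 : ℕ, ∀ n : ℕ, n0 ≤ n →
    ∀ T : SimpleGraph (Fin n), T.IsTree → ∀ (V : Type) [Fintype V] (H : SimpleGraph V),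
      ¬ T.IsContained Hᶜ → ∀ U : Finset V, (p : ℝ) * (1 - γ) * n ≤ U.card →
        (clq H U (p + 1) : ℝ) ≤ γ * (n : ℝ) ^ (p + 1) →
          ∃ D : Fin p → Finset V, (∀ i, D i ⊆ U ∧ Clus Hᶜ n δ (D i)) ∧
            (∀ i j, i ≠ j → Disjoint (D i) (D j)) ∧
            ∀ i j, i < j → ∀ d ∈ D j, ((nb Hᶜ d (D i)).card : ℝ) ≤ η * n := by
  classical
  induction p with
  | zero =>
    intro δ η hδ hη
    refine ⟨1, one_pos, 0, ?_⟩
    intro n hn T hT V _ H hH U hU hc
    exact ⟨Fin.elim0, fun i => i.elim0, fun i => i.elim0, fun i => i.elim0⟩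
  | succ p ih =>
    intro δ η hδ hη
    obtain ⟨γ0, hγ0, n1, hn1⟩ := ih δ η hδ hη
    set γ1 : ℝ := min γ0 1 with hγ1def
    have hγ1 : 0 < γ1 := lt_min hγ0 one_pos
    have hγ1le : γ1 ≤ 1 := min_le_right _ _
    have hγ10 : γ1 ≤ γ0 := min_le_left _ _
    have hp1 : (0:ℝ) < (p:ℝ) + 1 := by positivity
    set η' : ℝ := min (min η 1) (1 / (4 * ((p:ℝ) + 1))) with hη'def
    have hη' : 0 < η' := lt_min (lt_min hη one_pos) (by positivity)
    have hη'1 : η' ≤ 1 := (min_le_left _ _).trans (min_le_right _ _)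
    have hη'η : η' ≤ η := (min_le_left _ _).trans (min_le_left _ _)
    have hη'p : ((p:ℝ) + 1) * η' ≤ 1 / 4 := by
      have h1 : η' ≤ 1 / (4 * ((p:ℝ) + 1)) := min_le_right _ _
      have h2 : ((p:ℝ) + 1) * η' ≤ ((p:ℝ) + 1) * (1 / (4 * ((p:ℝ) + 1))) :=
        mul_le_mul_of_nonneg_left h1 hp1.le
      have h3 : ((p:ℝ) + 1) * (1 / (4 * ((p:ℝ) + 1))) = 1 / 4 := by
        field_simp
      linarith
    set γ'' : ℝ := γ1 / 4 with hγ''def
    have hγ'' : 0 < γ'' := by positivity
    have hγ''1 : γ'' ≤ 1 := by rw [hγ''def]; linarith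
    set δ' : ℝ := min (min δ (1 / 8)) (η' * γ'' / 1000) with hδ'def
    have hδ' : 0 < δ' := lt_min (lt_min hδ (by norm_num)) (by positivity)
    have hδ'δ : δ' ≤ δ := (min_le_left _ _).trans (min_le_left _ _)
    have hδ'8 : δ' ≤ 1 / 8 := (min_le_left _ _).trans (min_le_right _ _)
    have hδ'η : 1000 * δ' ≤ η' * γ'' := by
      have : δ' ≤ η' * γ'' / 1000 := min_le_right _ _
      linarith
    obtain ⟨γ2, hγ2, n2, hn2⟩ := clus p δ' hδ'
    set γ : ℝ := min γ2 (γ1 / (4 * ((p:ℝ) + 1))) with hγdef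
    have hγ : 0 < γ := lt_min hγ2 (by positivity)
    have hγγ2 : γ ≤ γ2 := min_le_left _ _
    have hγp : ((p:ℝ) + 1) * γ ≤ γ1 / 4 := by
      have h1 : γ ≤ γ1 / (4 * ((p:ℝ) + 1)) := min_le_right _ _
      have h2 : ((p:ℝ) + 1) * γ ≤ ((p:ℝ) + 1) * (γ1 / (4 * ((p:ℝ) + 1))) :=
        mul_le_mul_of_nonneg_left h1 hp1.le
      have h3 : ((p:ℝ) + 1) * (γ1 / (4 * ((p:ℝ) + 1))) = γ1 / 4 := by
        field_simp
      linarith
    have hγ4 : γ ≤ γ1 / 4 := by
      have h1 : (0:ℝ) ≤ (p:ℝ) * γ := by positivity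
      linarith
    refine ⟨γ, hγ, max (max n1 n2) (max ⌈10 / δ'⌉₊ 8), ?_⟩
    intro n hn T hT V _ H hH U hU hc
    have hnn1 : n1 ≤ n := le_trans (le_trans (le_max_left _ _) (le_max_left _ _)) hn
    have hnn2 : n2 ≤ n := le_trans (le_trans (le_max_right _ _) (le_max_left _ _)) hn
    have hn8 : 8 ≤ n := le_trans (le_trans (le_max_right _ _) (le_max_right _ _)) hn
    have hnδ : ⌈10 / δ'⌉₊ ≤ n := le_trans (le_trans (le_max_left _ _) (le_max_right _ _)) hn
    have hn8' : (8:ℝ) ≤ n := by exact_mod_cast hn8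
    have hn0 : (0:ℝ) < n := by linarith
    have hδn : 10 ≤ δ' * n := by
      have h1 : 10 / δ' ≤ n := Nat.ceil_le.1 hnδ
      rw [div_le_iff₀ hδ'] at h1
      linarith
    have hnpow : (0:ℝ) ≤ (n:ℝ) ^ (p + 1) := by positivity
    have hnpow' : (0:ℝ) < (n:ℝ) ^ (p + 1) := by positivity
    have hnpow2 : (0:ℝ) ≤ (n:ℝ) ^ (p + 2) := by positivity
    push_cast at hU
    have hc' : (clq H U (p + 2) : ℝ) ≤ γ * (n:ℝ) ^ (p + 2) := hc
    obtain ⟨D, hDU, hD⟩ := hn2 n hnn2 T hT V H hH U (by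
      refine le_trans ?_ hU
      refine mul_le_mul_of_nonneg_right ?_ hn0.le
      refine mul_le_mul_of_nonneg_left ?_ hp1.le
      linarith) (hc'.trans (mul_le_mul_of_nonneg_right hγγ2 hnpow2))
    set Q : Finset V := (U \ D).filter (fun a => η' * n ≤ ((nb Hᶜ a D).card : ℝ)) with hQdef
    have hQ : (Q.card : ℝ) < γ'' * n := by
      by_contra hcon
      rw [not_lt] at hcon
      refine hH (f4 T hT Hᶜ D Q ?_ δ' η' γ'' hη' hη'1 hγ'' hγ''1 hδ'η hδn hD hcon ?_)
      · rw [Finset.disjoint_left]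
        intro a ha hq
        rw [hQdef, Finset.mem_filter, Finset.mem_sdiff] at hq
        exact hq.1.2 ha
      · intro q hq
        rw [hQdef, Finset.mem_filter] at hq
        exact hq.2
    set A : Finset V := (U \ D) \ Q with hAdef
    have hAU : A ⊆ U := by
      intro a ha
      rw [hAdef, Finset.mem_sdiff, Finset.mem_sdiff] at ha
      exact ha.1.1
    have hQU : Q ⊆ U \ D := Finset.filter_subset _ _
    have c1 : A.card + Q.card = (U \ D).card := Finset.card_sdiff_add_card_eq_card hQU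
    have c2 : (U \ D).card + D.card = U.card := Finset.card_sdiff_add_card_eq_card hDU
    have c1' : (A.card : ℝ) + Q.card = ((U \ D).card : ℝ) := by exact_mod_cast c1
    have c2' : ((U \ D).card : ℝ) + D.card = U.card := by exact_mod_cast c2
    have hDn : (D.card : ℝ) ≤ n := by exact_mod_cast hD.up
    have hAcard : (p:ℝ) * (1 - γ1) * n ≤ A.card := by
      rcases Nat.eq_zero_or_pos p with hp | hp
      · rw [hp]
        have : (0:ℝ) ≤ (A.card : ℝ) := Nat.cast_nonneg _
        simpa using this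
      · have hpr : (1:ℝ) ≤ p := by exact_mod_cast hp
        have e1 : ((p:ℝ) + 1) * (1 - γ) * n = ((p:ℝ) + 1) * n - (((p:ℝ) + 1) * γ) * n := by ring
        have e2 : (((p:ℝ) + 1) * γ) * n ≤ γ1 / 4 * n := mul_le_mul_of_nonneg_right hγp hn0.le
        have e3 : (p:ℝ) * (1 - γ1) * n = (p:ℝ) * n - (p * γ1) * n := by ring
        have e4 : γ1 * n ≤ ((p:ℝ) * γ1) * n := by
          refine mul_le_mul_of_nonneg_right ?_ hn0.le
          nlinarith
        have e5 : γ'' * n = γ1 / 4 * n := by rw [hγ''def]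
        have e6 : 0 < γ1 * n := by positivity
        rw [e3]
        rw [e1] at hU
        nlinarith
    -- few non-neighbours
    set e : ℕ := ⌊η' * n⌋₊ with hedef
    have he : ∀ a ∈ A, (nn H a D).card ≤ e := by
      intro a ha
      rw [hAdef, Finset.mem_sdiff, Finset.mem_sdiff] at ha
      have haD : a ∉ D := ha.1.2
      have h1 : nn H a D = nb Hᶜ a D := by
        ext w
        rw [mem_nn, mem_nb, SimpleGraph.compl_adj]
        constructor
        · rintro ⟨hw, hn⟩
          exact ⟨hw, fun h => haD (h ▸ hw), hn⟩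
        · rintro ⟨hw, -, hn⟩
          exact ⟨hw, hn⟩
      have h2 : ¬ (η' * n ≤ ((nb Hᶜ a D).card : ℝ)) := by
        intro h
        apply ha.2
        rw [hQdef, Finset.mem_filter]
        exact ⟨Finset.mem_sdiff.2 ha.1, h⟩
      rw [h1]
      exact Nat.le_floor (not_le.1 h2).le
    set K : ℕ := (n + 1) / 2 with hKdef
    have hK1 : n ≤ 2 * K := by omega
    have hK2 : 2 * K ≤ n + 1 := by omega
    have hK1' : (n:ℝ) ≤ 2 * K := by exact_mod_cast hK1
    have hK2' : 2 * (K:ℝ) ≤ n + 1 := by exact_mod_cast hK2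
    have heR : (e:ℝ) ≤ η' * n := Nat.floor_le (by positivity)
    have hKe : K + (p + 1) * e ≤ D.card := by
      have h1 : (1 - δ') * n ≤ D.card := hD.low
      have h2 : ((p:ℝ) + 1) * e ≤ 1 / 4 * n := by
        calc ((p:ℝ) + 1) * e ≤ ((p:ℝ) + 1) * (η' * n) := mul_le_mul_of_nonneg_left heR hp1.le
          _ = (((p:ℝ) + 1) * η') * n := by ring
          _ ≤ 1 / 4 * n := mul_le_mul_of_nonneg_right hη'p hn0.le
      have h3 : δ' * n ≤ 1 / 8 * n := mul_le_mul_of_nonneg_right hδ'8 hn0.le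
      have h4 : (K:ℝ) + ((p:ℝ) + 1) * e ≤ D.card := by
        nlinarith
      exact_mod_cast h4
    have hext := clq_ext H U A D hAU hDU (p + 1) e K he hKe
    have hext' : (clq H A (p + 1) : ℝ) * K ≤ clq H U (p + 2) := by exact_mod_cast hext
    have hclqA : (clq H A (p + 1) : ℝ) ≤ γ1 * (n:ℝ) ^ (p + 1) := by
      have h0 : (0:ℝ) ≤ (clq H A (p + 1) : ℝ) := Nat.cast_nonneg _
      have h1 : (clq H A (p + 1) : ℝ) * (n / 2) ≤ γ * (n:ℝ) ^ (p + 2) := by
        refine le_trans ?_ (hext'.trans hc')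
        exact mul_le_mul_of_nonneg_left (by linarith) h0
      have h2 : γ * (n:ℝ) ^ (p + 2) = (γ * (n:ℝ) ^ (p + 1)) * n := by ring
      rw [h2] at h1
      have h3 : (clq H A (p + 1) : ℝ) ≤ 2 * (γ * (n:ℝ) ^ (p + 1)) := by
        by_contra hcon
        rw [not_le] at hcon
        have h4 : 2 * (γ * (n:ℝ) ^ (p + 1)) * (n / 2) < (clq H A (p + 1) : ℝ) * (n / 2) :=
          mul_lt_mul_of_pos_right hcon (by linarith)
        linarith
      refine h3.trans ?_
      have h5 : γ * (n:ℝ) ^ (p + 1) ≤ γ1 / 4 * (n:ℝ) ^ (p + 1) :=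
        mul_le_mul_of_nonneg_right hγ4 hnpow
      have h6 : 0 < γ1 * (n:ℝ) ^ (p + 1) := by positivity
      linarith
    obtain ⟨D', hD'1, hD'2, hD'3⟩ := hn1 n hnn1 T hT V H hH A (by
      refine le_trans ?_ hAcard
      refine mul_le_mul_of_nonneg_right ?_ hn0.le
      refine mul_le_mul_of_nonneg_left ?_ (Nat.cast_nonneg _)
      linarith) (hclqA.trans (mul_le_mul_of_nonneg_right hγ10 hnpow))
    have hdis : ∀ i, Disjoint D (D' i) := by
      intro i
      rw [Finset.disjoint_left]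
      intro a ha ha'
      have h1 := (hD'1 i).1 ha'
      rw [hAdef, Finset.mem_sdiff, Finset.mem_sdiff] at h1
      exact h1.1.2 ha
    refine ⟨Fin.cons D D', ?_, ?_, ?_⟩
    · intro i
      refine Fin.cases ?_ (fun i => ?_) i
      · rw [Fin.cons_zero]
        exact ⟨hDU, hD.mono hδ'δ⟩
      · rw [Fin.cons_succ]
        exact ⟨(hD'1 i).1.trans hAU, (hD'1 i).2⟩
    · intro i j
      refine Fin.cases ?_ (fun i => ?_) i
      · refine Fin.cases ?_ (fun j => ?_) j
        · intro h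
          exact (h rfl).elim
        · intro _
          rw [Fin.cons_zero, Fin.cons_succ]
          exact hdis j
      · refine Fin.cases ?_ (fun j => ?_) j
        · intro _
          rw [Fin.cons_zero, Fin.cons_succ]
          exact (hdis i).symm
        · intro h
          rw [Fin.cons_succ, Fin.cons_succ]
          exact hD'2 i j (fun hij => h (by rw [hij]))
    · intro i j
      refine Fin.cases ?_ (fun i => ?_) i
      · refine Fin.cases ?_ (fun j => ?_) j
        · intro h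
          exact (lt_irrefl _ h).elim
        · intro _ d hd
          rw [Fin.cons_succ] at hd
          rw [Fin.cons_zero]
          have h1 := (hD'1 j).1 hd
          rw [hAdef, Finset.mem_sdiff] at h1
          have h2 : ¬ (η' * n ≤ ((nb Hᶜ d D).card : ℝ)) := by
            intro h
            apply h1.2
            rw [hQdef, Finset.mem_filter]
            exact ⟨h1.1, h⟩
          refine (not_le.1 h2).le.trans ?_
          exact mul_le_mul_of_nonneg_right hη'η hn0.le
      · refine Fin.cases ?_ (fun j => ?_) j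
        · intro h
          exact (Fin.not_lt_zero _ h).elim
        · intro h d hd
          rw [Fin.cons_succ] at hd
          rw [Fin.cons_succ]
          exact hD'3 i j (Fin.succ_lt_succ_iff.1 h) d hd

end Pool.Agent.MultiTree
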