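import Pool.Agent.Helper927.MTree.Defs
import Pool.Agent.Helper927.MTree.BOXC
import Pool.Agent.Helper927.MTree.F3
import Pool.Agent.Helper927.MTree.FL
import Pool.Agent.Helper927.MTree.MONO
import Pool.Agent.Helper927.MTree.ST
set_option autoImplicit false
set_option maxHeartbeats 4000000

namespace Pool.Agent.MultiTree

open Finset

/-! ### TARGET: replace the `sorry`s below by proofs (auxiliary lemmas are fine, put them in this file) -/

theorem main_big (q : ℕ) (hq : 1 ≤ q) (m : Fin (q + 2) → ℕ) (hm : ∀ i, 1 ≤ m i) :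
    ∃ n0 : ℕ, ∀ n : ℕ, n0 ≤ n → ∀ T : SimpleGraph (Fin n), T.IsTree → ∀ R : ℕ, n ≤ R →
      R ≤ 2 * n →
      (∀ H : SimpleGraph (Fin R),
        (completeBipartiteGraph (Fin (m 0)) (Fin (m 1))).IsContained H ∨ T.IsContained Hᶜ) →
      ∀ (V : Type) [Fintype V] (H : SimpleGraph V), Fintype.card V = (q + 1) * (R - 1) + 1 →
        HasM H m ∨ T.IsContained Hᶜ := by
  obtain ⟨θ1, hθ1, ηc, hηc, N1, hfl⟩ := fl q hq m hm
  set M : ℕ := ∑ i, m i with hM
  set θ' : ℝ := min θ1 1 with hθ'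
  have hθ'0 : 0 < θ' := lt_min hθ1 one_pos
  have hθ'1 : θ' ≤ 1 := min_le_right _ _
  have hθ'θ : θ' ≤ θ1 := min_le_left _ _
  set θ : ℝ := θ' / 4 with hθ
  set δ : ℝ := min (θ' / 16) (1 / 24) with hδ
  have hδ0 : 0 < δ := lt_min (by positivity) (by norm_num)
  have hδ1 : δ ≤ θ' / 16 := min_le_left _ _
  have hδ2 : δ ≤ 1 / 24 := min_le_right _ _
  set η : ℝ := ηc / 2 with hη
  have hη0 : 0 < η := by positivity
  obtain ⟨γ, hγ, n1, hst⟩ := st (q + 1) δ η hδ0 hη0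
  have hε : 0 < γ / (2 * ((q : ℝ) + 1)) ^ (q + 2) := by positivity
  obtain ⟨N2, hN2⟩ := box_clq (q + 2) M (γ / (2 * ((q : ℝ) + 1)) ^ (q + 2)) hε
  refine ⟨n1 + N2 + 2 * N1 + ⌈1 / δ⌉₊ + ⌈1 / γ⌉₊ + ⌈2 * ((q : ℝ) + 1) / θ'⌉₊ + 1, ?_⟩
  intro n hn T hT R hnR hR2 hR V _ H hcard
  classical
  by_contra hcon
  have hnoM : ¬ HasM H m := fun h => hcon (Or.inl h)
  have hnoT : ¬ T.IsContained Hᶜ := fun h => hcon (Or.inr h)
  -- numerical facts about n
  have hnδ : 1 / δ ≤ (n : ℝ) := (Nat.le_ceil _).trans (by exact_mod_cast (by omega : ⌈1 / δ⌉₊ ≤ n))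
  have hnγ : 1 / γ ≤ (n : ℝ) := (Nat.le_ceil _).trans (by exact_mod_cast (by omega : ⌈1 / γ⌉₊ ≤ n))
  have hnθ : 2 * ((q : ℝ) + 1) / θ' ≤ (n : ℝ) :=
    (Nat.le_ceil _).trans (by exact_mod_cast (by omega : ⌈2 * ((q : ℝ) + 1) / θ'⌉₊ ≤ n))
  have hδn : 1 ≤ δ * n := by
    rw [div_le_iff₀ hδ0] at hnδ
    linarith
  have hγn : 1 ≤ γ * n := by
    rw [div_le_iff₀ hγ] at hnγ
    linarith
  have hθn : 2 * ((q : ℝ) + 1) ≤ θ' * n := by
    rw [div_le_iff₀ hθ'0] at hnθ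
    linarith
  have hn1 : 1 ≤ n := by omega
  have hR1 : 1 ≤ R := by omega
  have hn0 : (0 : ℝ) < n := by exact_mod_cast hn1
  -- card V
  obtain ⟨R', rfl⟩ : ∃ R', R = R' + 1 := ⟨R - 1, by omega⟩
  have hcard' : Fintype.card V = (q + 1) * R' + 1 := by rw [hcard]; simp
  have hcardR : (Fintype.card V : ℝ) = ((q : ℝ) + 1) * R' + 1 := by rw [hcard']; push_cast; ring
  have hR'n : (n : ℝ) ≤ R' + 1 := by exact_mod_cast hnR
  have hR'2 : (R' : ℝ) + 1 ≤ 2 * n := by exact_mod_cast hR2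
  have hq0 : (0 : ℝ) ≤ q := Nat.cast_nonneg q
  have hcard_up : (Fintype.card V : ℝ) ≤ 2 * ((q : ℝ) + 1) * n := by
    rw [hcardR]
    have h1 : ((q : ℝ) + 1) * (R' + 1) ≤ ((q : ℝ) + 1) * (2 * n) :=
      mul_le_mul_of_nonneg_left hR'2 (by positivity)
    nlinarith
  have hcard_low : ((q + 1 : ℕ) : ℝ) * (1 - γ) * n ≤ Fintype.card V := by
    rw [hcardR]
    push_cast
    have h1 : ((q : ℝ) + 1) * (n : ℝ) ≤ ((q : ℝ) + 1) * (R' + 1) :=
      mul_le_mul_of_nonneg_left hR'n (by positivity)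
    have h2 : ((q : ℝ) + 1) * 1 ≤ ((q : ℝ) + 1) * (γ * n) :=
      mul_le_mul_of_nonneg_left hγn (by positivity)
    nlinarith
  have hcard_N2 : N2 ≤ Fintype.card V := by
    rw [hcard']
    have : R' ≤ (q + 1) * R' := Nat.le_mul_of_pos_left _ (by omega)
    omega
  -- no big complete multipartite graph
  have hnoM' : ¬ HasM H (fun _ : Fin (q + 2) => M) := by
    intro h
    apply hnoM
    refine HasM.mono h ?_
    intro i
    exact Finset.single_le_sum (f := m) (fun _ _ => Nat.zero_le _) (Finset.mem_univ i)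
  have hclq : (clq H univ (q + 2) : ℝ) ≤ γ * (n : ℝ) ^ (q + 2) := by
    have h1 := hN2 V hcard_N2 H hnoM'
    refine h1.le.trans ?_
    have h2 : (Fintype.card V : ℝ) ^ (q + 2) ≤ (2 * ((q : ℝ) + 1) * n) ^ (q + 2) :=
      pow_le_pow_left₀ (Nat.cast_nonneg _) hcard_up _
    calc γ / (2 * ((q : ℝ) + 1)) ^ (q + 2) * (Fintype.card V : ℝ) ^ (q + 2)
        ≤ γ / (2 * ((q : ℝ) + 1)) ^ (q + 2) * (2 * ((q : ℝ) + 1) * n) ^ (q + 2) :=
          mul_le_mul_of_nonneg_left h2 hε.le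
      _ = γ * (n : ℝ) ^ (q + 2) := by
          rw [mul_pow (2 * ((q : ℝ) + 1)) (n : ℝ)]
          have : (2 * ((q : ℝ) + 1)) ^ (q + 2) ≠ 0 := by positivity
          field_simp
  obtain ⟨D, hD, hdisj, hcross⟩ := hst n (by omega) T hT V H hnoT univ
    (by rw [Finset.card_univ]; exact hcard_low) (by exact hclq)
  -- each vertex
  have hv : ∀ v, ∑ i, ((nb Hᶜ v (D i)).card : ℝ) < (1 + θ) * n := by
    intro v
    by_contra hge
    push Not at hge
    exact hnoT (f3 T hT Hᶜ (q + 1) D hdisj δ θ (by linarith) (by rw [hθ]; linarith) hδn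
      (fun i => (hD i).2) v hge)
  set N : ℕ := ⌈(1 - δ) * n⌉₊ with hN
  have hNle : ∀ i, N ≤ (D i).card := fun i => Nat.ceil_le.2 (hD i).2.low
  have hNge : (1 - δ) * n ≤ (N : ℝ) := Nat.le_ceil _
  have hN2' : (n : ℝ) / 2 ≤ N := by
    have : (1 / 2 : ℝ) * n ≤ (1 - δ) * n := mul_le_mul_of_nonneg_right (by linarith) hn0.le
    linarith
  have hNN1 : N1 ≤ N := by
    have h1 : (2 * N1 : ℕ) ≤ n := by omega
    have h2 : (2 * (N1 : ℝ)) ≤ n := by exact_mod_cast h1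
    have h3 : (N1 : ℝ) ≤ N := by linarith
    exact_mod_cast h3
  have hN0 : (0 : ℝ) < N := by linarith
  choose D' hD'sub hD'card using fun i => Finset.exists_subset_card_eq (hNle i)
  -- the key mass bound
  have hmass : ∀ v, ∑ i, bb H D' N i v ≤ 1 + θ1 := by
    intro v
    have h1 : ∀ i, ((nn H v (D' i)).card : ℝ) ≤ ((nb Hᶜ v (D i)).card : ℝ) + 1 := by
      intro i
      have hsub : nn H v (D' i) ⊆ insert v (nb Hᶜ v (D i)) := by
        intro w hw
        rw [mem_nn] at hw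
        rw [Finset.mem_insert, mem_nb, SimpleGraph.compl_adj]
        by_cases hwv : w = v
        · exact Or.inl hwv
        · exact Or.inr ⟨hD'sub i hw.1, fun h => hwv h.symm, hw.2⟩
      have hc := (Finset.card_le_card hsub).trans (Finset.card_insert_le _ _)
      exact_mod_cast hc
    have h2 : ∑ i, bb H D' N i v = (∑ i, ((nn H v (D' i)).card : ℝ)) / N := by
      unfold bb
      rw [Finset.sum_div]
    rw [h2, div_le_iff₀ hN0]
    have h3 : ∑ i, ((nn H v (D' i)).card : ℝ) ≤ ∑ i : Fin (q + 1), (((nb Hᶜ v (D i)).card : ℝ) + 1) :=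
      Finset.sum_le_sum (fun i _ => h1 i)
    have h4 : ∑ i : Fin (q + 1), (((nb Hᶜ v (D i)).card : ℝ) + 1) =
        ∑ i, ((nb Hᶜ v (D i)).card : ℝ) + ((q : ℝ) + 1) := by
      rw [Finset.sum_add_distrib]
      simp
    have h5 := hv v
    have h6 : (1 + θ') * ((1 - δ) * n) ≤ (1 + θ1) * N :=
      mul_le_mul (by linarith) hNge (mul_nonneg (by linarith) hn0.le) (by linarith)
    have h7 : (1 + θ) * n + ((q : ℝ) + 1) ≤ (1 + θ') * ((1 - δ) * n) := by
      have h8 : (5 / 8) * θ' ≤ (1 + θ') * (1 - δ) - (1 + θ) := by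
        rw [hθ]
        nlinarith
      have h9 : (5 / 8) * θ' * n ≤ ((1 + θ') * (1 - δ) - (1 + θ)) * n :=
        mul_le_mul_of_nonneg_right h8 hn0.le
      nlinarith
    linarith
  have hcross' : ∀ i j, i < j → ∀ d ∈ D' j, ((nn H d (D' i)).card : ℝ) ≤ ηc * N := by
    intro i j hij d hd
    have hdj : d ∈ D j := hD'sub j hd
    have hdi : d ∉ D i := fun h => Finset.disjoint_left.1 (hdisj i j (ne_of_lt hij)) h hdj
    have hsub : nn H d (D' i) ⊆ nb Hᶜ d (D i) := by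
      intro w hw
      rw [mem_nn] at hw
      rw [mem_nb, SimpleGraph.compl_adj]
      refine ⟨hD'sub i hw.1, ?_, hw.2⟩
      rintro rfl
      exact hdi (hD'sub i hw.1)
    have h1 : ((nn H d (D' i)).card : ℝ) ≤ ((nb Hᶜ d (D i)).card : ℝ) := by
      exact_mod_cast Finset.card_le_card hsub
    have h2 := hcross i j hij d hdj
    have h3 : η * n ≤ ηc * N := by
      rw [hη]
      nlinarith
    linarith
  obtain ⟨S, hS, hK⟩ := hfl N hNN1 V H D' hD'card hcross' hmass hnoM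
  have hex : ∃ i, R' + 1 ≤ (S i).card := by
    by_contra hno
    push Not at hno
    have h1 : ∑ i, (S i).card ≤ ∑ _i : Fin (q + 1), R' :=
      Finset.sum_le_sum (fun i _ => by have := hno i; omega)
    rw [Finset.sum_const, Finset.card_univ, Fintype.card_fin, smul_eq_mul] at h1
    omega
  obtain ⟨i, hi⟩ := hex
  rcases mono_prop T (m 0) (m 1) hR H (S i) hi with h | h
  · exact hK i h
  · exact hnoT h

end Pool.Agent.MultiTree
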