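import Pool.Agent.Helper927.MTree.Defs
set_option autoImplicit false
set_option maxHeartbeats 4000000

namespace Pool.Agent.MultiTree

open Finset

/-! ### AVAILABLE: statements you may use; leave these `sorry`s in place (they are proved in other jobs) -/



/-! ### TARGET: replace the `sorry`s below by proofs (auxiliary lemmas are fine, put them in this file) -/

theorem inj_of_card {V : Type} (A : Finset V) (k : ℕ) (h : k ≤ A.card) :
    ∃ e : Fin k → V, Function.Injective e ∧ ∀ x, e x ∈ A := by
  refine ⟨fun x => (A.equivFin.symm (Fin.castLE h x) : A), ?_, fun x => ?_⟩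
  · intro x y hxy
    have h1 := A.equivFin.symm.injective (Subtype.ext hxy)
    exact Fin.castLE_injective h h1
  · exact (A.equivFin.symm (Fin.castLE h x)).2

theorem hasM_contained {V : Type} (H : SimpleGraph V) {q : ℕ} (m : Fin q → ℕ) (h : HasM H m) :
    (SimpleGraph.completeMultipartiteGraph (fun i : Fin q => Fin (m i))).IsContained H := by
  obtain ⟨A, hA, hadj⟩ := h
  choose e he hmem using fun i => inj_of_card (A i) (m i) (hA i).ge
  refine ⟨⟨⟨fun v => e v.1 v.2, fun {v w} hvw => ?_⟩, ?_⟩⟩
  · have hne : v.1 ≠ w.1 := by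
      simpa [SimpleGraph.completeMultipartiteGraph] using hvw
    exact hadj v.1 w.1 hne _ (hmem _ _) _ (hmem _ _)
  · rintro ⟨i, x⟩ ⟨j, y⟩ hxy
    have hxy' : e i x = e j y := hxy
    by_cases hij : i = j
    · subst hij
      rw [he i hxy']
    · have := hadj i j hij _ (hmem i x) _ (hmem j y)
      rw [hxy'] at this
      exact absurd this (H.irrefl)

theorem hasM2_bip {V : Type} (H : SimpleGraph V) (M a b : ℕ) (h : HasM H (fun _ : Fin 2 => M))
    (ha : a ≤ M) (hb : b ≤ M) : (completeBipartiteGraph (Fin a) (Fin b)).IsContained H := by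
  obtain ⟨A, hA, hadj⟩ := h
  obtain ⟨e0, he0, hm0⟩ := inj_of_card (A 0) a (by rw [hA 0]; exact ha)
  obtain ⟨e1, he1, hm1⟩ := inj_of_card (A 1) b (by rw [hA 1]; exact hb)
  have hadj' : ∀ x y, H.Adj (e0 x) (e1 y) := fun x y =>
    hadj 0 1 (by decide) _ (hm0 x) _ (hm1 y)
  refine ⟨⟨⟨Sum.elim e0 e1, fun {v w} hvw => ?_⟩, ?_⟩⟩
  · rcases v with x | x <;> rcases w with y | y <;>
      simp [completeBipartiteGraph] at hvw
    · exact hadj' x y
    · exact (hadj' y x).symm
  · rintro (x | x) (y | y) hxy
    · exact congrArg _ (he0 hxy)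
    · have := hadj' x y
      have hxy' : e0 x = e1 y := hxy
      rw [hxy'] at this
      exact absurd this H.irrefl
    · have := hadj' y x
      have hxy' : e1 x = e0 y := hxy
      rw [hxy'] at this
      exact absurd this H.irrefl
    · exact congrArg _ (he1 hxy)

end Pool.Agent.MultiTree
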