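import Mathlib
set_option autoImplicit false
set_option maxHeartbeats 4000000

namespace Pool.Agent.MultiTree
open Finset

/-- neighbours of `v` inside `D` -/
noncomputable def nb {V : Type} (G : SimpleGraph V) (v : V) (D : Finset V) : Finset V := by
  classical exact D.filter (fun w => G.Adj v w)

/-- non-neighbours of `v` inside `D` (including `v` itself if `v ∈ D`) -/
noncomputable def nn {V : Type} (G : SimpleGraph V) (v : V) (D : Finset V) : Finset V := by
  classical exact D.filter (fun w => ¬ G.Adj v w)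

theorem mem_nb {V : Type} {G : SimpleGraph V} {v : V} {D : Finset V} {w : V} :
    w ∈ nb G v D ↔ w ∈ D ∧ G.Adj v w := by
  classical
  unfold nb
  rw [Finset.mem_filter]

theorem mem_nn {V : Type} {G : SimpleGraph V} {v : V} {D : Finset V} {w : V} :
    w ∈ nn G v D ↔ w ∈ D ∧ ¬ G.Adj v w := by
  classical
  unfold nn
  rw [Finset.mem_filter]

theorem nb_subset {V : Type} {G : SimpleGraph V} {v : V} {D : Finset V} : nb G v D ⊆ D :=
  fun _ h => (mem_nb.1 h).1

theorem nn_subset {V : Type} {G : SimpleGraph V} {v : V} {D : Finset V} : nn G v D ⊆ D :=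
  fun _ h => (mem_nn.1 h).1

theorem nb_mono {V : Type} {G : SimpleGraph V} {v : V} {D E : Finset V} (h : D ⊆ E) :
    nb G v D ⊆ nb G v E := fun _ hw => mem_nb.2 ⟨h (mem_nb.1 hw).1, (mem_nb.1 hw).2⟩

theorem nn_mono {V : Type} {G : SimpleGraph V} {v : V} {D E : Finset V} (h : D ⊆ E) :
    nn G v D ⊆ nn G v E := fun _ hw => mem_nn.2 ⟨h (mem_nn.1 hw).1, (mem_nn.1 hw).2⟩

theorem nb_add_nn {V : Type} (G : SimpleGraph V) (v : V) (D : Finset V) :
    (nb G v D).card + (nn G v D).card = D.card := by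
  classical
  unfold nb nn
  exact Finset.card_filter_add_card_filter_not _

/-- filter without decidability instances -/
noncomputable def flt {α : Type} (s : Finset α) (P : α → Prop) : Finset α := by
  classical exact s.filter P

theorem mem_flt {α : Type} {s : Finset α} {P : α → Prop} {a : α} :
    a ∈ flt s P ↔ a ∈ s ∧ P a := by
  classical
  unfold flt
  rw [Finset.mem_filter]

theorem flt_eq {α : Type} (s : Finset α) (P : α → Prop) [DecidablePred P] :
    flt s P = s.filter P := by
  ext a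
  rw [mem_flt, Finset.mem_filter]

theorem flt_subset {α : Type} {s : Finset α} {P : α → Prop} : flt s P ⊆ s :=
  fun _ h => (mem_flt.1 h).1

/-- rooted structure of a tree on `Fin n`: root `c`, parent map, depth -/
structure Rooted {n : ℕ} (T : SimpleGraph (Fin n)) (c : Fin n) (par : Fin n → Fin n)
    (dep : Fin n → ℕ) : Prop where
  dep_c : dep c = 0
  dep_par : ∀ a, a ≠ c → dep a = dep (par a) + 1
  dep_lt : ∀ a, dep a < n
  adj : ∀ a b, T.Adj a b → (a ≠ c ∧ par a = b) ∨ (b ≠ c ∧ par b = a)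

/-- `top a` is the child of the root `c` above `a` (for `a ≠ c`) -/
structure Topped {n : ℕ} (c : Fin n) (par top : Fin n → Fin n) : Prop where
  one : ∀ a, a ≠ c → par a = c → top a = a
  two : ∀ a, a ≠ c → par a ≠ c → top a = top (par a)

theorem contained_of {n : ℕ} {V : Type} {T : SimpleGraph (Fin n)} {B : SimpleGraph V}
    (φ : Fin n → V) (hφ : Function.Injective φ) (h : ∀ a b, T.Adj a b → B.Adj (φ a) (φ b)) :
    T.IsContained B :=
  ⟨⟨⟨φ, fun {a b} hab => h a b hab⟩, hφ⟩⟩

theorem Rooted.contained {n : ℕ} {V : Type} {T : SimpleGraph (Fin n)} {B : SimpleGraph V}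
    {c : Fin n} {par : Fin n → Fin n} {dep : Fin n → ℕ} (hR : Rooted T c par dep)
    (φ : Fin n → V) (hφ : Function.Injective φ)
    (h : ∀ a, a ≠ c → B.Adj (φ (par a)) (φ a)) : T.IsContained B := by
  refine contained_of φ hφ ?_
  intro a b hab
  rcases hR.adj a b hab with ⟨ha, rfl⟩ | ⟨hb, rfl⟩
  · exact (h a ha).symm
  · exact h b hb

theorem Rooted.dep_eq_zero {n : ℕ} {T : SimpleGraph (Fin n)}
    {c : Fin n} {par : Fin n → Fin n} {dep : Fin n → ℕ} (hR : Rooted T c par dep)
    {a : Fin n} (h : dep a = 0) : a = c := by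
  by_contra hne
  have := hR.dep_par a hne
  omega

theorem Rooted.top_spec {n : ℕ} {T : SimpleGraph (Fin n)}
    {c : Fin n} {par top : Fin n → Fin n} {dep : Fin n → ℕ} (hR : Rooted T c par dep)
    (hT : Topped c par top) : ∀ a, a ≠ c → top a ≠ c ∧ par (top a) = c ∧ top (top a) = top a := by
  have key : ∀ d : ℕ, ∀ a, dep a = d → a ≠ c → top a ≠ c ∧ par (top a) = c ∧ top (top a) = top a := by
    intro d
    induction d using Nat.strong_induction_on with
    | _ d ih =>
      intro a hd ha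
      by_cases hp : par a = c
      · have := hT.one a ha hp
        rw [this]
        exact ⟨ha, hp, this⟩
      · rw [hT.two a ha hp]
        exact ih (dep (par a)) (by have := hR.dep_par a ha; omega) (par a) rfl hp
  exact fun a ha => key (dep a) a rfl ha

/-- number of ordered cliques with `j` vertices in `U` (as functions `Fin j → V`) -/
noncomputable def clq {V : Type} [Fintype V] (H : SimpleGraph V) (U : Finset V) (j : ℕ) : ℕ :=
  (flt (univ : Finset (Fin j → V))
    (fun x => (∀ i, x i ∈ U) ∧ ∀ i i', i ≠ i' → H.Adj (x i) (x i'))).card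

/-- `D` is a `δ`-cluster for the (blue) graph `B` and trees on `n` vertices -/
structure Clus {V : Type} (B : SimpleGraph V) (n : ℕ) (δ : ℝ) (D : Finset V) : Prop where
  low : (1 - δ) * n ≤ D.card
  up : D.card ≤ n
  deg : ∀ d ∈ D, ((nn B d D).card : ℝ) ≤ δ * n

theorem Clus.mono {V : Type} {B : SimpleGraph V} {n : ℕ} {δ δ' : ℝ} {D : Finset V}
    (h : Clus B n δ D) (hd : δ ≤ δ') : Clus B n δ' D := by
  have hn : (0:ℝ) ≤ n := Nat.cast_nonneg n
  refine ⟨le_trans ?_ h.low, h.up, fun d hd' => (h.deg d hd').trans ?_⟩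
  · exact mul_le_mul_of_nonneg_right (by linarith) hn
  · exact mul_le_mul_of_nonneg_right hd hn

/-- `H` contains a complete multipartite graph with parts of sizes `m i` -/
def HasM {V : Type} (H : SimpleGraph V) {q : ℕ} (m : Fin q → ℕ) : Prop :=
  ∃ A : Fin q → Finset V, (∀ i, (A i).card = m i) ∧
    ∀ i j, i ≠ j → ∀ x ∈ A i, ∀ y ∈ A j, H.Adj x y

theorem HasM.mono {V : Type} {H : SimpleGraph V} {q : ℕ} {m m' : Fin q → ℕ}
    (h : HasM H m') (hm : ∀ i, m i ≤ m' i) : HasM H m := by
  obtain ⟨A, hA, hadj⟩ := h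
  have : ∀ i, ∃ B ⊆ A i, B.card = m i := fun i =>
    Finset.exists_subset_card_eq (by rw [hA i]; exact hm i)
  choose B hB hc using this
  exact ⟨B, hc, fun i j hij x hx y hy => hadj i j hij x (hB i hx) y (hB j hy)⟩

/-- `H` contains a complete bipartite graph with parts of sizes `a`, `b` inside `S` -/
def HasK {V : Type} (H : SimpleGraph V) (S : Finset V) (a b : ℕ) : Prop :=
  ∃ A B : Finset V, A ⊆ S ∧ B ⊆ S ∧ A.card = a ∧ B.card = b ∧ ∀ x ∈ A, ∀ y ∈ B, H.Adj x y

/-- proportion of non-neighbours of `v` in a set of size `N` -/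
noncomputable def bb {V : Type} (H : SimpleGraph V) {p : ℕ} (D : Fin p → Finset V) (N : ℕ)
    (i : Fin p) (v : V) : ℝ := ((nn H v (D i)).card : ℝ) / N

/-- the class of `z` in `Dj`: same adjacency pattern to `Y` -/
noncomputable def cl {V : Type} (H : SimpleGraph V) (Dj Y : Finset V) (z : V) : Finset V :=
  flt Dj (fun z' => ∀ y ∈ Y, (H.Adj y z' ↔ H.Adj y z))

/-- vertices with two large proportions -/
noncomputable def YY {V : Type} [Fintype V] (H : SimpleGraph V) {p : ℕ} (D : Fin p → Finset V)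
    (N : ℕ) (η : ℝ) : Finset V :=
  flt univ (fun v => ∃ i j, i ≠ j ∧ η ≤ bb H D N i v ∧ η ≤ bb H D N j v)

/-- sum of the non-main proportions -/
noncomputable def mass {V : Type} (H : SimpleGraph V) {p : ℕ} (D : Fin p → Finset V)
    (N : ℕ) (ix : V → Fin p) (v : V) : ℝ := ∑ j ∈ univ.erase (ix v), bb H D N j v

/-- bound for the number of exceptional vertices -/
noncomputable def CC (p m0 : ℕ) (η : ℝ) : ℕ := ⌈2 * (m0 : ℝ) / (η / 2) ^ p⌉₊

/-- class size constant -/
noncomputable def cc (p m0 : ℕ) (η : ℝ) : ℝ :=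
  1 / (4 * p * 2 ^ (CC p m0 η) * ((CC p m0 η : ℝ) + 1))

/-- the sequence of scales -/
noncomputable def eta (p m0 h : ℕ) : ℕ → ℝ
  | 0 => 1 / (2 * m0)
  | t + 1 => min (eta p m0 h t) (cc p m0 (eta p m0 h t) / (2 * h))

end Pool.Agent.MultiTree
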