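import Pool.Agent.Helper927.MTree.Defs
import Pool.Agent.Helper927.MTree.BOXC
import Pool.Agent.Helper927.MTree.CLQB
import Pool.Agent.Helper927.MTree.F1
set_option autoImplicit false
set_option maxHeartbeats 4000000

namespace Pool.Agent.MultiTree

open Finset

/-! ### TARGET: replace the `sorry`s below by proofs (auxiliary lemmas are fine, put them in this file) -/

theorem r2 (M : ℕ) : ∃ n0 : ℕ, ∀ n : ℕ, n0 ≤ n → ∀ T : SimpleGraph (Fin n), T.IsTree →
    ∀ (V : Type) [Fintype V] (H : SimpleGraph V), Fintype.card V = 2 * n →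
      ¬ T.IsContained Hᶜ → HasM H (fun _ : Fin 2 => M) := by
  obtain ⟨N0, hN0⟩ := box_clq 2 M (1/128) (by norm_num)
  refine ⟨max N0 2, fun n hn T hT V _ H hV hcon => ?_⟩
  by_contra hM
  have hn1 : N0 ≤ n := le_trans (le_max_left _ _) hn
  have hn2 : 2 ≤ n := le_trans (le_max_right _ _) hn
  have h1 := hN0 V (by omega) H hM
  have h2 : clq H univ 2 = ∑ x ∈ (univ : Finset V), (nb H x univ).card := by
    rw [show (2 : ℕ) = 1 + 1 from rfl, clq_succ]
    exact Finset.sum_congr rfl fun x _ => clq_one H _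
  rw [h2, hV] at h1
  classical
  obtain ⟨X, hX⟩ : ∃ X : Finset V, X = univ.filter (fun v => (n:ℝ)/4 < ((nb H v univ).card : ℝ)) :=
    ⟨_, rfl⟩
  obtain ⟨W, hW⟩ : ∃ W : Finset V, W = univ.filter (fun v => ¬ (n:ℝ)/4 < ((nb H v univ).card : ℝ)) :=
    ⟨_, rfl⟩
  have hXW : X.card + W.card = 2 * n := by
    rw [hX, hW, Finset.card_filter_add_card_filter_not, Finset.card_univ, hV]
  have hnR : (2 : ℝ) ≤ n := by exact_mod_cast hn2
  have h3 : (X.card : ℝ) * ((n : ℝ) / 4) ≤ ((∑ x ∈ (univ : Finset V), (nb H x univ).card : ℕ) : ℝ) := by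
    push_cast
    calc (X.card : ℝ) * ((n : ℝ) / 4) = ∑ _x ∈ X, ((n : ℝ) / 4) := by
          rw [Finset.sum_const, nsmul_eq_mul]
      _ ≤ ∑ x ∈ X, ((nb H x univ).card : ℝ) := by
          apply Finset.sum_le_sum
          intro x hx
          rw [hX, Finset.mem_filter] at hx
          exact hx.2.le
      _ ≤ ∑ x ∈ (univ : Finset V), ((nb H x univ).card : ℝ) := by
          apply Finset.sum_le_sum_of_subset_of_nonneg (Finset.subset_univ _)
          intro x _ _
          exact Nat.cast_nonneg _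
  have h4 : (X.card : ℝ) ≤ n / 8 := by
    have h5 : (X.card : ℝ) * ((n : ℝ) / 4) ≤ (n / 8) * (n / 4) := by
      refine h3.trans (h1.le.trans (le_of_eq ?_))
      push_cast
      ring
    exact le_of_mul_le_mul_right h5 (by linarith)
  have h6 : (X.card : ℝ) + W.card = 2 * n := by exact_mod_cast hXW
  have hWne : W.Nonempty := by
    rw [← Finset.card_pos]
    have : (0 : ℝ) < W.card := by linarith
    exact_mod_cast this
  apply hcon
  apply f1 T hT Hᶜ W hWne
  intro w hw
  have hw' : ((nb H w univ).card : ℝ) ≤ n / 4 := by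
    rw [hW, Finset.mem_filter] at hw
    exact not_lt.mp hw.2
  have hsub : W ⊆ insert w (nb H w univ ∪ nb Hᶜ w W) := by
    intro y hy
    rw [Finset.mem_insert, Finset.mem_union, mem_nb, mem_nb, SimpleGraph.compl_adj]
    by_cases hyw : y = w
    · exact Or.inl hyw
    · by_cases ha : H.Adj w y
      · exact Or.inr (Or.inl ⟨Finset.mem_univ _, ha⟩)
      · exact Or.inr (Or.inr ⟨hy, fun h => hyw h.symm, ha⟩)
  have h7 : W.card ≤ (nb H w univ).card + (nb Hᶜ w W).card + 1 := by
    refine (Finset.card_le_card hsub).trans ((Finset.card_insert_le _ _).trans ?_)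
    have := Finset.card_union_le (nb H w univ) (nb Hᶜ w W)
    omega
  have h8 : (W.card : ℝ) ≤ (nb H w univ).card + (nb Hᶜ w W).card + 1 := by exact_mod_cast h7
  have h9 : (n : ℝ) ≤ (nb Hᶜ w W).card := by linarith
  exact_mod_cast h9

end Pool.Agent.MultiTree
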