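import Pool.Agent.Helper927.MTree.Defs
import Pool.Agent.Helper927.MTree.BIG
import Pool.Agent.Helper927.MTree.CONV
import Pool.Agent.Helper927.MTree.MONO
import Pool.Agent.Helper927.MTree.R2
set_option autoImplicit false
set_option maxHeartbeats 4000000

namespace Pool.Agent.MultiTree

open Finset

/-! ### TARGET: replace the `sorry`s below by proofs (auxiliary lemmas are fine, put them in this file) -/

theorem final_k0 (m : Fin (0 + 2) → ℕ) (hm : ∀ i, 1 ≤ m i) {n : ℕ} (T : SimpleGraph (Fin n)) (R : ℕ)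
    (hR : ∀ H : SimpleGraph (Fin R),
      (completeBipartiteGraph (Fin (m 0)) (Fin (m 1))).IsContained H ∨ T.IsContained Hᶜ)
    (H : SimpleGraph (Fin ((0 + 1) * (R - 1) + m 0))) :
    (SimpleGraph.completeMultipartiteGraph (fun i : Fin (0 + 2) => Fin (m i))).IsContained H ∨
      T.IsContained Hᶜ := by
  have hc : R ≤ (univ : Finset (Fin ((0 + 1) * (R - 1) + m 0))).card := by
    rw [Finset.card_univ, Fintype.card_fin]
    have := hm 0
    omega
  rcases mono_prop T (m 0) (m 1) hR H univ hc with h | h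
  · left
    obtain ⟨A, B, _, _, hA, hB, hAB⟩ := h
    refine hasM_contained H m ⟨![A, B], ?_, ?_⟩
    · intro i
      fin_cases i
      · exact hA
      · exact hB
    · intro i j hij x hx y hy
      fin_cases i <;> fin_cases j
      · exact absurd rfl hij
      · exact hAB x hx y hy
      · exact (hAB y hy x hx).symm
      · exact absurd rfl hij
  · exact Or.inr h

theorem final_le {n R : ℕ} (T : SimpleGraph (Fin n)) (a b : ℕ) (ha : 1 ≤ a) (hb : 1 ≤ b)
    (hR : ∀ H : SimpleGraph (Fin R),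
      (completeBipartiteGraph (Fin a) (Fin b)).IsContained H ∨ T.IsContained Hᶜ) : n ≤ R := by
  rcases hR ⊥ with h | h
  · exfalso
    obtain ⟨⟨f, _⟩⟩ := h
    have h1 : (completeBipartiteGraph (Fin a) (Fin b)).Adj (Sum.inl ⟨0, ha⟩) (Sum.inr ⟨0, hb⟩) := by
      simp
    have h2 := f.map_adj h1
    simp at h2
  · obtain ⟨⟨f, hf⟩⟩ := h
    have := Fintype.card_le_of_injective _ hf
    simpa using this

theorem final_comapM {V W : Type} (H : SimpleGraph W) (f : V → W) (hf : Function.Injective f)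
    {q : ℕ} (m : Fin q → ℕ) (h : HasM (H.comap f) m) : HasM H m := by
  obtain ⟨A, hA, hadj⟩ := h
  refine ⟨fun i => (A i).map ⟨f, hf⟩, fun i => by rw [Finset.card_map, hA i], ?_⟩
  intro i j hij x hx y hy
  rw [Finset.mem_map] at hx hy
  obtain ⟨x', hx', rfl⟩ := hx
  obtain ⟨y', hy', rfl⟩ := hy
  exact hadj i j hij x' hx' y' hy'

theorem final_comapT {V W : Type} (H : SimpleGraph W) (f : V → W) (hf : Function.Injective f)
    {n : ℕ} (T : SimpleGraph (Fin n)) (h : T.IsContained (H.comap f)ᶜ) : T.IsContained Hᶜ := by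
  obtain ⟨⟨g, hg⟩⟩ := h
  refine contained_of (fun a => f (g a)) (hf.comp hg) ?_
  intro a b hab
  have h1 := g.map_adj hab
  rw [SimpleGraph.compl_adj] at h1 ⊢
  exact ⟨fun e => h1.1 (hf e), h1.2⟩

theorem final (k : ℕ) (m : Fin (k + 2) → ℕ) (hm : ∀ i, 1 ≤ m i) :
    ∃ N : ℕ, ∀ (n : ℕ) (T : SimpleGraph (Fin n)), T.IsTree → N ≤ n →
      ∀ R : ℕ,
        (∀ H : SimpleGraph (Fin R),
            (completeBipartiteGraph (Fin (m 0)) (Fin (m 1))).IsContained H ∨
              T.IsContained Hᶜ) →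
        ∀ H : SimpleGraph (Fin ((k + 1) * (R - 1) + m 0)),
          (SimpleGraph.completeMultipartiteGraph (fun i : Fin (k + 2) => Fin (m i))).IsContained H ∨
            T.IsContained Hᶜ := by
  classical
  rcases Nat.eq_zero_or_pos k with rfl | hk
  · exact ⟨0, fun n T _ _ R hR H => final_k0 m hm T R hR H⟩
  · obtain ⟨n1, h1⟩ := r2 (m 0 + m 1)
    obtain ⟨n2, h2⟩ := main_big k hk m hm
    refine ⟨max n1 n2, ?_⟩
    intro n T hT hn R hR H
    have hn1 : n1 ≤ n := (le_max_left _ _).trans hn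
    have hn2 : n2 ≤ n := (le_max_right _ _).trans hn
    let P : ℕ → Prop := fun R' => ∀ H : SimpleGraph (Fin R'),
      (completeBipartiteGraph (Fin (m 0)) (Fin (m 1))).IsContained H ∨ T.IsContained Hᶜ
    have hP2 : P (2 * n) := by
      intro H'
      by_cases hc : T.IsContained H'ᶜ
      · exact Or.inr hc
      · left
        exact hasM2_bip H' (m 0 + m 1) (m 0) (m 1)
          (h1 n hn1 T hT (Fin (2 * n)) H' (Fintype.card_fin _) hc) (Nat.le_add_right _ _)
          (Nat.le_add_left _ _)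
    have hex : ∃ R', P R' := ⟨R, hR⟩
    have hP0 : P (Nat.find hex) := Nat.find_spec hex
    have hle : Nat.find hex ≤ R := Nat.find_min' hex hR
    have hle2 : Nat.find hex ≤ 2 * n := Nat.find_min' hex hP2
    generalize Nat.find hex = R0 at hP0 hle hle2
    have hnR : n ≤ R0 := final_le T (m 0) (m 1) (hm 0) (hm 1) hP0
    have hsz : (k + 1) * (R0 - 1) + 1 ≤ (k + 1) * (R - 1) + m 0 := by
      have e1 : R0 - 1 ≤ R - 1 := by omega
      have e2 := Nat.mul_le_mul_left (k + 1) e1
      have e3 := hm 0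
      omega
    have hinj : Function.Injective (Fin.castLE hsz) := Fin.castLE_injective hsz
    rcases h2 n hn2 T hT R0 hnR hle2 hP0 (Fin ((k + 1) * (R0 - 1) + 1)) (H.comap (Fin.castLE hsz))
      (Fintype.card_fin _) with h | h
    · exact Or.inl (hasM_contained H m (final_comapM H _ hinj m h))
    · exact Or.inr (final_comapT H _ hinj T h)

end Pool.Agent.MultiTree
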